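import Pool.Agent.H71.NB.Win

/-!
# EV Abel: sums over primes with monotone weights, from the prime number theorem in windows

`win_one` (`Pool/Agent/H71/NB/Win.lean`): for every `ε > 0` and all large `x`, for all `u ≤ v ≤ x`:
`|∑_{u < p ≤ v} log p - (v - u)| ≤ ε x`.

`abel`: if all windows `(u, x]`, `u ≤ x ≤ v`, have mass at most `x - u + E` and `g ≥ 0` is nonincreasing on `(u, v]`, then
`∑_{u < p ≤ v} g p log p ≤ ∑_{u < n ≤ v} g n + E g (u + 1)`.  (Abel summation: with `M x` = mass of `(u, x]`,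
`∑ g p log p = g v M v + ∑_{u < x < v} (g x - g (x + 1)) M x`; insert `M x ≤ x - u + E`; induction on `v` is easiest.)
-/

set_option autoImplicit false

namespace Pool.Agent.H27.EV

open Finset Filter

theorem abel (u v : ℕ) (huv : u < v) (E : ℝ) (hE : 0 ≤ E) (g : ℕ → ℝ) (hg : ∀ n, u < n → n ≤ v → 0 ≤ g n)
    (hmono : ∀ n, u < n → n < v → g (n + 1) ≤ g n)
    (hM : ∀ x, u ≤ x → x ≤ v →
      ∑ p ∈ (Ioc u x).filter Nat.Prime, Real.log p ≤ (x : ℝ) - u + E) :
    ∑ p ∈ (Ioc u v).filter Nat.Prime, g p * Real.log p ≤ ∑ n ∈ Ioc u v, g n + E * g (u + 1) := by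
  sorry

end Pool.Agent.H27.EV
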