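import Pool.Agent.H27.EV.Defs

/-!
# EV Api: linearity of the functional `J`, the recursion of the jets
-/

set_option autoImplicit false

noncomputable section

namespace Pool.Agent.H27.EV

open Polynomial Finset

section Gen
variable {F : Type} [Field F]

theorem tl_add (a : ℤ) (g h : F[X]) : tl F a (g + h) = tl F a g + tl F a h := by
  unfold tl; rw [map_add, Polynomial.coe_add]

theorem tl_mul (a : ℤ) (g h : F[X]) : tl F a (g * h) = tl F a g * tl F a h := by
  unfold tl; rw [taylor_mul, Polynomial.coe_mul]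

theorem tl_C (a : ℤ) (c : F) : tl F a (C c) = PowerSeries.C c := by
  unfold tl; rw [taylor_C, Polynomial.coe_C]

theorem tl_one (a : ℤ) : tl F a 1 = 1 := by
  unfold tl; rw [taylor_one, map_one, Polynomial.coe_one]

theorem tl_X (a : ℤ) : tl F a X = PowerSeries.X + PowerSeries.C ((a : ℤ) : F) := by
  unfold tl; rw [taylor_X, Polynomial.coe_add, Polynomial.coe_X, Polynomial.coe_C]

theorem tl_smul (a : ℤ) (c : F) (h : F[X]) : tl F a (C c * h) = PowerSeries.C c * tl F a h := by
  rw [tl_mul, tl_C]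

theorem Jt_add (K : ℕ) (a : ℤ) (g h : F[X]) : Jt F K a (g + h) = Jt F K a g + Jt F K a h := by
  unfold Jt; rw [tl_add, mul_add, add_mul, map_add]

theorem Jt_C_mul (K : ℕ) (a : ℤ) (c : F) (h : F[X]) : Jt F K a (C c * h) = c * Jt F K a h := by
  unfold Jt
  rw [tl_smul, show jet F a * (PowerSeries.C c * tl F a h) * (Wa F K a)⁻¹
    = PowerSeries.C c * (jet F a * tl F a h * (Wa F K a)⁻¹) by ring, PowerSeries.coeff_C_mul]

theorem J_add (K : ℕ) (g h : F[X]) : J F K (g + h) = J F K g + J F K h := by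
  unfold J; rw [← sum_add_distrib]; exact sum_congr rfl fun a _ => Jt_add K a g h

theorem J_C_mul (K : ℕ) (c : F) (h : F[X]) : J F K (C c * h) = c * J F K h := by
  unfold J; rw [mul_sum]; exact sum_congr rfl fun a _ => Jt_C_mul K a c h

/-- `J` as a linear map -/
def Jl (F : Type) [Field F] (K : ℕ) : F[X] →ₗ[F] F where
  toFun := J F K
  map_add' := J_add K
  map_smul' := fun c h => by
    rw [Polynomial.smul_eq_C_mul, J_C_mul]; rfl

theorem Jl_apply (K : ℕ) (h : F[X]) : Jl F K h = J F K h := rfl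

theorem J_zero (K : ℕ) : J F K 0 = 0 := map_zero (Jl F K)

theorem J_sum {ι : Type*} (K : ℕ) (s : Finset ι) (g : ι → F[X]) :
    J F K (∑ i ∈ s, g i) = ∑ i ∈ s, J F K (g i) := map_sum (Jl F K) g s

theorem coeff_hf_zero (a : ℤ) : PowerSeries.constantCoeff (hf F a) = ((2 * a + 1 : ℤ) : F) := by
  simp [hf]

theorem coeff_wf_zero (a : ℤ) : PowerSeries.constantCoeff (wf F a) = ((2 * a : ℤ) : F) := by
  simp [wf]

/-- the recursion of the jets: `(2 y + 2 a + 1) jet (a + 1) = 2 (y + a) jet a` -/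
theorem jet_rec (a : ℤ) (h1 : 0 ≤ a → ((2 * a + 1 : ℤ) : F) ≠ 0) (h2 : a < 0 → ((2 * a : ℤ) : F) ≠ 0) :
    hf F a * jet F (a + 1) = wf F a * jet F a := by
  cases a with
  | ofNat i =>
    have e : jet F (Int.ofNat i + 1) = fpos F (i + 1) := rfl
    rw [e]
    have h3 := h1 (Int.natCast_nonneg i)
    have h4 : PowerSeries.constantCoeff (hf F (Int.ofNat i)) ≠ 0 := by
      rw [coeff_hf_zero]; exact h3
    change hf F (Int.ofNat i) * (wf F (Int.ofNat i) * (hf F (Int.ofNat i))⁻¹ * fpos F i) = _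
    rw [show hf F (Int.ofNat i) * (wf F (Int.ofNat i) * (hf F (Int.ofNat i))⁻¹ * fpos F i)
      = (hf F (Int.ofNat i) * (hf F (Int.ofNat i))⁻¹) * (wf F (Int.ofNat i) * fpos F i) by ring,
      PowerSeries.mul_inv_cancel _ h4, one_mul]
    rfl
  | negSucc k =>
    have h3 := h2 (Int.negSucc_lt_zero k)
    have h4 : PowerSeries.constantCoeff (wf F (Int.negSucc k)) ≠ 0 := by
      rw [coeff_wf_zero]; exact h3
    have e : jet F (Int.negSucc k + 1) = fneg F k := by
      cases k with
      | zero => rfl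
      | succ k => rfl
    have e2 : (-(k + 1 : ℤ)) = Int.negSucc k := (Int.negSucc_eq k).symm
    rw [e]
    change _ = wf F (Int.negSucc k) * (hf F (-(k + 1 : ℤ)) * (wf F (-(k + 1 : ℤ)))⁻¹ * fneg F k)
    rw [e2, show wf F (Int.negSucc k) * (hf F (Int.negSucc k) * (wf F (Int.negSucc k))⁻¹ * fneg F k)
      = (wf F (Int.negSucc k) * (wf F (Int.negSucc k))⁻¹) * (hf F (Int.negSucc k) * fneg F k) by ring,
      PowerSeries.mul_inv_cancel _ h4, one_mul]

theorem jet_zero : jet F 0 = 1 := rfl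

end Gen

end Pool.Agent.H27.EV
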