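import Pool.Agent.H27.EV.Api

/-!
# EV Lei: bounds for the determinant by the Leibniz formula

`Matrix.det_apply`: the determinant is the sum over permutations of `± ∏ entries`.

`D_padic`: the entry `(i, j)`, `j < K`, has norm `≤ l ^ (u i + v j)`, the entry `(i, s)` of a unit column norm
`≤ l ^ (u i + w)`; so every product over a permutation has norm `≤ l ^ (∑ u + ∑ v + 5 w)`; ultrametric inequality
(`padicNorm.sum_le'` or similar; `padicNorm.mul`, `map_prod`; the sign has norm 1).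

`D_abs`: the same with the absolute value; `(K + 5)!` permutations.

`D_zero_rows`: all entries are `p`-integral and the first `z` rows have norm `≤ 1 / p` at the columns `j < K`.  In each
product over a permutation at most `5` of the first `z` rows meet a unit column, the others give a factor of norm
`≤ 1 / p`, so the norm of the determinant is `≤ p ^ (5 - z)`.
-/

set_option autoImplicit false

noncomputable section

namespace Pool.Agent.H27.EV

open Polynomial Finset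

theorem lei_det (K : ℕ) (E : Fin 5 → Fin (K + 5)) (P Q : ℕ → ℚ[X]) :
    D K E P Q = ∑ σ : Equiv.Perm (Fin (K + 5)), ((Equiv.Perm.sign σ : ℤ) : ℚ) *
      ((∏ j : Fin K, J ℚ K (P (σ (Fin.castAdd 5 j)) * Q j)) *
        ∏ s : Fin 5, (P (σ (Fin.natAdd K s))).coeff (2 * (E s : ℕ))) := by
  unfold D
  rw [Matrix.det_apply']
  refine sum_congr rfl fun σ _ => ?_
  congr 1
  rw [Fin.prod_univ_add]
  congr 1
  · refine prod_congr rfl fun j _ => ?_
    simp [Mat, Matrix.reindex_apply, Matrix.submatrix_apply]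
  · refine prod_congr rfl fun j _ => ?_
    simp [Mat, Matrix.reindex_apply, Matrix.submatrix_apply]

theorem lei_norm_prod (l : ℕ) [Fact l.Prime] {ι : Type} (s : Finset ι) (f : ι → ℚ) (e : ι → ℤ)
    (h : ∀ i ∈ s, padicNorm l (f i) ≤ (l : ℚ) ^ (e i)) :
    padicNorm l (∏ i ∈ s, f i) ≤ (l : ℚ) ^ (∑ i ∈ s, e i) := by
  classical
  have hl : (0 : ℚ) < l := by exact_mod_cast (Fact.out : l.Prime).pos
  induction s using Finset.induction_on with
  | empty => simp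
  | insert a s ha ih =>
    rw [prod_insert ha, sum_insert ha, padicNorm.mul, zpow_add₀ hl.ne']
    exact mul_le_mul (h a (mem_insert_self a s)) (ih fun i hi => h i (mem_insert_of_mem hi))
      (padicNorm.nonneg _) (zpow_nonneg hl.le _)

theorem lei_norm_sign (l : ℕ) [Fact l.Prime] (n : ℕ) (σ : Equiv.Perm (Fin n)) :
    padicNorm l (((Equiv.Perm.sign σ : ℤ)) : ℚ) = 1 := by
  rcases Int.units_eq_one_or (Equiv.Perm.sign σ) with h | h <;> simp [h]

theorem lei_sum_perm {R : Type} [AddCommMonoid R] (K : ℕ) (σ : Equiv.Perm (Fin (K + 5))) (u : ℕ → R) :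
    ∑ j : Fin K, u (σ (Fin.castAdd 5 j)) + ∑ s : Fin 5, u (σ (Fin.natAdd K s))
      = ∑ i ∈ range (K + 5), u i := by
  rw [← Fin.sum_univ_add (fun i : Fin (K + 5) => u (σ i)),
    Equiv.sum_comp σ (fun i : Fin (K + 5) => u i), Fin.sum_univ_eq_sum_range]

theorem lei_prod_perm {R : Type} [CommMonoid R] (K : ℕ) (σ : Equiv.Perm (Fin (K + 5))) (u : ℕ → R) :
    (∏ j : Fin K, u (σ (Fin.castAdd 5 j))) * ∏ s : Fin 5, u (σ (Fin.natAdd K s))
      = ∏ i ∈ range (K + 5), u i := by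
  rw [← Fin.prod_univ_add (fun i : Fin (K + 5) => u (σ i)),
    Equiv.prod_comp σ (fun i : Fin (K + 5) => u i), Fin.prod_univ_eq_prod_range]

theorem lei_abs_sign (n : ℕ) (σ : Equiv.Perm (Fin n)) :
    |(((Equiv.Perm.sign σ : ℤ)) : ℝ)| = 1 := by
  rcases Int.units_eq_one_or (Equiv.Perm.sign σ) with h | h <;> simp [h]

theorem D_padic (l : ℕ) [Fact l.Prime] (K : ℕ) (E : Fin 5 → Fin (K + 5)) (P Q : ℕ → ℚ[X])
    (u v : ℕ → ℤ) (w : ℤ)
    (h1 : ∀ i < K + 5, ∀ j < K, padicNorm l (J ℚ K (P i * Q j)) ≤ (l : ℚ) ^ (u i + v j))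
    (h2 : ∀ i < K + 5, ∀ s < K + 5, padicNorm l ((P i).coeff (2 * s)) ≤ (l : ℚ) ^ (u i + w)) :
    padicNorm l (D K E P Q) ≤
      (l : ℚ) ^ (∑ i ∈ range (K + 5), u i + ∑ j ∈ range K, v j + 5 * w) := by
  have hl : (0 : ℚ) < l := by exact_mod_cast (Fact.out : l.Prime).pos
  rw [lei_det]
  refine padicNorm.sum_le' (fun σ _ => ?_) (zpow_nonneg hl.le _)
  rw [padicNorm.mul, lei_norm_sign, one_mul, padicNorm.mul]
  have a1 := lei_norm_prod l (univ : Finset (Fin K))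
    (fun j => J ℚ K (P (σ (Fin.castAdd 5 j)) * Q j)) (fun j => u (σ (Fin.castAdd 5 j)) + v j)
    (fun j _ => h1 _ (σ (Fin.castAdd 5 j)).2 j j.2)
  have a2 := lei_norm_prod l (univ : Finset (Fin 5))
    (fun s => (P (σ (Fin.natAdd K s))).coeff (2 * (E s : ℕ))) (fun s => u (σ (Fin.natAdd K s)) + w)
    (fun s _ => h2 _ (σ (Fin.natAdd K s)).2 _ (E s).2)
  refine (mul_le_mul a1 a2 (padicNorm.nonneg _) (zpow_nonneg hl.le _)).trans (le_of_eq ?_)
  rw [← zpow_add₀ hl.ne']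
  congr 1
  rw [sum_add_distrib, sum_add_distrib, ← lei_sum_perm K σ u, Fin.sum_univ_eq_sum_range v K]
  simp only [sum_const, card_univ, Fintype.card_fin]
  rw [nsmul_eq_mul]
  push_cast
  ring

theorem D_abs (K : ℕ) (E : Fin 5 → Fin (K + 5)) (P Q : ℕ → ℚ[X])
    (ρ γ : ℕ → ℝ) (w : ℝ) (hρ : ∀ i, 0 ≤ ρ i) (hγ : ∀ j, 0 ≤ γ j) (hw : 0 ≤ w)
    (h1 : ∀ i < K + 5, ∀ j < K, |((J ℚ K (P i * Q j) : ℚ) : ℝ)| ≤ ρ i * γ j)
    (h2 : ∀ i < K + 5, ∀ s < K + 5, |(((P i).coeff (2 * s) : ℚ) : ℝ)| ≤ ρ i * w) :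
    |((D K E P Q : ℚ) : ℝ)| ≤
      (K + 5).factorial * ((∏ i ∈ range (K + 5), ρ i) * (∏ j ∈ range K, γ j) * w ^ 5) := by
  rw [lei_det]
  push_cast
  refine (abs_sum_le_sum_abs _ _).trans ?_
  have key : ∀ σ ∈ (univ : Finset (Equiv.Perm (Fin (K + 5)))),
      |((Equiv.Perm.sign σ : ℤ) : ℝ) *
        ((∏ j : Fin K, ((J ℚ K (P (σ (Fin.castAdd 5 j)) * Q j) : ℚ) : ℝ)) *
          ∏ s : Fin 5, (((P (σ (Fin.natAdd K s))).coeff (2 * (E s : ℕ)) : ℚ) : ℝ))|
        ≤ (∏ i ∈ range (K + 5), ρ i) * (∏ j ∈ range K, γ j) * w ^ 5 := by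
    intro σ _
    rw [abs_mul, lei_abs_sign, one_mul, abs_mul, abs_prod, abs_prod]
    have a1 : ∏ j : Fin K, |((J ℚ K (P (σ (Fin.castAdd 5 j)) * Q j) : ℚ) : ℝ)|
        ≤ ∏ j : Fin K, (ρ (σ (Fin.castAdd 5 j)) * γ j) :=
      prod_le_prod (fun _ _ => abs_nonneg _) (fun j _ => h1 _ (σ (Fin.castAdd 5 j)).2 j j.2)
    have a2 : ∏ s : Fin 5, |(((P (σ (Fin.natAdd K s))).coeff (2 * (E s : ℕ)) : ℚ) : ℝ)|
        ≤ ∏ s : Fin 5, (ρ (σ (Fin.natAdd K s)) * w) :=
      prod_le_prod (fun _ _ => abs_nonneg _) (fun s _ => h2 _ (σ (Fin.natAdd K s)).2 _ (E s).2)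
    refine (mul_le_mul a1 a2 (prod_nonneg fun _ _ => abs_nonneg _)
      (prod_nonneg fun _ _ => mul_nonneg (hρ _) (hγ _))).trans (le_of_eq ?_)
    rw [prod_mul_distrib, prod_mul_distrib, ← lei_prod_perm K σ ρ, Fin.prod_univ_eq_prod_range γ K]
    simp only [prod_const, card_univ, Fintype.card_fin]
    ring
  refine (sum_le_sum key).trans (le_of_eq ?_)
  rw [sum_const, card_univ, Fintype.card_perm, Fintype.card_fin, nsmul_eq_mul]

theorem D_zero_rows (p : ℕ) [Fact p.Prime] (K z : ℕ) (hz : z ≤ K + 5) (E : Fin 5 → Fin (K + 5))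
    (P Q : ℕ → ℚ[X])
    (h1 : ∀ i < K + 5, ∀ j < K, padicNorm p (J ℚ K (P i * Q j)) ≤ 1)
    (h2 : ∀ i < K + 5, ∀ s < K + 5, padicNorm p ((P i).coeff (2 * s)) ≤ 1)
    (h3 : ∀ i < z, ∀ j < K, padicNorm p (J ℚ K (P i * Q j)) ≤ (p : ℚ) ^ (-1 : ℤ)) :
    padicNorm p (D K E P Q) ≤ (p : ℚ) ^ ((5 : ℤ) - z) := by
  have hp : (1 : ℚ) ≤ p := by exact_mod_cast (Fact.out : p.Prime).one_le
  have h := D_padic p K E P Q (fun i => if i < z then (-1 : ℤ) else 0) (fun _ => 0) 1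
    (fun i hi j hj => by
      by_cases hz' : i < z
      · simpa [hz'] using h3 i hz' j hj
      · simpa [hz'] using h1 i hi j hj)
    (fun i hi s hs => by
      by_cases hz' : i < z
      · simpa [hz'] using h2 i hi s hs
      · refine (h2 i hi s hs).trans ?_
        simpa [hz'] using hp)
  refine h.trans (le_of_eq ?_)
  congr 1
  have e : ∑ i ∈ range (K + 5), (if i < z then (-1 : ℤ) else 0) = -(z : ℤ) := by
    rw [← sum_filter, show (range (K + 5)).filter (fun i => i < z) = range z by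
      ext i; simp only [mem_filter, mem_range]; omega]
    simp
  rw [e]
  simp
  ring

end Pool.Agent.H27.EV
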