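import Pool.Agent.H27.EV.Api

/-!
# EV Lin: the determinant does not depend on the monic bases

`D_change`.  `P i = ∑_{s ≤ i} t_{is} X ^ (2 s)`, `t_{ii} = 1` (`IsEv`: only even coefficients), and
`Q j = ∑_{s ≤ j} u_{js} X ^ s`, `u_{jj} = 1`.  By linearity (`J_sum`, `J_C_mul` of `Api`)
`Mat K E P Q = T * Mat K E (X ^ (2 i)) (X ^ j) * (Uᵀ ⊕ 1)` with `T` lower unitriangular of size `K + 5` and `U` lower
unitriangular of size `K`; note that the unit columns of `Mat` are the coefficients `(P i).coeff (2 E s)`, i.e. the columns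
`T * (unit column)`.  Determinants: `Matrix.det_of_lowerTriangular` / `det_of_upperTriangular`
(`Matrix.BlockTriangular`), `Matrix.fromBlocks`, `Matrix.det_mul`, `reindex` is multiplicative
(`Matrix.reindex_apply`, `submatrix_mul_equiv`).
-/

set_option autoImplicit false

noncomputable section

namespace Pool.Agent.H27.EV

open Polynomial Finset

/-- the coefficients of the rows -/
def lin_T (K : ℕ) (P : ℕ → ℚ[X]) : Matrix (Fin (K + 5)) (Fin (K + 5)) ℚ :=
  Matrix.of fun i s => (P i).coeff (2 * (s : ℕ))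

/-- the coefficients of the columns -/
def lin_U (K : ℕ) (Q : ℕ → ℚ[X]) : Matrix (Fin K) (Fin K) ℚ :=
  Matrix.of fun j t => (Q j).coeff (t : ℕ)

/-- the right factor -/
def lin_B (K : ℕ) (Q : ℕ → ℚ[X]) : Matrix (Fin K ⊕ Fin 5) (Fin K ⊕ Fin 5) ℚ :=
  Matrix.fromBlocks (lin_U K Q).transpose 0 0 1

/-- the matrix with the monomials -/
def lin_M (K : ℕ) (E : Fin 5 → Fin (K + 5)) : Matrix (Fin (K + 5)) (Fin K ⊕ Fin 5) ℚ :=
  Mat K E (fun i => X ^ (2 * i)) (fun j => X ^ j)

theorem lin_det_T (K : ℕ) {P : ℕ → ℚ[X]} (hP : ∀ i, IsEv i (P i)) : (lin_T K P).det = 1 := by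
  rw [Matrix.det_of_lowerTriangular]
  · apply prod_eq_one
    intro i _
    change (P i).coeff (2 * (i : ℕ)) = 1
    have h := (hP i).1.coeff_natDegree
    rwa [(hP i).2.1] at h
  · intro i s hs
    have hs' : (i : ℕ) < s := by
      have : i < s := OrderDual.toDual_lt_toDual.mp hs
      exact this
    change (P i).coeff (2 * (s : ℕ)) = 0
    apply coeff_eq_zero_of_natDegree_lt
    rw [(hP i).2.1]
    omega

theorem lin_det_U (K : ℕ) {Q : ℕ → ℚ[X]} (hQ : ∀ j, IsMon j (Q j)) : (lin_U K Q).det = 1 := by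
  rw [Matrix.det_of_lowerTriangular]
  · apply prod_eq_one
    intro j _
    change (Q j).coeff (j : ℕ) = 1
    have h := (hQ j).1.coeff_natDegree
    rwa [(hQ j).2] at h
  · intro j t ht
    have ht' : (j : ℕ) < t := by
      have : j < t := OrderDual.toDual_lt_toDual.mp ht
      exact this
    change (Q j).coeff (t : ℕ) = 0
    apply coeff_eq_zero_of_natDegree_lt
    rw [(hQ j).2]
    omega

theorem lin_P (K : ℕ) {P : ℕ → ℚ[X]} (hP : ∀ i, IsEv i (P i)) (i : Fin (K + 5)) :
    P i = ∑ s : Fin (K + 5), C ((P i).coeff (2 * (s : ℕ))) * X ^ (2 * (s : ℕ)) := by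
  rw [Fin.sum_univ_eq_sum_range (fun s => C ((P i).coeff (2 * s)) * X ^ (2 * s)) (K + 5)]
  ext n
  rw [finsetSum_coeff]
  simp only [coeff_C_mul, coeff_X_pow]
  by_cases hn : Even n
  · obtain ⟨t, ht⟩ := hn
    by_cases htK : t < K + 5
    · rw [sum_eq_single t]
      · rw [if_pos (by omega), mul_one, show 2 * t = n by omega]
      · intro s _ hs
        rw [if_neg (by omega), mul_zero]
      · intro h
        exact absurd (mem_range.mpr htK) h
    · rw [sum_eq_zero]
      · apply coeff_eq_zero_of_natDegree_lt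
        rw [(hP i).2.1]
        have := i.2
        omega
      · intro s hs
        rw [mem_range] at hs
        rw [if_neg (by omega), mul_zero]
  · rw [(hP i).2.2 n hn, sum_eq_zero]
    intro s _
    rw [if_neg, mul_zero]
    intro h
    exact hn (by rw [h]; exact even_two_mul s)

theorem lin_Q (K : ℕ) {Q : ℕ → ℚ[X]} (hQ : ∀ j, IsMon j (Q j)) (j : Fin K) :
    Q j = ∑ t : Fin K, C ((Q j).coeff (t : ℕ)) * X ^ (t : ℕ) := by
  rw [Fin.sum_univ_eq_sum_range (fun t => C ((Q j).coeff t) * X ^ t) K]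
  apply as_sum_range_C_mul_X_pow'
  rw [(hQ j).2]
  exact j.2

theorem lin_fac (K : ℕ) (E : Fin 5 → Fin (K + 5)) {P Q : ℕ → ℚ[X]} (hP : ∀ i, IsEv i (P i))
    (hQ : ∀ j, IsMon j (Q j)) :
    Mat K E P Q = lin_T K P * (lin_M K E * lin_B K Q : Matrix (Fin (K + 5)) (Fin K ⊕ Fin 5) ℚ) := by
  apply Matrix.ext
  intro i c
  rw [Matrix.mul_apply]
  rcases c with j | s
  · have e1 : ∀ s : Fin (K + 5), (lin_M K E * lin_B K Q : Matrix (Fin (K + 5)) (Fin K ⊕ Fin 5) ℚ) s
        (Sum.inl j) =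
        ∑ t : Fin K, J ℚ K (X ^ (2 * (s : ℕ)) * X ^ (t : ℕ)) * (Q j).coeff (t : ℕ) := by
      intro s
      rw [Matrix.mul_apply, Fintype.sum_sum_type]
      have e2 : ∑ x : Fin 5, lin_M K E s (Sum.inr x) * lin_B K Q (Sum.inr x) (Sum.inl j) = 0 := by
        apply sum_eq_zero
        intro x _
        unfold lin_B
        rw [Matrix.fromBlocks_apply₂₁, Matrix.zero_apply, mul_zero]
      rw [e2, add_zero]
      exact sum_congr rfl fun t _ => rfl
    simp only [e1]
    change J ℚ K (P i * Q j) = _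
    nth_rewrite 1 [lin_P K hP i]
    nth_rewrite 1 [lin_Q K hQ j]
    rw [sum_mul, J_sum]
    refine sum_congr rfl fun s _ => ?_
    rw [mul_sum, J_sum, mul_sum]
    refine sum_congr rfl fun t _ => ?_
    rw [show C ((P i).coeff (2 * (s : ℕ))) * X ^ (2 * (s : ℕ)) *
        (C ((Q j).coeff (t : ℕ)) * X ^ (t : ℕ)) =
      C ((P i).coeff (2 * (s : ℕ))) * (C ((Q j).coeff (t : ℕ)) *
        (X ^ (2 * (s : ℕ)) * X ^ (t : ℕ))) by ring, J_C_mul, J_C_mul]
    change _ = (P i).coeff (2 * (s : ℕ)) * _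
    ring
  · have e1 : ∀ s' : Fin (K + 5), (lin_M K E * lin_B K Q : Matrix (Fin (K + 5)) (Fin K ⊕ Fin 5) ℚ) s'
        (Sum.inr s) =
        if s' = E s then 1 else 0 := by
      intro s'
      rw [Matrix.mul_apply, Fintype.sum_sum_type]
      have e2 : ∑ x : Fin K, lin_M K E s' (Sum.inl x) * lin_B K Q (Sum.inl x) (Sum.inr s) = 0 := by
        apply sum_eq_zero
        intro x _
        unfold lin_B
        rw [Matrix.fromBlocks_apply₁₂, Matrix.zero_apply, mul_zero]
      rw [e2, zero_add, sum_eq_single s]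
      · unfold lin_B
        rw [Matrix.fromBlocks_apply₂₂, Matrix.one_apply_eq, mul_one]
        change ((X : ℚ[X]) ^ (2 * (s' : ℕ))).coeff (2 * (E s : ℕ)) = _
        rw [coeff_X_pow]
        by_cases h : s' = E s
        · rw [if_pos h, if_pos (by rw [h])]
        · rw [if_neg h, if_neg]
          intro h'
          exact h (Fin.ext (by omega))
      · intro x _ hx
        unfold lin_B
        rw [Matrix.fromBlocks_apply₂₂, Matrix.one_apply_ne hx, mul_zero]
      · intro h
        exact absurd (mem_univ _) h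
    simp only [e1, mul_ite, mul_one, mul_zero, sum_ite_eq', mem_univ, if_true]
    rfl

theorem D_change (K : ℕ) (E : Fin 5 → Fin (K + 5)) {P Q : ℕ → ℚ[X]} (hP : ∀ i, IsEv i (P i))
    (hQ : ∀ j, IsMon j (Q j)) : D K E P Q = D0 K E := by
  have hdetB : (lin_B K Q).det = 1 := by
    unfold lin_B
    rw [Matrix.det_fromBlocks_zero₂₁, Matrix.det_transpose, lin_det_U K hQ, Matrix.det_one,
      mul_one]
  have e : Matrix.reindex (Equiv.refl _) finSumFinEquiv (Mat K E P Q) =
      lin_T K P * (Matrix.reindex (Equiv.refl _) finSumFinEquiv (lin_M K E) *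
        Matrix.reindex finSumFinEquiv finSumFinEquiv (lin_B K Q) :
          Matrix (Fin (K + 5)) (Fin (K + 5)) ℚ) := by
    rw [lin_fac K E hP hQ]
    simp only [Matrix.reindex_apply]
    rw [← Matrix.submatrix_mul_equiv (lin_T K P) (lin_M K E * lin_B K Q) _
      (Equiv.refl (Fin (K + 5))).symm _,
      ← Matrix.submatrix_mul_equiv (lin_M K E) (lin_B K Q) _ finSumFinEquiv.symm _]
    rfl
  unfold D0 D
  rw [e, Matrix.det_mul, Matrix.det_mul, lin_det_T K hP, Matrix.det_reindex_self, hdetB, one_mul,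
    mul_one]
  rfl

end Pool.Agent.H27.EV
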