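import Mathlib

/-!
# EV Stir: the sum of the logarithms of the Hermite bounds

`log n! ≤ (n + 1) log (n + 1) - n`, so `lB n σ ≤ (n / 2 + 1) log (n + 1) - n / 2 + 1 / 2 + (n / 2) log σ`.  For `σ = K / 8`, `n = 2 i`,
`i < K + 5`, and `σ = K / 4`, `n = j < K`.  Main terms: `∑ i log (2 i) - i + i log (K / 8) = (K ^ 2 / 2) (log (2 K) - 1/2 - 1
+ log (K / 8)) + O (K log K)` and `∑ (j log j - j + j log (K / 4)) / 2 = (K ^ 2 / 4) (log K - 1/2 - 1 + log (K / 4)) + O (K log K)`,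
`(3/2) K log K! ≥ (3/2) K ^ 2 (log K - 1)`.  Sum of the main terms: `K ^ 2 (3/8 - (3/2) log 2)`, the `log K` cancel.
Tools: `x log x` is increasing for `x ≥ 1`: `∑_{i = 1}^{m} i log i ≤ ∫_1^{m+1} x log x dx = ((m+1)^2 / 2) log (m+1) - ((m+1)^2 - 1) / 4`
(`MonotoneOn.sum_le_integral`), or a direct induction on `m` for
`∑_{i=1}^m i log i ≤ (m^2 / 2) log m - m^2 / 4 + 2 m log (m + 1) + 1`.  `log x = o (x)`.
-/

set_option autoImplicit false

noncomputable section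

namespace Pool.Agent.H27.EV

open Finset Filter

/-- logarithm of `B` of `Ent` -/
def lB (n : ℕ) (σ : ℝ) : ℝ :=
  Real.log n.factorial + n / 2 * Real.log (σ / (n + 1)) + (n + 1) / 2

theorem stir (η : ℝ) (hη : 0 < η) : ∀ᶠ K : ℕ in atTop,
    ∑ i ∈ range (K + 5), lB (2 * i) ((K : ℝ) / 8) + ∑ j ∈ range K, lB j ((K : ℝ) / 4)
      - 3 / 2 * K * Real.log K.factorial ≤ (3 / 8 - 3 / 2 * Real.log 2 + η) * (K : ℝ) ^ 2 := by
  sorry

end Pool.Agent.H27.EV
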