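import Pool.Agent.H27.EV.Ent
import Pool.Agent.H27.EV.Stir
import Pool.Agent.H27.EV.Lin
import Pool.Agent.H27.EV.Lei

/-!
# EV Arch: the determinant at the archimedean place

`D_change` with `P i = Hm (K / 8) (2 i)`, `Q j = Hm (K / 4) j`; `D_abs` with `ρ i = B (2 i) (K / 8)`, `γ j = B j (K / 4) * A`,
`A = (2 K + 1) * 2 * (24 K) ^ 2 * 64 ^ K / (2 K)! ^ 3` (`ent`), and `w` such that `|coefficients of P i| ≤ ρ i w`: by `Hm_coeff` they are
`≤ (2 K + 8)! (1 + K / 8) ^ (2 K + 8)`, and `ρ i ≥ (K / 8 / (2 K + 9)) ^ (i)` (...`≥ 200 ^ (-(K + 5))`), so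
`w = (2 K + 8)! (1 + K) ^ (2 K + 8) 200 ^ (K + 5)` works, `log w = O (K log K)`.  Logarithm:
`log |D0| ≤ log (K + 5)! + ∑ lB + K log A + 5 log w`, `K log A = 6 log 2 K ^ 2 - 3 K log (2 K)! + O (K log K)`; `stir`.
`log (B n σ) = lB n σ`.
-/

set_option autoImplicit false

noncomputable section

namespace Pool.Agent.H27.EV

open Polynomial Finset Filter

theorem arch_B_pos (n : ℕ) {σ : ℝ} (hσ : 0 < σ) : 0 < B n σ := by
  unfold B
  positivity

theorem arch_log_B (n : ℕ) {σ : ℝ} (hσ : 0 < σ) : Real.log (B n σ) = lB n σ := by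
  unfold B lB
  have h1 : (0 : ℝ) < n.factorial := by exact_mod_cast n.factorial_pos
  have h2 : 0 < σ / ((n : ℝ) + 1) := by positivity
  have h3 : 0 < Real.sqrt (σ / (n + 1)) ^ n := by positivity
  rw [Real.log_mul (by positivity) (Real.exp_pos _).ne', Real.log_mul h1.ne' h3.ne', Real.log_exp,
    Real.log_pow, Real.log_sqrt h2.le]
  ring

/-- The majorant of the coefficients. -/
def arch_w (K : ℕ) : ℝ := (88 * (1 + (K : ℝ)) ^ 2) ^ (K + 5)

/-- The common factor of the entries. -/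
def arch_A (K : ℕ) : ℝ := (2 * K + 1) * 2 * (24 * K) ^ 2 * 64 ^ K / ((2 * K).factorial : ℝ) ^ 3

theorem arch_coeff (K : ℕ) (hK : 1 ≤ K) (i s : ℕ) (hi : i < K + 5) :
    |(((Hm ((K : ℚ) / 8) (2 * i)).coeff s : ℚ) : ℝ)| ≤ B (2 * i) ((K : ℝ) / 8) * arch_w K := by
  have hK0 : (1 : ℝ) ≤ K := by exact_mod_cast hK
  have h1 := Hm_coeff ((K : ℚ) / 8) (by positivity) (2 * i) s
  have h2 : |(((Hm ((K : ℚ) / 8) (2 * i)).coeff s : ℚ) : ℝ)| ≤
      (2 * i).factorial * (1 + (K : ℝ) / 8) ^ (2 * i) := by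
    have h3 : ((|(Hm ((K : ℚ) / 8) (2 * i)).coeff s| : ℚ) : ℝ) ≤
        (((2 * i).factorial * (1 + (K : ℚ) / 8) ^ (2 * i) : ℚ) : ℝ) := by exact_mod_cast h1
    push_cast at h3
    exact h3
  refine h2.trans ?_
  set σ : ℝ := (K : ℝ) / 8 with hσ
  have hσ0 : 0 < σ := by positivity
  unfold B
  have hi' : (i : ℝ) ≤ K + 4 := by
    have : i ≤ K + 4 := by omega
    exact_mod_cast this
  have hi0 : (0 : ℝ) ≤ i := Nat.cast_nonneg i
  have hq : 0 < σ / (((2 * i : ℕ) : ℝ) + 1) := by positivity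
  have e1 : Real.sqrt (σ / (((2 * i : ℕ) : ℝ) + 1)) ^ (2 * i) =
      (σ / (((2 * i : ℕ) : ℝ) + 1)) ^ i := by
    rw [pow_mul, Real.sq_sqrt hq.le]
  rw [e1]
  have e2 : (1 : ℝ) ≤ Real.exp ((((2 * i : ℕ) : ℝ) + 1) / 2) := Real.one_le_exp (by positivity)
  -- `1 / 88 ≤ σ / (2 i + 1)`
  have h4 : 1 / 88 ≤ σ / (((2 * i : ℕ) : ℝ) + 1) := by
    rw [div_le_div_iff₀ (by norm_num) (by positivity), hσ]
    push_cast
    linarith
  have h5 : (1 + σ) ^ (2 * i) ≤ (σ / (((2 * i : ℕ) : ℝ) + 1)) ^ i * arch_w K := by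
    have h6 : (1 + σ) ^ 2 ≤ (1 + (K : ℝ)) ^ 2 := by
      have : σ ≤ K := by rw [hσ]; linarith
      gcongr
    have h7 : (1 + σ) ^ 2 ≤ σ / (((2 * i : ℕ) : ℝ) + 1) * (88 * (1 + (K : ℝ)) ^ 2) := by
      calc (1 + σ) ^ 2 ≤ (1 + (K : ℝ)) ^ 2 := h6
        _ = 1 / 88 * (88 * (1 + (K : ℝ)) ^ 2) := by ring
        _ ≤ _ := mul_le_mul_of_nonneg_right h4 (by positivity)
    have h8 : (1 : ℝ) ≤ 88 * (1 + (K : ℝ)) ^ 2 := by nlinarith
    calc (1 + σ) ^ (2 * i) = ((1 + σ) ^ 2) ^ i := by rw [pow_mul]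
      _ ≤ (σ / (((2 * i : ℕ) : ℝ) + 1) * (88 * (1 + (K : ℝ)) ^ 2)) ^ i :=
          pow_le_pow_left₀ (by positivity) h7 i
      _ = (σ / (((2 * i : ℕ) : ℝ) + 1)) ^ i * (88 * (1 + (K : ℝ)) ^ 2) ^ i := mul_pow _ _ _
      _ ≤ _ := by
          unfold arch_w
          exact mul_le_mul_of_nonneg_left (pow_le_pow_right₀ h8 hi.le) (by positivity)
  have hw0 : 0 ≤ arch_w K := by unfold arch_w; positivity
  calc ((2 * i).factorial : ℝ) * (1 + σ) ^ (2 * i)
      ≤ (2 * i).factorial * ((σ / (((2 * i : ℕ) : ℝ) + 1)) ^ i * arch_w K) :=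
        mul_le_mul_of_nonneg_left h5 (by positivity)
    _ = (2 * i).factorial * (σ / (((2 * i : ℕ) : ℝ) + 1)) ^ i * 1 * arch_w K := by ring
    _ ≤ (2 * i).factorial * (σ / (((2 * i : ℕ) : ℝ) + 1)) ^ i *
          Real.exp ((((2 * i : ℕ) : ℝ) + 1) / 2) * arch_w K := by gcongr

theorem arch_log (K : ℕ) (hK : 1 ≤ K) (E : Fin 5 → Fin (K + 5)) (h0 : D0 K E ≠ 0) :
    Real.log |((D0 K E : ℚ) : ℝ)| ≤ Real.log (K + 5).factorial
      + (∑ i ∈ range (K + 5), lB (2 * i) ((K : ℝ) / 8) + ∑ j ∈ range K, lB j ((K : ℝ) / 4))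
      + K * Real.log (arch_A K) + 5 * Real.log (arch_w K) := by
  have hK0 : (0 : ℝ) < K := by exact_mod_cast hK
  have hA : 0 < arch_A K := by unfold arch_A; positivity
  have hw : 0 < arch_w K := by unfold arch_w; positivity
  have e := D_change K E (P := fun i => Hm ((K : ℚ) / 8) (2 * i))
    (Q := fun j => Hm ((K : ℚ) / 4) j) (fun i => Hm_ev _ i) (fun j => Hm_mon _ j)
  have h1 := D_abs K E (fun i => Hm ((K : ℚ) / 8) (2 * i)) (fun j => Hm ((K : ℚ) / 4) j)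
    (fun i => B (2 * i) ((K : ℝ) / 8)) (fun j => B j ((K : ℝ) / 4) * arch_A K) (arch_w K)
    (fun i => (arch_B_pos _ (by positivity)).le)
    (fun j => (mul_pos (arch_B_pos _ (by positivity)) hA).le) hw.le
    (fun i hi j hj => ent K hK i j hi hj)
    (fun i hi s _ => arch_coeff K hK i (2 * s) hi)
  rw [e] at h1
  have hD : 0 < |((D0 K E : ℚ) : ℝ)| := abs_pos.mpr (by exact_mod_cast h0)
  have h2 := Real.log_le_log hD h1
  have p1 : ∀ i ∈ range (K + 5), B (2 * i) ((K : ℝ) / 8) ≠ 0 := fun i _ =>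
    (arch_B_pos _ (by positivity)).ne'
  have p2 : ∀ j ∈ range K, B j ((K : ℝ) / 4) * arch_A K ≠ 0 := fun j _ =>
    (mul_pos (arch_B_pos _ (by positivity)) hA).ne'
  have p3 : ((K + 5).factorial : ℝ) ≠ 0 := by exact_mod_cast (K + 5).factorial_ne_zero
  rw [Real.log_mul p3 (mul_ne_zero (mul_ne_zero (prod_ne_zero_iff.mpr p1)
      (prod_ne_zero_iff.mpr p2)) (by positivity)),
    Real.log_mul (mul_ne_zero (prod_ne_zero_iff.mpr p1) (prod_ne_zero_iff.mpr p2))
      (by positivity),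
    Real.log_mul (prod_ne_zero_iff.mpr p1) (prod_ne_zero_iff.mpr p2),
    Real.log_prod p1, Real.log_prod p2, Real.log_pow] at h2
  have h3 : ∑ i ∈ range (K + 5), Real.log (B (2 * i) ((K : ℝ) / 8)) =
      ∑ i ∈ range (K + 5), lB (2 * i) ((K : ℝ) / 8) :=
    sum_congr rfl fun i _ => arch_log_B _ (by positivity)
  have h4 : ∑ j ∈ range K, Real.log (B j ((K : ℝ) / 4) * arch_A K) =
      ∑ j ∈ range K, lB j ((K : ℝ) / 4) + K * Real.log (arch_A K) := by
    rw [← nsmul_eq_mul, ← card_range K, ← sum_const, card_range, ← sum_add_distrib]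
    refine sum_congr rfl fun j _ => ?_
    rw [Real.log_mul (arch_B_pos _ (by positivity)).ne' hA.ne', arch_log_B _ (by positivity)]
  rw [h3, h4] at h2
  push_cast at h2
  linarith

theorem arch_small (δ : ℝ) (hδ : 0 < δ) : ∀ᶠ K : ℕ in atTop,
    Real.log (100 * ((K : ℝ) + 5)) ≤ δ * K := by
  have h0 : ∀ᶠ x : ℝ in atTop, ‖Real.log x‖ ≤ δ / 2 / 100 * ‖x‖ :=
    Real.isLittleO_log_id_atTop.def (by positivity)
  have ht : Tendsto (fun K : ℕ => 100 * ((K : ℝ) + 5)) atTop atTop :=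
    (tendsto_atTop_add_const_right _ _ tendsto_natCast_atTop_atTop).const_mul_atTop (by norm_num)
  filter_upwards [ht.eventually h0, eventually_ge_atTop 5] with K h1 h2
  have hK : (5 : ℝ) ≤ K := by exact_mod_cast h2
  rw [Real.norm_eq_abs, Real.norm_eq_abs, abs_of_nonneg (by positivity : (0 : ℝ) ≤ 100 * (K + 5)),
    abs_of_nonneg (Real.log_nonneg (by nlinarith))] at h1
  refine h1.trans ?_
  nlinarith

theorem arch (η : ℝ) (hη : 0 < η) : ∀ᶠ K : ℕ in atTop, ∀ E : Fin 5 → Fin (K + 5), D0 K E ≠ 0 →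
    Real.log |((D0 K E : ℚ) : ℝ)| ≤ - 3 * K * Real.log (2 * K).factorial
      + 3 / 2 * K * Real.log K.factorial + (9 / 2 * Real.log 2 + 3 / 8 + η) * (K : ℝ) ^ 2 := by
  filter_upwards [stir (η / 2) (by positivity), arch_small (η / 240) (by positivity),
    eventually_ge_atTop 1] with K h1 h2 hK E h0
  have h3 := arch_log K hK E h0
  have hK1 : (1 : ℝ) ≤ K := by exact_mod_cast hK
  have hK0 : (0 : ℝ) < K := by linarith
  set ℓ := Real.log (100 * ((K : ℝ) + 5)) with hℓ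
  have b1 : Real.log (K + 5).factorial ≤ (K + 5) * ℓ := by
    have h4 : ((K + 5).factorial : ℝ) ≤ ((K : ℝ) + 5) ^ (K + 5) := by
      exact_mod_cast Nat.factorial_le_pow (K + 5)
    have h5 := Real.log_le_log (by exact_mod_cast (K + 5).factorial_pos) h4
    rw [Real.log_pow] at h5
    have h6 : Real.log ((K : ℝ) + 5) ≤ ℓ := Real.log_le_log (by positivity) (by nlinarith)
    push_cast at h5
    nlinarith
  have b2 : Real.log (arch_A K) ≤ 4 * ℓ + 6 * Real.log 2 * K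
      - 3 * Real.log (2 * K).factorial := by
    unfold arch_A
    have q1 : ((2 * K).factorial : ℝ) ≠ 0 := by exact_mod_cast (2 * K).factorial_ne_zero
    have hf : 0 < ((2 * K).factorial : ℝ) := by exact_mod_cast (2 * K).factorial_pos
    rw [Real.log_div (by positivity) (by positivity), Real.log_mul (by positivity) (by positivity),
      Real.log_mul (by positivity) (by positivity), Real.log_mul (by positivity) (by positivity),
      Real.log_pow, Real.log_pow, Real.log_pow]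
    have c1 : Real.log (2 * (K : ℝ) + 1) ≤ ℓ := Real.log_le_log (by positivity) (by nlinarith)
    have c2 : Real.log 2 ≤ ℓ := Real.log_le_log (by positivity) (by nlinarith)
    have c3 : Real.log (24 * (K : ℝ)) ≤ ℓ := Real.log_le_log (by positivity) (by nlinarith)
    have c4 : Real.log 64 = 6 * Real.log 2 := by
      rw [show (64 : ℝ) = 2 ^ (6 : ℕ) by norm_num, Real.log_pow]
      norm_num
    rw [c4]
    push_cast
    nlinarith
  have b3 : Real.log (arch_w K) ≤ (K + 5) * (3 * ℓ) := by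
    unfold arch_w
    rw [Real.log_pow, Real.log_mul (by norm_num) (by positivity), Real.log_pow]
    have c1 : Real.log 88 ≤ ℓ := Real.log_le_log (by positivity) (by nlinarith)
    have c2 : Real.log (1 + (K : ℝ)) ≤ ℓ := Real.log_le_log (by positivity) (by nlinarith)
    push_cast
    nlinarith
  have hℓ0 : 0 ≤ ℓ := Real.log_nonneg (by nlinarith)
  have b4 : (K : ℝ) * Real.log (arch_A K) ≤ 4 * K * ℓ + 6 * Real.log 2 * K ^ 2
      - 3 * K * Real.log (2 * K).factorial := by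
    have := mul_le_mul_of_nonneg_left b2 hK0.le
    nlinarith
  have b5 : (K + 5) * ℓ + 4 * K * ℓ + 5 * ((K + 5) * (3 * ℓ)) ≤ η / 2 * (K : ℝ) ^ 2 := by
    have h7 : (K : ℝ) * ℓ ≤ η / 240 * K * K := by nlinarith
    have h8 : ℓ ≤ K * ℓ := by nlinarith
    nlinarith
  have h9 : (∑ i ∈ range (K + 5), lB (2 * i) ((K : ℝ) / 8) + ∑ j ∈ range K, lB j ((K : ℝ) / 4))
      ≤ 3 / 2 * K * Real.log K.factorial + (3 / 8 - 3 / 2 * Real.log 2 + η / 2) * (K : ℝ) ^ 2 := by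
    linarith
  nlinarith

end Pool.Agent.H27.EV
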