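import Pool.Agent.H27.EV.Root

/-!
# EV Cas: the Casorati determinant

Write `R = Q (-x)`, `g₁ = g (x + 1)`, `g₂ = g (x + 2)` etc.  In the ring of power series at a node `a` with `x = a + y`
(`tl ℚ a X = X + C a`) the recursion `jet_rec` (`Api`) reads `(2 x + 1) jet (a + 1) = 2 x jet a`, and for
`jetm a (y) = jet (-a) (-y)` (`jetm_rec`) `(2 x + 1) jetm a = 2 (x + 1) jetm (a + 1)`.

(A) `g ≠ 0`.  The relations at `a`, `a + 1`, `a + 2` (`-K ≤ a ≤ K - 2`) multiplied by `1`, `(x+1/2)(x+1)`,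
`(x+1/2)(x+3/2)(x+1)(x+2)` become, modulo `y ^ 3`,
`g + Q f + R f' = 0`,
`(x+1/2)(x+1) g₁ + x(x+1) Q₁ f + (x+1/2)^2 R₁ f' = 0`,
`(x+1/2)(x+3/2)(x+1)(x+2) g₂ + x(x+1)^2(x+2) Q₂ f + ((x+1/2)(x+3/2))^2 R₂ f' = 0`  with `f = jet a`, `f' = jetm a`.
So the determinant `Δ` of the 3x3 matrix of coefficients is `0` modulo `y ^ 3` (multiply by the adjugate: the first
coordinate of the kernel vector `(1, f, f')` is `1`), i.e. `(x - a) ^ 3 ∣ Δ` for the `2 K - 1` values of `a`; the degree of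
`Δ` is at most `6 + (4 K - 8) + 2 (K - 1) = 6 K - 4 < 3 (2 K - 1)`, so `Δ = 0`.
With `P = x Q₁ g - (x+1/2) Q g₁` and `S = (x+1/2) R₁ g - (x+1) R g₁`, and `P₁ = (x+1) Q₂ g₁ - (x+3/2) Q₁ g₂`,
`S₁ = (x+3/2) R₂ g₁ - (x+2) R₁ g₂` their shifts, Sylvester's identity (pivot the entry `(x+1/2)(x+1) g₁`) reads
`(x+1/2)(x+1) g₁ Δ = (x+1)^2 (x+1/2)^2 [ P S₁ (x+1/2)(x+3/2) - S P₁ x (x+2) ] `
(to be checked with `ring`), so `P S₁ (x+1/2)(x+3/2) = S P₁ x (x+2)`.  If `P, S ≠ 0`, count integer roots (`nZ` of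
`Root.lean`, invariant under the shift): `nZ P + nZ S = nZ S + nZ P + 2`, impossible.  If `P = 0`:
`x Q₁ g = (x+1/2) Q g₁`, `1 + nZ Q + nZ g = nZ Q + nZ g`, impossible (`Q, g ≠ 0`).  If `S = 0`: `(x+1/2) R₁ g = (x+1) R g₁`,
`nZ R + nZ g = 1 + nZ R + nZ g`, impossible (`R ≠ 0`).
(B) `g = 0`.  The relations at `a`, `a + 1` (`-K ≤ a ≤ K - 1`) give that `(x+1/2)^2 Q R₁ - x(x+1) R Q₁` times `f` and times
`f'` is `0` modulo `y ^ 3`; `f` (`a ≤ 0`) or `f'` (`a ≥ 0`) is a unit, so this polynomial, of degree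
`≤ 2 + 2 (K - 1) = 2 K < 3 * 2 K`, vanishes; count integer roots: `nZ Q + nZ R = 2 + nZ R + nZ Q`, impossible.
-/

set_option autoImplicit false

noncomputable section

namespace Pool.Agent.H27.EV

open Polynomial Finset

/-- the reflected jets: `jetm a (y) = jet (-a) (-y)` -/
def jetm (a : ℤ) : PowerSeries ℚ := PowerSeries.rescale (-1 : ℚ) (jet ℚ (-a))

/-- the linear polynomial `x + n + 1 / 2` -/
def cas_u (n : ℤ) : ℚ[X] := X + C ((n : ℚ) + 1 / 2)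

/-- the linear polynomial `x + n` -/
def cas_w (n : ℤ) : ℚ[X] := X + C (n : ℚ)

theorem cas_tl_u (a n : ℤ) : tl ℚ a (cas_u n) = PowerSeries.X + PowerSeries.C ((a : ℚ) + n + 1 / 2) := by
  unfold cas_u
  rw [tl_add, tl_X, tl_C, add_assoc, ← map_add]
  congr 2
  ring

theorem cas_tl_w (a n : ℤ) : tl ℚ a (cas_w n) = PowerSeries.X + PowerSeries.C ((a : ℚ) + n) := by
  unfold cas_w
  rw [tl_add, tl_X, tl_C, add_assoc, ← map_add]

theorem cas_tl_sub (a : ℤ) (g h : ℚ[X]) : tl ℚ a (g - h) = tl ℚ a g - tl ℚ a h := by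
  unfold tl; rw [map_sub, Polynomial.coe_sub]

theorem cas_tl_pow (a : ℤ) (g : ℚ[X]) (n : ℕ) : tl ℚ a (g ^ n) = tl ℚ a g ^ n := by
  induction n with
  | zero => rw [pow_zero, pow_zero, tl_one]
  | succ n ih => rw [pow_succ, pow_succ, tl_mul, ih]

theorem cas_tl_shift (a : ℤ) (p : ℚ[X]) : tl ℚ (a + 1) p = tl ℚ a (p.comp (X + 1)) := by
  unfold tl
  rw [taylor_apply, taylor_apply, comp_assoc]
  congr 2
  simp only [add_comp, X_comp, one_comp]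
  push_cast
  rw [map_add, map_one]
  ring

theorem cas_u_comp (n : ℤ) : (cas_u n).comp (X + 1) = cas_u (n + 1) := by
  unfold cas_u
  rw [add_comp, X_comp, C_comp]
  push_cast
  rw [show ((n : ℚ) + 1 + 1 / 2) = 1 + ((n : ℚ) + 1 / 2) by ring, map_add (C : ℚ →+* ℚ[X]) 1, map_one]
  ring

theorem cas_w_comp (n : ℤ) : (cas_w n).comp (X + 1) = cas_w (n + 1) := by
  unfold cas_w
  rw [add_comp, X_comp, C_comp]
  push_cast
  rw [map_add, map_one]
  ring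

theorem cas_hf (a : ℤ) : hf ℚ a = PowerSeries.C 2 * tl ℚ a (cas_u 0) := by
  rw [cas_tl_u]
  unfold hf
  rw [mul_add, ← map_mul]
  congr 2
  push_cast
  ring

theorem cas_wf (a : ℤ) : wf ℚ a = PowerSeries.C 2 * tl ℚ a (cas_w 0) := by
  rw [cas_tl_w]
  unfold wf
  rw [mul_add, ← map_mul]
  congr 2
  push_cast
  ring

theorem cas_two : (PowerSeries.C (2 : ℚ)) ≠ 0 := by
  intro h
  have := congrArg (PowerSeries.constantCoeff (R := ℚ)) h
  simp at this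

theorem cas_jet (a : ℤ) : tl ℚ a (cas_u 0) * jet ℚ (a + 1) = tl ℚ a (cas_w 0) * jet ℚ a := by
  have h := jet_rec (F := ℚ) a (fun _ => by
      have : (2 * a + 1 : ℤ) ≠ 0 := by omega
      exact_mod_cast this) (fun h => by
      have : (2 * a : ℤ) ≠ 0 := by omega
      exact_mod_cast this)
  rw [cas_hf, cas_wf, mul_assoc, mul_assoc] at h
  exact mul_left_cancel₀ cas_two h

theorem cas_rescale (a : ℤ) (c : ℚ) : PowerSeries.rescale (-1 : ℚ) (PowerSeries.X + PowerSeries.C c)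
    = -(PowerSeries.X + PowerSeries.C (-c)) := by
  ext n
  rw [PowerSeries.coeff_rescale, map_neg, map_add, map_add, PowerSeries.coeff_X, PowerSeries.coeff_C,
    PowerSeries.coeff_C]
  rcases n with _ | _ | n
  · simp
  · simp
  · simp

theorem cas_jetm (a : ℤ) : tl ℚ a (cas_u 0) * jetm a = tl ℚ a (cas_w 1) * jetm (a + 1) := by
  have h := cas_jet (-(a + 1))
  rw [show -(a + 1) + 1 = -a by ring] at h
  have h2 := congrArg (PowerSeries.rescale (-1 : ℚ)) h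
  rw [map_mul, map_mul, cas_tl_u, cas_tl_w, cas_rescale a, cas_rescale a] at h2
  unfold jetm
  rw [cas_tl_u, cas_tl_w]
  have e1 : -(((-(a + 1) : ℤ) : ℚ) + ((0 : ℤ) : ℚ) + 1 / 2) = (a : ℚ) + ((0 : ℤ) : ℚ) + 1 / 2 := by
    push_cast; ring
  have e2 : -(((-(a + 1) : ℤ) : ℚ) + ((0 : ℤ) : ℚ)) = (a : ℚ) + ((1 : ℤ) : ℚ) := by
    push_cast; ring
  rw [e1, e2, neg_mul, neg_mul] at h2
  exact neg_injective h2

/-- `(x - a) ^ 3` divides a polynomial whose expansion at `a` starts with `y ^ 3` -/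
theorem cas_dvd (a : ℤ) (p : ℚ[X]) (h : (PowerSeries.X : PowerSeries ℚ) ^ 3 ∣ tl ℚ a p) :
    (X - C (a : ℚ)) ^ 3 ∣ p := by
  rw [X_sub_C_pow_dvd_iff, X_pow_dvd_iff]
  intro d hd
  have h2 := (PowerSeries.X_pow_dvd_iff.1 h) d hd
  unfold tl at h2
  rw [Polynomial.coeff_coe, taylor_apply] at h2
  exact h2

theorem cas_zero (p : ℚ[X]) (s : Finset ℤ) (h : ∀ a ∈ s, (X - C (a : ℚ)) ^ 3 ∣ p)
    (hd : p.natDegree < 3 * s.card) : p = 0 := by
  have h1 : (∏ a ∈ s, (X - C (a : ℚ)) ^ 3) ∣ p := by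
    refine Finset.prod_dvd_of_coprime ?_ h
    intro _ _ _ _ hab
    refine IsCoprime.pow ?_
    refine isCoprime_X_sub_C_of_isUnit_sub ?_
    refine isUnit_iff_ne_zero.2 (sub_ne_zero.2 ?_)
    exact_mod_cast hab
  refine eq_zero_of_dvd_of_natDegree_lt h1 ?_
  rw [natDegree_prod_of_monic _ _ fun a _ => (monic_X_sub_C _).pow 3]
  refine lt_of_lt_of_eq hd ?_
  rw [sum_congr rfl fun a _ => show ((X - C (a : ℚ)) ^ 3).natDegree = 3 by
    rw [natDegree_pow, natDegree_X_sub_C], sum_const, smul_eq_mul, mul_comm]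

/-- the Casorati determinant -/
def cas_D {A : Type} [CommRing A] (g0 g1 g2 q0 q1 q2 r0 r1 r2 u v w0 w1 w2 : A) : A :=
  g0 * q1 * r2 * (w0 * w1 * u * u * v * v) - g0 * q2 * r1 * (u * u * w0 * w1 * w1 * w2)
  - q0 * g1 * r2 * (u * u * u * v * v * w1) + q0 * g2 * r1 * (u * u * u * v * w1 * w2)
  + r0 * g1 * q2 * (u * w0 * w1 * w1 * w1 * w2) - r0 * g2 * q1 * (u * v * w0 * w1 * w1 * w2)

theorem cas_key {A : Type} [CommRing A] (z g0 g1 g2 q0 q1 q2 r0 r1 r2 u v w0 w1 w2 f0 f1 f2 m0 m1 m2 : A)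
    (h1 : u * f1 = w0 * f0) (h2 : u * m0 = w1 * m1) (h3 : v * f2 = w1 * f1) (h4 : v * m1 = w2 * m2)
    (e0 : z ∣ g0 + q0 * f0 + r0 * m0) (e1 : z ∣ g1 + q1 * f1 + r1 * m1)
    (e2 : z ∣ g2 + q2 * f2 + r2 * m2) : z ∣ cas_D g0 g1 g2 q0 q1 q2 r0 r1 r2 u v w0 w1 w2 := by
  have k1 : z ∣ u * w1 * g1 + w1 * w0 * q1 * f0 + u * u * r1 * m0 := by
    have : u * w1 * g1 + w1 * w0 * q1 * f0 + u * u * r1 * m0 = u * w1 * (g1 + q1 * f1 + r1 * m1) := by
      linear_combination (-(w1 * q1)) * h1 + (u * r1) * h2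
    rw [this]; exact e1.mul_left _
  have k2 : z ∣ u * v * w1 * w2 * g2 + w0 * w1 * w1 * w2 * q2 * f0 + u * u * v * v * r2 * m0 := by
    have : u * v * w1 * w2 * g2 + w0 * w1 * w1 * w2 * q2 * f0 + u * u * v * v * r2 * m0
        = u * v * w1 * w2 * (g2 + q2 * f2 + r2 * m2) := by
      linear_combination (-(w1 * w1 * w2 * q2)) * h1 + (u * v * v * r2) * h2 - (u * w1 * w2 * q2) * h3
        + (u * v * w1 * r2) * h4
    rw [this]; exact e2.mul_left _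
  have : cas_D g0 g1 g2 q0 q1 q2 r0 r1 r2 u v w0 w1 w2
      = (w1 * w0 * q1 * (u * u * v * v * r2) - u * u * r1 * (w0 * w1 * w1 * w2 * q2)) * (g0 + q0 * f0 + r0 * m0)
      - (q0 * (u * u * v * v * r2) - r0 * (w0 * w1 * w1 * w2 * q2)) *
        (u * w1 * g1 + w1 * w0 * q1 * f0 + u * u * r1 * m0)
      + (q0 * (u * u * r1) - r0 * (w1 * w0 * q1)) *
        (u * v * w1 * w2 * g2 + w0 * w1 * w1 * w2 * q2 * f0 + u * u * v * v * r2 * m0) := by
    unfold cas_D; ring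
  rw [this]
  exact ((e0.mul_left _).sub (k1.mul_left _)).add (k2.mul_left _)

theorem cas_sylv {A : Type} [CommRing A] (g0 g1 g2 q0 q1 q2 r0 r1 r2 u v w0 w1 w2 : A) :
    u * w1 * g1 * cas_D g0 g1 g2 q0 q1 q2 r0 r1 r2 u v w0 w1 w2
      = u ^ 2 * w1 ^ 2 * (u * v * (w0 * q1 * g0 - u * q0 * g1) * (v * r2 * g1 - w2 * r1 * g2)
        - w0 * w2 * (u * r1 * g0 - w1 * r0 * g1) * (w1 * q2 * g1 - v * q1 * g2)) := by
  unfold cas_D; ring

theorem cas_deg_u (n : ℤ) : (cas_u n).natDegree ≤ 1 := by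
  unfold cas_u; rw [natDegree_X_add_C]

theorem cas_deg_w (n : ℤ) : (cas_w n).natDegree ≤ 1 := by
  unfold cas_w; rw [natDegree_X_add_C]

theorem cas_u_ne (n : ℤ) : cas_u n ≠ 0 := X_add_C_ne_zero _

theorem cas_w_ne (n : ℤ) : cas_w n ≠ 0 := X_add_C_ne_zero _

theorem cas_nZ_u (n : ℤ) : nZ (cas_u n) = 0 := nZ_half n

theorem cas_nZ_w (n : ℤ) : nZ (cas_w n) = 1 := nZ_int n

theorem cas_mul_le {p q : ℚ[X]} {a b c : ℕ} (hp : p.natDegree ≤ a) (hq : q.natDegree ≤ b) (h : a + b = c) :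
    (p * q).natDegree ≤ c := h ▸ natDegree_mul_le_of_le hp hq

theorem cas_sub_le {p q : ℚ[X]} {c : ℕ} (hp : p.natDegree ≤ c) (hq : q.natDegree ≤ c) :
    (p - q).natDegree ≤ c := (natDegree_sub_le_of_le hp hq).trans_eq (max_self _)

theorem cas_add_le {p q : ℚ[X]} {c : ℕ} (hp : p.natDegree ≤ c) (hq : q.natDegree ≤ c) :
    (p + q).natDegree ≤ c := (natDegree_add_le_of_le hp hq).trans_eq (max_self _)

theorem cas_comp_deg (p : ℚ[X]) : (p.comp (X + 1)).natDegree ≤ p.natDegree := by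
  have := natDegree_comp_le (p := p) (q := (X + 1 : ℚ[X]))
  rwa [show (X + 1 : ℚ[X]).natDegree = 1 by
    rw [← C_1, natDegree_X_add_C], mul_one] at this

theorem cas_comp_ne {p : ℚ[X]} (h : p ≠ 0) : p.comp (X + 1) ≠ 0 := by
  intro h0
  apply h
  have h1 : (p.comp (X + 1)).comp (X - 1) = p := by
    rw [comp_assoc]
    simp
  rw [← h1, h0, zero_comp]

theorem cas_D_deg (d k : ℕ) (g0 g1 g2 q0 q1 q2 r0 r1 r2 u v w0 w1 w2 : ℚ[X])
    (hg0 : g0.natDegree ≤ d) (hg1 : g1.natDegree ≤ d) (hg2 : g2.natDegree ≤ d)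
    (hq0 : q0.natDegree ≤ k) (hq1 : q1.natDegree ≤ k) (hq2 : q2.natDegree ≤ k)
    (hr0 : r0.natDegree ≤ k) (hr1 : r1.natDegree ≤ k) (hr2 : r2.natDegree ≤ k)
    (hu : u.natDegree ≤ 1) (hv : v.natDegree ≤ 1) (hw0 : w0.natDegree ≤ 1) (hw1 : w1.natDegree ≤ 1)
    (hw2 : w2.natDegree ≤ 1) :
    (cas_D g0 g1 g2 q0 q1 q2 r0 r1 r2 u v w0 w1 w2).natDegree ≤ d + 2 * k + 6 := by
  have six : ∀ {a b c e f g : ℚ[X]}, a.natDegree ≤ 1 → b.natDegree ≤ 1 → c.natDegree ≤ 1 → e.natDegree ≤ 1 →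
      f.natDegree ≤ 1 → g.natDegree ≤ 1 → (a * b * c * e * f * g).natDegree ≤ 6 := by
    intro a b c e f g ha hb hc he hf hg
    exact cas_mul_le (cas_mul_le (cas_mul_le (cas_mul_le (cas_mul_le ha hb rfl) hc rfl) he rfl) hf rfl) hg rfl
  have A : ∀ {a b c s : ℚ[X]}, a.natDegree ≤ d → b.natDegree ≤ k → c.natDegree ≤ k → s.natDegree ≤ 6 →
      (a * b * c * s).natDegree ≤ d + 2 * k + 6 := by
    intro a b c s ha hb hc hs
    exact cas_mul_le (cas_mul_le (cas_mul_le ha hb rfl) hc rfl) hs (by ring)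
  have B : ∀ {a b c s : ℚ[X]}, a.natDegree ≤ k → b.natDegree ≤ d → c.natDegree ≤ k → s.natDegree ≤ 6 →
      (a * b * c * s).natDegree ≤ d + 2 * k + 6 := by
    intro a b c s ha hb hc hs
    exact cas_mul_le (cas_mul_le (cas_mul_le ha hb rfl) hc rfl) hs (by ring)
  unfold cas_D
  refine cas_sub_le (cas_add_le (cas_add_le (cas_sub_le
    (cas_sub_le ?_ ?_) ?_) ?_) ?_) ?_
  · exact A hg0 hq1 hr2 (six hw0 hw1 hu hu hv hv)
  · exact A hg0 hq2 hr1 (six hu hu hw0 hw1 hw1 hw2)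
  · exact B hq0 hg1 hr2 (six hu hu hu hv hv hw1)
  · exact B hq0 hg2 hr1 (six hu hu hu hv hw1 hw2)
  · exact B hr0 hg1 hq2 (six hu hw0 hw1 hw1 hw1 hw2)
  · exact B hr0 hg2 hq1 (six hu hv hw0 hw1 hw1 hw2)

theorem cas_nZ_ww {g0 q0 g1 q1 : ℚ[X]} (hg0 : g0 ≠ 0) (hq0 : q0 ≠ 0) (hg1 : g1 ≠ 0) (hq1 : q1 ≠ 0)
    (hg : nZ g1 = nZ g0) (hq : nZ q1 = nZ q0) (n m : ℤ) (h : cas_w n * q1 * g0 = cas_u m * q0 * g1) : False := by
  have h2 := congrArg nZ h
  rw [nZ_mul (mul_ne_zero (cas_w_ne n) hq1) hg0, nZ_mul (cas_w_ne n) hq1,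
    nZ_mul (mul_ne_zero (cas_u_ne m) hq0) hg1, nZ_mul (cas_u_ne m) hq0, cas_nZ_u, cas_nZ_w, hg, hq] at h2
  omega

theorem cas_nZ_uw {g0 q0 g1 q1 : ℚ[X]} (hg0 : g0 ≠ 0) (hq0 : q0 ≠ 0) (hg1 : g1 ≠ 0) (hq1 : q1 ≠ 0)
    (hg : nZ g1 = nZ g0) (hq : nZ q1 = nZ q0) (n m : ℤ) (h : cas_u m * q1 * g0 = cas_w n * q0 * g1) : False := by
  have h2 := congrArg nZ h
  rw [nZ_mul (mul_ne_zero (cas_u_ne m) hq1) hg0, nZ_mul (cas_u_ne m) hq1,
    nZ_mul (mul_ne_zero (cas_w_ne n) hq0) hg1, nZ_mul (cas_w_ne n) hq0, cas_nZ_u, cas_nZ_w, hg, hq] at h2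
  omega

/-- the shifted polynomials -/
theorem cas_alg (g Q R : ℚ[X]) (hg : g ≠ 0) (hQ : Q ≠ 0) (hR : R ≠ 0)
    (h : cas_D g (g.comp (X + 1)) ((g.comp (X + 1)).comp (X + 1)) Q (Q.comp (X + 1)) ((Q.comp (X + 1)).comp (X + 1))
      R (R.comp (X + 1)) ((R.comp (X + 1)).comp (X + 1)) (cas_u 0) (cas_u 1) (cas_w 0) (cas_w 1) (cas_w 2) = 0) :
    False := by
  have hg1 := cas_comp_ne hg
  have hQ1 := cas_comp_ne hQ
  have hR1 := cas_comp_ne hR
  have h2 := cas_sylv g (g.comp (X + 1)) ((g.comp (X + 1)).comp (X + 1)) Q (Q.comp (X + 1))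
    ((Q.comp (X + 1)).comp (X + 1)) R (R.comp (X + 1)) ((R.comp (X + 1)).comp (X + 1)) (cas_u 0) (cas_u 1) (cas_w 0)
    (cas_w 1) (cas_w 2)
  rw [h, mul_zero] at h2
  have h3 := (mul_eq_zero.1 h2.symm).resolve_left
    (mul_ne_zero (pow_ne_zero 2 (cas_u_ne 0)) (pow_ne_zero 2 (cas_w_ne 1)))
  set P : ℚ[X] := cas_w 0 * Q.comp (X + 1) * g - cas_u 0 * Q * g.comp (X + 1) with hP
  set S : ℚ[X] := cas_u 0 * R.comp (X + 1) * g - cas_w 1 * R * g.comp (X + 1) with hS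
  have hP1 : P.comp (X + 1) = cas_w 1 * (Q.comp (X + 1)).comp (X + 1) * g.comp (X + 1)
      - cas_u 1 * Q.comp (X + 1) * (g.comp (X + 1)).comp (X + 1) := by
    rw [hP, sub_comp, mul_comp, mul_comp, mul_comp, mul_comp, cas_u_comp, cas_w_comp]
    norm_num
  have hS1 : S.comp (X + 1) = cas_u 1 * (R.comp (X + 1)).comp (X + 1) * g.comp (X + 1)
      - cas_w 2 * R.comp (X + 1) * (g.comp (X + 1)).comp (X + 1) := by
    rw [hS, sub_comp, mul_comp, mul_comp, mul_comp, mul_comp, cas_u_comp, cas_w_comp]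
    norm_num
  rw [← hP1, ← hS1] at h3
  by_cases p0 : P = 0
  · exact cas_nZ_ww hg hQ hg1 hQ1 (nZ_shift g) (nZ_shift Q) 0 0 (sub_eq_zero.1 (hP ▸ p0))
  by_cases s0 : S = 0
  · exact cas_nZ_uw hg hR hg1 hR1 (nZ_shift g) (nZ_shift R) 1 0 (sub_eq_zero.1 (hS ▸ s0))
  have p1 := cas_comp_ne p0
  have s1 := cas_comp_ne s0
  have h4 := congrArg nZ (sub_eq_zero.1 h3)
  rw [nZ_mul (mul_ne_zero (mul_ne_zero (cas_u_ne 0) (cas_u_ne 1)) p0) s1,
    nZ_mul (mul_ne_zero (cas_u_ne 0) (cas_u_ne 1)) p0, nZ_mul (cas_u_ne 0) (cas_u_ne 1),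
    nZ_mul (mul_ne_zero (mul_ne_zero (cas_w_ne 0) (cas_w_ne 2)) s0) p1,
    nZ_mul (mul_ne_zero (cas_w_ne 0) (cas_w_ne 2)) s0, nZ_mul (cas_w_ne 0) (cas_w_ne 2), nZ_shift, nZ_shift,
    cas_nZ_u, cas_nZ_u, cas_nZ_w, cas_nZ_w] at h4
  omega

theorem cas_alg0 (Q R : ℚ[X]) (hQ : Q ≠ 0) (hR : R ≠ 0)
    (h : cas_u 0 * cas_u 0 * Q * R.comp (X + 1) = cas_w 0 * cas_w 1 * R * Q.comp (X + 1)) : False := by
  have hQ1 := cas_comp_ne hQ
  have hR1 := cas_comp_ne hR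
  have h4 := congrArg nZ h
  rw [nZ_mul (mul_ne_zero (mul_ne_zero (cas_u_ne 0) (cas_u_ne 0)) hQ) hR1,
    nZ_mul (mul_ne_zero (cas_u_ne 0) (cas_u_ne 0)) hQ, nZ_mul (cas_u_ne 0) (cas_u_ne 0),
    nZ_mul (mul_ne_zero (mul_ne_zero (cas_w_ne 0) (cas_w_ne 1)) hR) hQ1,
    nZ_mul (mul_ne_zero (cas_w_ne 0) (cas_w_ne 1)) hR, nZ_mul (cas_w_ne 0) (cas_w_ne 1), nZ_shift, nZ_shift,
    cas_nZ_u, cas_nZ_w, cas_nZ_w] at h4
  omega

theorem cas_const_mul {f g : PowerSeries ℚ} (hf : PowerSeries.constantCoeff f ≠ 0)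
    (hg : PowerSeries.constantCoeff g ≠ 0) : PowerSeries.constantCoeff (f * g) ≠ 0 := by
  rw [map_mul]; exact mul_ne_zero hf hg

/-- the jets at the nodes `a ≤ 0` are units -/
theorem cas_fneg (k : ℕ) : PowerSeries.constantCoeff (fneg ℚ k) ≠ 0 := by
  induction k with
  | zero =>
    change PowerSeries.constantCoeff (1 : PowerSeries ℚ) ≠ 0
    rw [map_one]; exact one_ne_zero
  | succ k ih =>
    change PowerSeries.constantCoeff (hf ℚ (-(k + 1 : ℤ)) * (wf ℚ (-(k + 1 : ℤ)))⁻¹ * fneg ℚ k) ≠ 0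
    refine cas_const_mul (cas_const_mul ?_ ?_) ih
    · rw [coeff_hf_zero]
      have : (2 * (-(k + 1 : ℤ)) + 1 : ℤ) ≠ 0 := by omega
      exact_mod_cast this
    · rw [PowerSeries.constantCoeff_inv, coeff_wf_zero]
      refine inv_ne_zero ?_
      have : (2 * (-(k + 1 : ℤ)) : ℤ) ≠ 0 := by omega
      exact_mod_cast this

theorem cas_jet_unit (a : ℤ) (ha : a ≤ 0) : PowerSeries.constantCoeff (jet ℚ a) ≠ 0 := by
  cases a with
  | ofNat i =>
    have : i = 0 := by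
      have : (Int.ofNat i : ℤ) = (i : ℤ) := rfl
      omega
    subst this
    change PowerSeries.constantCoeff (1 : PowerSeries ℚ) ≠ 0
    rw [map_one]; exact one_ne_zero
  | negSucc k => exact cas_fneg (k + 1)

theorem cas_jetm_unit (a : ℤ) (ha : 0 ≤ a) : PowerSeries.constantCoeff (jetm a) ≠ 0 := by
  unfold jetm
  rw [← PowerSeries.coeff_zero_eq_constantCoeff_apply, PowerSeries.coeff_rescale, pow_zero, one_mul,
    PowerSeries.coeff_zero_eq_constantCoeff_apply]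
  exact cas_jet_unit (-a) (by omega)

theorem cas_unit_dvd {z f g : PowerSeries ℚ} (hf : PowerSeries.constantCoeff f ≠ 0) (h : z ∣ g * f) : z ∣ g := by
  have : g = g * f * f⁻¹ := by
    rw [mul_assoc, PowerSeries.mul_inv_cancel _ hf, mul_one]
  rw [this]
  exact h.mul_right _

theorem cas_key0 {A : Type} [CommRing A] (z q0 q1 r0 r1 u w0 w1 f0 f1 m0 m1 : A)
    (h1 : u * f1 = w0 * f0) (h2 : u * m0 = w1 * m1)
    (e0 : z ∣ q0 * f0 + r0 * m0) (e1 : z ∣ q1 * f1 + r1 * m1) :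
    z ∣ (u * u * q0 * r1 - w0 * w1 * r0 * q1) * f0 ∧ z ∣ (u * u * q0 * r1 - w0 * w1 * r0 * q1) * m0 := by
  have k1 : z ∣ w1 * w0 * q1 * f0 + u * u * r1 * m0 := by
    have : w1 * w0 * q1 * f0 + u * u * r1 * m0 = u * w1 * (q1 * f1 + r1 * m1) := by
      linear_combination (-(w1 * q1)) * h1 + (u * r1) * h2
    rw [this]; exact e1.mul_left _
  constructor
  · have : (u * u * q0 * r1 - w0 * w1 * r0 * q1) * f0
        = u * u * r1 * (q0 * f0 + r0 * m0) - r0 * (w1 * w0 * q1 * f0 + u * u * r1 * m0) := by ring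
    rw [this]
    exact (e0.mul_left _).sub (k1.mul_left _)
  · have : (u * u * q0 * r1 - w0 * w1 * r0 * q1) * m0
        = q0 * (w1 * w0 * q1 * f0 + u * u * r1 * m0) - w0 * w1 * q1 * (q0 * f0 + r0 * m0) := by ring
    rw [this]
    exact (k1.mul_left _).sub (e0.mul_left _)

theorem cas (K : ℕ) (hK : 3 ≤ K) (g Q : ℚ[X]) (hQ : Q ≠ 0) (hQd : Q.natDegree < K)
    (hg : ∀ n, 4 * K - 7 ≤ n → g.coeff n = 0)
    (h : ∀ a ∈ nd K, ∀ n ≤ 2, PowerSeries.coeff n (tl ℚ a g + tl ℚ a Q * jet ℚ a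
      + tl ℚ a (Q.comp (-X)) * jetm a) = 0) : False := by
  have e : ∀ a ∈ nd K, (PowerSeries.X : PowerSeries ℚ) ^ 3 ∣ tl ℚ a g + tl ℚ a Q * jet ℚ a
      + tl ℚ a (Q.comp (-X)) * jetm a := by
    intro a ha
    rw [PowerSeries.X_pow_dvd_iff]
    intro m hm
    exact h a ha m (by omega)
  have hR : Q.comp (-X) ≠ 0 := by
    intro h0
    apply hQ
    have h1 : (Q.comp (-X)).comp (-X) = Q := by
      rw [comp_assoc]; simp
    rw [← h1, h0, zero_comp]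
  have hRd : (Q.comp (-X)).natDegree ≤ K - 1 := by
    have := natDegree_comp_le (p := Q) (q := (-X : ℚ[X]))
    rw [natDegree_neg, natDegree_X, mul_one] at this
    omega
  set R : ℚ[X] := Q.comp (-X) with hRdef
  have hgd : g.natDegree ≤ 4 * K - 8 := by
    rw [natDegree_le_iff_coeff_eq_zero]
    intro n hn
    exact hg n (by omega)
  have hQd' : Q.natDegree ≤ K - 1 := by omega
  by_cases g0 : g = 0
  · -- the case `g = 0`
    refine cas_alg0 Q R hQ hR (sub_eq_zero.1 ?_)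
    refine cas_zero _ (Finset.Icc (-(K : ℤ)) (K - 1)) ?_ ?_
    · intro a ha
      rw [Finset.mem_Icc] at ha
      refine cas_dvd a _ ?_
      have m0 : a ∈ nd K := Finset.mem_Icc.2 ⟨ha.1, by omega⟩
      have m1 : a + 1 ∈ nd K := Finset.mem_Icc.2 ⟨by omega, by omega⟩
      have e0 := e a m0
      have e1 := e (a + 1) m1
      rw [g0] at e0 e1
      have tz : ∀ b : ℤ, tl ℚ b (0 : ℚ[X]) = 0 := by
        intro b; unfold tl; rw [map_zero, Polynomial.coe_zero]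
      rw [tz, zero_add] at e0 e1
      rw [cas_tl_shift, cas_tl_shift] at e1
      have k := cas_key0 _ _ _ _ _ _ _ _ _ _ _ _ (cas_jet a) (cas_jetm a) e0 e1
      have t : tl ℚ a (cas_u 0 * cas_u 0 * Q * R.comp (X + 1) - cas_w 0 * cas_w 1 * R * Q.comp (X + 1))
          = tl ℚ a (cas_u 0) * tl ℚ a (cas_u 0) * tl ℚ a Q * tl ℚ a (R.comp (X + 1))
            - tl ℚ a (cas_w 0) * tl ℚ a (cas_w 1) * tl ℚ a R * tl ℚ a (Q.comp (X + 1)) := by
        simp only [cas_tl_sub, tl_mul]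
      rw [t]
      rcases le_total a 0 with h0 | h0
      · exact cas_unit_dvd (cas_jet_unit a h0) k.1
      · exact cas_unit_dvd (cas_jetm_unit a h0) k.2
    · rw [Int.card_Icc]
      refine lt_of_le_of_lt (b := 2 + (K - 1) + (K - 1)) ?_ (by omega)
      refine cas_sub_le ?_ ?_
      · exact cas_mul_le (cas_mul_le (cas_mul_le (cas_deg_u 0) (cas_deg_u 0) rfl) hQd' rfl)
          ((cas_comp_deg R).trans hRd) rfl
      · exact cas_mul_le (cas_mul_le (cas_mul_le (cas_deg_w 0) (cas_deg_w 1) rfl) hRd rfl)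
          ((cas_comp_deg Q).trans hQd') rfl
  · -- the case `g ≠ 0`
    refine cas_alg g Q R g0 hQ hR ?_
    refine cas_zero _ (Finset.Icc (-(K : ℤ)) (K - 2)) ?_ ?_
    · intro a ha
      rw [Finset.mem_Icc] at ha
      refine cas_dvd a _ ?_
      have m0 : a ∈ nd K := Finset.mem_Icc.2 ⟨ha.1, by omega⟩
      have m1 : a + 1 ∈ nd K := Finset.mem_Icc.2 ⟨by omega, by omega⟩
      have m2 : a + 1 + 1 ∈ nd K := Finset.mem_Icc.2 ⟨by omega, by omega⟩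
      have e0 := e a m0
      have e1 := e (a + 1) m1
      have e2 := e (a + 1 + 1) m2
      rw [cas_tl_shift, cas_tl_shift, cas_tl_shift] at e1
      rw [cas_tl_shift, cas_tl_shift, cas_tl_shift, cas_tl_shift, cas_tl_shift, cas_tl_shift] at e2
      have j1 := cas_jet (a + 1)
      have j2 := cas_jetm (a + 1)
      rw [cas_tl_shift, cas_tl_shift, cas_u_comp, cas_w_comp, zero_add] at j1
      rw [cas_tl_shift, cas_tl_shift, cas_u_comp, cas_w_comp, zero_add, show (1 + 1 : ℤ) = 2 by norm_num] at j2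
      have k := cas_key _ _ _ _ _ _ _ _ _ _ _ _ _ _ _ _ _ _ _ _ _ (cas_jet a) (cas_jetm a) j1 j2 e0 e1 e2
      convert k using 1
      unfold cas_D
      simp only [cas_tl_sub, tl_add, tl_mul]
    · rw [Int.card_Icc]
      refine lt_of_le_of_lt (cas_D_deg (4 * K - 8) (K - 1) _ _ _ _ _ _ _ _ _ _ _ _ _ _ hgd
        ((cas_comp_deg _).trans hgd) ((cas_comp_deg _).trans ((cas_comp_deg _).trans hgd))
        hQd' ((cas_comp_deg _).trans hQd') ((cas_comp_deg _).trans ((cas_comp_deg _).trans hQd'))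
        hRd ((cas_comp_deg _).trans hRd) ((cas_comp_deg _).trans ((cas_comp_deg _).trans hRd))
        (cas_deg_u 0) (cas_deg_u 1) (cas_deg_w 0) (cas_deg_w 1) (cas_deg_w 2)) (by omega)

end Pool.Agent.H27.EV
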