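import Pool.Agent.H27.EV.Defs

/-!
# EV Cnt: the residue classes of the nodes

`nu K l c` = number of `a ∈ [-K, K]` with `a ≡ c (mod l)`.  Write `2 K + 1 = q l + t`, `t < l`.
`nu_or`: it is `q` or `q + 1` (interval of `2 K + 1` consecutive integers).  `nu_sum`: the sum is `2 K + 1`; so `t` classes have
`q + 1` nodes.  `nu_neg`: symmetric.

`rows_mid` (`l` odd): the pairs `±c` are represented by `r < (l + 1) / 2`.  `2 ∑_r tri (2 nu r - 1 - x0)
= ∑_c tri (2 nu c - 1 - x0) + tri (2 nu 0 - 1 - x0)` (`r ↦ r` and `r ↦ -r` cover all classes, `0` twice), and with `x0 = q`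
the values are `tri (q + 1)` (`t` times) and `tri (q - 1)` (`l - t` times).

`cols_mid`: pair `c` and `-c`, `c ≠ 0`: one of them has `oo = 1`, the other `oo = 0`, and `tri (w) + tri (w - 1) ≤ w ^ 2` for
`w = nu c - y0` (natural subtraction); `oo 0 = 0`, `2 tri w = w ^ 2 + w`.  So `2 ∑_c tri (nu c - oo c - y0) ≤
∑_c (nu c - y0) ^ 2 + (nu 0 - y0)`, in integers, and `∑_c (nu c - y0) ^ 2 = t (q + 1 - y0) ^ 2 + (l - t) (q - y0) ^ 2`.

`hi`: for `K < l ≤ 2 K` (so `q = 1`, `t = 2 K + 1 - l` even): `nu c ∈ {1, 2}`, `nu 0 = 1`, `t` classes with `nu = 2`.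
-/

set_option autoImplicit false

namespace Pool.Agent.H27.EV

open Finset

variable {l : ℕ} [NeZero l]

theorem nu_or (K : ℕ) (c : ZMod l) : nu K l c = (2 * K + 1) / l ∨ nu K l c = (2 * K + 1) / l + 1 := by
  sorry

theorem nu_sum (K : ℕ) : ∑ c : ZMod l, nu K l c = 2 * K + 1 := by
  sorry

theorem nu_card (K : ℕ) : (univ.filter fun c : ZMod l => nu K l c = (2 * K + 1) / l + 1).card
    = (2 * K + 1) % l := by
  sorry

theorem nu_neg (K : ℕ) (c : ZMod l) : nu K l (-c) = nu K l c := by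
  sorry

theorem rows_mid (K : ℕ) (hl : Odd l) (hlK : l ≤ K) :
    2 * ∑ r : Fin ((l + 1) / 2), tri (2 * nu K l ((r : ℕ) : ZMod l) - 1 - (2 * K + 1) / l) ≤
      ((2 * K + 1) % l) * tri ((2 * K + 1) / l + 1) + (l - (2 * K + 1) % l) * tri ((2 * K + 1) / l - 1)
        + tri ((2 * K + 1) / l + 1) := by
  sorry

theorem cols_mid (K : ℕ) (hl : Odd l) (y0 : ℕ) :
    2 * ((∑ c : ZMod l, tri (nu K l c - oo l c - y0) : ℕ) : ℤ) ≤
      (((2 * K + 1) % l : ℕ) : ℤ) * ((((2 * K + 1) / l : ℕ) : ℤ) + 1 - y0) ^ 2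
        + ((l : ℤ) - ((2 * K + 1) % l : ℕ)) * ((((2 * K + 1) / l : ℕ) : ℤ) - y0) ^ 2
        + (((2 * K + 1) / l : ℕ) : ℤ) + 1 := by
  sorry

/-- rows for `K < l ≤ 2 K`, with `U r = 3` if `nu r = 2` and `0` otherwise -/
theorem rows_hi (K : ℕ) (hl : Odd l) (h1 : K < l) (h2 : l ≤ 2 * K) (x0 : ℕ) :
    2 * ∑ r : Fin ((l + 1) / 2), tri ((if nu K l ((r : ℕ) : ZMod l) = 2 then 3 else 0) - x0) =
      (2 * K + 1 - l) * tri (3 - x0) := by
  sorry

/-- columns for `K < l ≤ 2 K`, with `V c = 2 - oo c` if `nu c = 2` and `0` otherwise -/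
theorem cols_hi (K : ℕ) (hl : Odd l) (h1 : K < l) (h2 : l ≤ 2 * K) (y0 : ℕ) :
    2 * ∑ c : ZMod l, tri ((if nu K l c = 2 then 2 - oo l c else 0) - y0) =
      (2 * K + 1 - l) * (tri (2 - y0) + tri (1 - y0)) := by
  sorry

end Pool.Agent.H27.EV
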