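import Mathlib

/-!
# EV: definitions for the even-row determinant (helper27)

Aim: the Wieferich primes have weighted mass `< 3/4` (`MassProp 2` of `H73/QX/Asm`).

Nodes `a = -K, ..., K` (`nd K`), `W = ∏ (x - a) ^ 3`, jets `jet F a` (power series in `y`) with
`jet 0 = 1`, `(2 y + 2 a + 1) jet (a + 1) = 2 (y + a) jet a`, and the functional
`J F K h = ∑_a [y ^ 2] jet a * h (a + y) / W_a (y)`.

The determinant `D0 K E` has the rows `x ^ (2 i)`, `i < K + 5`, the columns `x ^ j`, `j < K`, entries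
`J (x ^ (2 i + j))`, and five unit columns (positions `E`).
-/

set_option autoImplicit false

noncomputable section

namespace Pool.Agent.H27.EV

open Polynomial

section Gen
variable (F : Type) [Field F]

/-- the linear factor `2 y + 2 a + 1` -/
def hf (a : ℤ) : PowerSeries F :=
  PowerSeries.C (2 : F) * PowerSeries.X + PowerSeries.C ((2 * a + 1 : ℤ) : F)

/-- the linear factor `2 (y + a)` -/
def wf (a : ℤ) : PowerSeries F :=
  PowerSeries.C (2 : F) * PowerSeries.X + PowerSeries.C ((2 * a : ℤ) : F)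

/-- jets at the nodes `0, 1, 2, ...` -/
def fpos : ℕ → PowerSeries F
  | 0 => 1
  | i + 1 => wf F i * (hf F i)⁻¹ * fpos i

/-- jets at the nodes `0, -1, -2, ...` -/
def fneg : ℕ → PowerSeries F
  | 0 => 1
  | k + 1 => hf F (-(k + 1 : ℤ)) * (wf F (-(k + 1 : ℤ)))⁻¹ * fneg k

/-- the universal jets -/
def jet : ℤ → PowerSeries F
  | Int.ofNat i => fpos F i
  | Int.negSucc k => fneg F (k + 1)

/-- the nodes -/
def nd (K : ℕ) : Finset ℤ := Finset.Icc (-(K : ℤ)) K

/-- `W_a (y) = ∏_{b ≠ a} (y + a - b) ^ 3` -/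
def Wa (K : ℕ) (a : ℤ) : PowerSeries F :=
  ∏ b ∈ (nd K).erase a, (PowerSeries.X + PowerSeries.C ((a - b : ℤ) : F)) ^ 3

/-- `h (a + y)` as a power series -/
def tl (a : ℤ) (h : F[X]) : PowerSeries F := ((taylor (a : F) h : F[X]) : PowerSeries F)

/-- the term of the node `a` -/
def Jt (K : ℕ) (a : ℤ) (h : F[X]) : F :=
  PowerSeries.coeff 2 (jet F a * tl F a h * (Wa F K a)⁻¹)

/-- the functional -/
def J (K : ℕ) (h : F[X]) : F := ∑ a ∈ nd K, Jt F K a h

end Gen

/-- even monic polynomial of degree `2 i` -/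
def IsEv (i : ℕ) (p : ℚ[X]) : Prop :=
  p.Monic ∧ p.natDegree = 2 * i ∧ ∀ n, ¬ Even n → p.coeff n = 0

/-- monic polynomial of degree `j` -/
def IsMon (j : ℕ) (q : ℚ[X]) : Prop := q.Monic ∧ q.natDegree = j

/-- the padded matrix; `E` are the positions of the unit columns -/
def Mat (K : ℕ) (E : Fin 5 → Fin (K + 5)) (P Q : ℕ → ℚ[X]) :
    Matrix (Fin (K + 5)) (Fin K ⊕ Fin 5) ℚ :=
  Matrix.of fun i => Sum.elim (fun j => J ℚ K (P i * Q j)) (fun s => (P i).coeff (2 * (E s : ℕ)))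

/-- the determinant of the padded matrix -/
def D (K : ℕ) (E : Fin 5 → Fin (K + 5)) (P Q : ℕ → ℚ[X]) : ℚ :=
  (Matrix.reindex (Equiv.refl _) finSumFinEquiv (Mat K E P Q)).det

/-- the determinant with the monomials -/
def D0 (K : ℕ) (E : Fin 5 → Fin (K + 5)) : ℚ :=
  D K E (fun i => X ^ (2 * i)) (fun j => X ^ j)

/-- `Fil l s e g`: the coefficient of `y ^ n` of `g` has `l`-adic valuation at least `e - s n`. -/
def Fil (l s : ℕ) (e : ℤ) (g : PowerSeries ℚ) : Prop :=
  ∀ n : ℕ, padicNorm l (PowerSeries.coeff n g) ≤ (l : ℚ) ^ ((s : ℤ) * n - e)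

/-- `Maj M c g`: the first three coefficients of `g` are at most `M, M c, M c ^ 2` in absolute value. -/
def Maj (M c : ℝ) (g : PowerSeries ℚ) : Prop :=
  ∀ n : ℕ, n ≤ 2 → |((PowerSeries.coeff n g : ℚ) : ℝ)| ≤ M * c ^ n

/-- triangular numbers -/
def tri (w : ℕ) : ℕ := w * (w + 1) / 2

/-- number of nodes in the residue class `c` modulo `l` -/
def nu (K l : ℕ) (c : ZMod l) : ℕ := ((nd K).filter fun a : ℤ => (a : ZMod l) = c).card

/-- `1` for the classes `(0, l / 2)`, `0` for the classes `(-l / 2, 0]` -/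
def oo (l : ℕ) (c : ZMod l) : ℕ := if 0 < c.valMinAbs then 1 else 0

end Pool.Agent.H27.EV
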