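import Pool.Agent.H27.EV.Hm

/-!
# EV Ent: the entries at the archimedean place

`Maj M c g`: `|g₀| ≤ M`, `|g₁| ≤ M c`, `|g₂| ≤ M c ^ 2`.  `Maj.mul`: `(M, c) * (M', c') = (M M', c + c')`.  Linear factors and their
inverses: `b y + d`: `(|d|, |b / d|)`, its inverse: `(1 / |d|, |b / d|)` (coefficients `(-b)^n / d^(n+1)`); `2 y`: `(2, 1)`.

`jet_maj`: `(2, 4 K)`: for `a = -k`: `∏ (2 b - 1) / (2 b) ≤ 1`, `c ≤ ∑_{b ≤ k} (2 / (2 b - 1) + 1 / b) ≤ 3 K`; for `a = i > 0`: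
`2 ∏_{b = 1}^{i-1} 2 b / ∏_{b < i} (2 b + 1) ≤ 2`, `c ≤ 1 + ∑ 1 / b + ∑ 2 / (2 b + 1) ≤ 4 K`.

`Wa_maj`: `(1 / ((K + a)! (K - a)!) ^ 3, 6 K)`.

`choose_gauss`: `binom (2 K, K + a) ≤ 4 ^ K exp (- a ^ 2 / K)`: `binom (2 K, K + a) e ^ (2 a λ) ≤ (e ^ λ + e ^ (-λ)) ^ (2 K)
= 4 ^ K cosh (λ) ^ (2 K) ≤ 4 ^ K e ^ (K λ ^ 2)` (`Real.cosh_le_exp_half_sq`), `λ = a / K`.  So
`1 / ((K + a)! (K - a)!) ^ 3 ≤ 64 ^ K exp (-3 a ^ 2 / K) / (2 K)! ^ 3`.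

`ent`: `P = Hm (K / 8) (2 i)`, `Q = Hm (K / 4) j`, `r₁ = sqrt ((2 i + 1) / (K / 8)) ≤ 12`, `r₂ = sqrt ((j + 1) / (K / 4)) ≤ 2`:
`exp (a ^ 2 / (4 σ₁) + a ^ 2 / (4 σ₂)) = exp (2 a ^ 2 / K + a ^ 2 / K)` cancels with the Gaussian; `σ r ^ 2 / 2 = (n + 1) / 2`.
`coeff 2` of the product is at most `M (4 K + 6 K + 14) ^ 2 ≤ M (24 K) ^ 2`; `2 K + 1` nodes.
-/

set_option autoImplicit false

noncomputable section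

namespace Pool.Agent.H27.EV

open Polynomial Finset

/-- `B n σ = n! r ^ (-n) exp (σ r ^ 2 / 2)` with `r ^ 2 = (n + 1) / σ` -/
def B (n : ℕ) (σ : ℝ) : ℝ :=
  n.factorial * Real.sqrt (σ / (n + 1)) ^ n * Real.exp ((n + 1) / 2)

theorem Maj.mul {M M' c c' : ℝ} {g h : PowerSeries ℚ} (hM : 0 ≤ M) (hM' : 0 ≤ M') (hc : 0 ≤ c)
    (hc' : 0 ≤ c') (hg : Maj M c g) (hh : Maj M' c' h) : Maj (M * M') (c + c') (g * h) := by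
  sorry

theorem jet_maj (K : ℕ) (hK : 1 ≤ K) (a : ℤ) (ha : a ∈ nd K) : Maj 2 (4 * K) (jet ℚ a) := by
  sorry

theorem Wa_maj (K : ℕ) (hK : 1 ≤ K) (a : ℤ) (ha : a ∈ nd K) :
    Maj (1 / (((K + a).toNat.factorial : ℝ) * (K - a).toNat.factorial) ^ 3) (6 * K) (Wa ℚ K a)⁻¹ := by
  sorry

theorem gauss (K : ℕ) (hK : 1 ≤ K) (a : ℤ) (ha : a ∈ nd K) :
    1 / (((K + a).toNat.factorial : ℝ) * (K - a).toNat.factorial) ^ 3 ≤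
      64 ^ K * Real.exp (-3 * (a : ℝ) ^ 2 / K) / ((2 * K).factorial : ℝ) ^ 3 := by
  sorry

theorem ent (K : ℕ) (hK : 1 ≤ K) (i j : ℕ) (hi : i < K + 5) (hj : j < K) :
    |((J ℚ K (Hm ((K : ℚ) / 8) (2 * i) * Hm ((K : ℚ) / 4) j) : ℚ) : ℝ)| ≤
      B (2 * i) ((K : ℝ) / 8) * (B j ((K : ℝ) / 4)
        * ((2 * K + 1) * 2 * (24 * K) ^ 2 * 64 ^ K / ((2 * K).factorial : ℝ) ^ 3)) := by
  sorry

end Pool.Agent.H27.EV
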