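import Pool.Agent.H27.EV.Api

/-!
# EV Ext: padding an injective matrix with unit columns

Pure linear algebra.  The `k` columns of `A` are linearly independent vectors of `ℚ ^ (k + d)`.  As long as the family
has fewer than `k + d` members, its span is not everything, so some standard basis vector is not in the span
(`Pi.basisFun`, `Submodule.eq_top_iff...`); add it (`linearIndependent_fin_snoc` / `LinearIndependent` for `Sum.elim`).
After `d` steps there are `k + d` independent columns, and the determinant is not zero
(`Matrix.linearIndependent_cols_iff_isUnit`, or `Matrix.isUnit_iff...`).  Induction on `d' ≤ d` with the statement: there is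
`E : Fin d' → Fin n` such that `Sum.elim (columns of A) (unit vectors E)` is linearly independent, where `k + d' ≤ n`.

`exists_E` is the case of the matrix `J (X ^ (2 i) * X ^ j)`; the hypothesis is the zero estimate (`Zer.J_inj`):
`A.mulVec c = (J (X ^ (2 i) * Q))_i` with `Q = ∑ c_j X ^ j ≠ 0`, `natDegree Q < K`.
-/

set_option autoImplicit false

noncomputable section

namespace Pool.Agent.H27.EV

open Polynomial Finset

theorem exists_unit_cols (k d : ℕ) (A : Matrix (Fin (k + d)) (Fin k) ℚ)
    (hA : Function.Injective A.mulVec) :
    ∃ E : Fin d → Fin (k + d),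
      (Matrix.reindex (Equiv.refl _) finSumFinEquiv
        (Matrix.of fun i : Fin (k + d) => Sum.elim (A i) (fun s : Fin d => if i = E s then 1 else 0) :
          Matrix (Fin (k + d)) (Fin k ⊕ Fin d) ℚ)).det ≠ 0 := by
  sorry

theorem exists_E (K : ℕ) (h : ∀ Q : ℚ[X], Q ≠ 0 → Q.natDegree < K →
      ∃ i < K + 5, J ℚ K (X ^ (2 * i) * Q) ≠ 0) : ∃ E : Fin 5 → Fin (K + 5), D0 K E ≠ 0 := by
  sorry

end Pool.Agent.H27.EV
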