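import Pool.Agent.H27.EV.Api

/-!
# EV Fil: the calculus of the filtrations `Fil l s e`

`Fil l s e g`: `|coeff n g|_l ≤ l ^ (s n - e)` for all `n`.  Multiplicative (ultrametric inequality for the convolution
`PowerSeries.coeff_mul`), `inv`: if `|g(0)|_l = l ^ (-e)` exactly then `Fil (-e) g⁻¹` (strong induction on `n` with
`PowerSeries.coeff_inv`).
-/

set_option autoImplicit false

noncomputable section

namespace Pool.Agent.H27.EV

open Polynomial Finset

variable {l s : ℕ} [Fact l.Prime]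

theorem Fil.mono {e e' : ℤ} {g : PowerSeries ℚ} (h : Fil l s e g) (he : e' ≤ e) : Fil l s e' g := by
  sorry

theorem Fil.add {e : ℤ} {g h : PowerSeries ℚ} (hg : Fil l s e g) (hh : Fil l s e h) :
    Fil l s e (g + h) := by
  sorry

theorem Fil.mul {e e' : ℤ} {g h : PowerSeries ℚ} (hg : Fil l s e g) (hh : Fil l s e' h) :
    Fil l s (e + e') (g * h) := by
  sorry

theorem Fil.one : Fil l s 0 1 := by
  sorry

theorem Fil.pow {e : ℤ} {g : PowerSeries ℚ} (hg : Fil l s e g) (n : ℕ) : Fil l s (n * e) (g ^ n) := by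
  sorry

theorem Fil.prod {ι : Type} (t : Finset ι) (e : ι → ℤ) (g : ι → PowerSeries ℚ)
    (h : ∀ i ∈ t, Fil l s (e i) (g i)) : Fil l s (∑ i ∈ t, e i) (∏ i ∈ t, g i) := by
  sorry

/-- a linear polynomial `b y + c` -/
theorem Fil.lin {e : ℤ} (b c : ℚ) (hc : padicNorm l c ≤ (l : ℚ) ^ (-e))
    (hb : padicNorm l b ≤ (l : ℚ) ^ ((s : ℤ) - e)) :
    Fil l s e (PowerSeries.C b * PowerSeries.X + PowerSeries.C c) := by
  sorry

/-- the inverse -/
theorem Fil.inv {e : ℤ} {g : PowerSeries ℚ} (hg : Fil l s e g)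
    (h0 : padicNorm l (PowerSeries.constantCoeff g) = (l : ℚ) ^ (-e)) : Fil l s (-e) g⁻¹ := by
  sorry

end Pool.Agent.H27.EV
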