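import Pool.Agent.H27.EV.Main
import Pool.Agent.H73.QX.Fin3

/-!
# EV Fin: at most one exceptional field

`MassProp 2` of `H73/QX/Asm` from `main_bound`.
-/

set_option autoImplicit false

noncomputable section

namespace Pool.Agent.H27.EV

open Finset Filter
open Pool.Agent.H11.NW (Wf)
open Pool.Agent.H73.QX (mass MassProp Inert Indep)

theorem prod_mod_four (f : ℤ → ℤ) (S : Finset ℤ) (h : ∀ d ∈ S, f d % 4 = 1) :
    (∏ d ∈ S, f d) % 4 = 1 := by
  classical
  induction S using Finset.induction_on with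
  | empty => simp
  | insert a S ha ih =>
    rw [prod_insert ha, Int.mul_emod, h a (mem_insert_self a S),
      ih fun d hd => h d (mem_insert_of_mem hd)]
    norm_num

theorem not_sq_neg (x : ℤ) (h : x % 4 = 1) : ¬ IsSquare (-x) := by
  rintro ⟨r, hr⟩
  have h1 : r % 4 = 0 ∨ r % 4 = 1 ∨ r % 4 = 2 ∨ r % 4 = 3 := by omega
  have h2 : (r * r) % 4 = 0 ∨ (r * r) % 4 = 1 := by
    rcases h1 with h1 | h1 | h1 | h1 <;> rw [Int.mul_emod, h1] <;> norm_num
  omega

/-- the primes at which all characters are `1`, in windows -/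
theorem ones_win (T : Finset ℤ) (h4 : ∀ d ∈ T, ((-3 : ℤ) * d) % 4 = 1) (hI : Indep T) (ε : ℝ)
    (hε : 0 < ε) : ∀ᶠ x : ℕ in atTop, ∀ u v : ℕ, 2 ≤ u → u ≤ v → v ≤ x →
      2 ^ T.card * ∑ p ∈ (Ioc u v).filter
        (fun p => p.Prime ∧ ∀ d ∈ T, jacobiSym (-3 * d) p = 1), Real.log p
        ≤ ((v : ℝ) - u) + ε * x := by
  classical
  have hind : ∀ S ⊆ T, S.Nonempty → ¬ IsSquare (∏ d ∈ S, ((-3 : ℤ) * d)) ∧
      ¬ IsSquare (-∏ d ∈ S, ((-3 : ℤ) * d)) := fun S hS hne => ⟨hI S hS hne,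
    not_sq_neg _ (prod_mod_four (fun d => -3 * d) S fun d hd => h4 d (hS hd))⟩
  filter_upwards [Pool.Agent.H71.NB.ones4 1 (Or.inl rfl) (-3) T hind ε hε,
    Pool.Agent.H71.NB.ones4 (-1) (Or.inr rfl) (-3) T hind ε hε] with x h1 h2 u v hu huv hvx
  have a1 := h1 u v hu huv hvx
  have a2 := h2 u v hu huv hvx
  have a3 : ∑ p ∈ (Ioc u v).filter
        (fun p => p.Prime ∧ ∀ d ∈ T, jacobiSym (-3 * d) p = 1), Real.log p =
      ∑ p ∈ (Ioc u v).filter
        (fun p => p.Prime ∧ jacobiSym (-1) p = 1 ∧ ∀ d ∈ T, jacobiSym (-3 * d) p = 1), Real.log p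
      + ∑ p ∈ (Ioc u v).filter
        (fun p => p.Prime ∧ jacobiSym (-1) p = -1 ∧ ∀ d ∈ T, jacobiSym (-3 * d) p = 1), Real.log p := by
    rw [← sum_union]
    · refine sum_congr ?_ fun _ _ => rfl
      ext p
      simp only [mem_filter, mem_union, mem_Ioc]
      constructor
      · rintro ⟨⟨b1, b2⟩, b3, b4⟩
        have hodd : Odd p := b3.odd_of_ne_two (by omega)
        have h5 : jacobiSym (-1) p = 1 ∨ jacobiSym (-1) p = -1 := by
          have : p % 4 = 1 ∨ p % 4 = 3 := Nat.odd_mod_four_iff.1 (Nat.odd_iff.1 hodd)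
          rcases this with h | h
          · exact Or.inl ((Pool.Agent.H71.NB.jac4_one p hodd).2 h)
          · exact Or.inr ((Pool.Agent.H71.NB.jac4_neg p hodd).2 h)
        rcases h5 with h5 | h5
        · exact Or.inl ⟨⟨b1, b2⟩, b3, h5, b4⟩
        · exact Or.inr ⟨⟨b1, b2⟩, b3, h5, b4⟩
      · rintro (⟨b1, b2, b3, b4⟩ | ⟨b1, b2, b3, b4⟩)
        · exact ⟨b1, b2, b4⟩
        · exact ⟨b1, b2, b4⟩
    · rw [Finset.disjoint_left]
      intro p hp hp'
      have b1 := (mem_filter.1 hp).2.2.1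
      have b2 := (mem_filter.1 hp').2.2.1
      rw [b1] at b2
      norm_num at b2
  rw [a3]
  nlinarith

theorem sum_cover (s s1 s2 s3 : Finset ℕ) (h : ∀ p ∈ s, p ∈ s1 ∨ p ∈ s2 ∨ p ∈ s3) :
    ∑ p ∈ s, Real.log p ≤ ∑ p ∈ s1, Real.log p + ∑ p ∈ s2, Real.log p + ∑ p ∈ s3, Real.log p := by
  have hl : ∀ p : ℕ, 0 ≤ Real.log p := fun p => Real.log_natCast_nonneg p
  have h1 : ∀ a b : Finset ℕ, ∑ p ∈ a ∪ b, Real.log p ≤ ∑ p ∈ a, Real.log p + ∑ p ∈ b, Real.log p := by
    intro a b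
    rw [← sum_union_inter]
    exact le_add_of_nonneg_right (sum_nonneg fun p _ => hl p)
  have h2 : ∑ p ∈ s, Real.log p ≤ ∑ p ∈ (s1 ∪ s2) ∪ s3, Real.log p :=
    sum_le_sum_of_subset_of_nonneg (fun p hp => by
      rw [mem_union, mem_union]
      rcases h p hp with h | h | h
      · exact Or.inl (Or.inl h)
      · exact Or.inl (Or.inr h)
      · exact Or.inr h) fun p _ _ => hl p
  have h3 := h1 (s1 ∪ s2) s3
  have h4 := h1 s1 s2
  linarith

theorem massProp2 : MassProp 2 := by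
  classical
  intro T hT hTin hI
  have h4 : ∀ d ∈ T, ((-3 : ℤ) * d) % 4 = 1 := by
    intro d hd
    have := (hTin d hd).2.1
    omega
  refine ⟨1 / 100, by norm_num, ?_⟩
  have hK : ∀ᶠ K : ℕ in atTop, 1 / 100 * (K : ℝ) ≤
      mass (fun p => ¬ Wf p ∧ ∃ d ∈ T, jacobiSym (-3 * d) p ≠ 1) K := by
    have ht : Tendsto (fun K : ℕ => 10 * K) atTop atTop :=
      tendsto_id.const_mul_atTop' (by norm_num)
    filter_upwards [main_bound, ht.eventually (ones_win T h4 hI (1 / 10000) (by norm_num)),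
      ht.eventually (Pool.Agent.H71.NB.win_one (1 / 10000) (by norm_num)),
      eventually_ge_atTop 1] with K h1 h2 h3 h5
    set G : ℕ → Prop := fun p => ¬ Wf p ∧ ∃ d ∈ T, jacobiSym (-3 * d) p ≠ 1 with hG
    have hK0 : (1 : ℝ) ≤ K := by exact_mod_cast h5
    -- one window
    have hone : ∀ i ∈ range K, 3 / 4 * (8 * (K : ℝ) - 4 * i) - 1 / 500 * K ≤
        ∑ p ∈ (Ioc (2 * K) (10 * K - 4 * i)).filter (fun p => p.Prime ∧ Wf p), Real.log p
          + mass G K := by
      intro i hi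
      rw [mem_range] at hi
      have b1 := h3 (2 * K) (10 * K - 4 * i) (by omega) (by omega)
      have b2 := h2 (2 * K) (10 * K - 4 * i) (by omega) (by omega) (by omega)
      have hcast : ((10 * K - 4 * i : ℕ) : ℝ) = 10 * K - 4 * i := by
        rw [Nat.cast_sub (by omega)]; push_cast; ring
      rw [hcast] at b1 b2
      push_cast at b1 b2
      rw [hT] at b2
      have b3 := (abs_le.1 b1).1
      have b4 : ∑ p ∈ (Ioc (2 * K) (10 * K - 4 * i)).filter Nat.Prime, Real.log p ≤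
          ∑ p ∈ (Ioc (2 * K) (10 * K - 4 * i)).filter (fun p => p.Prime ∧ Wf p), Real.log p
          + ∑ p ∈ (Ioc (2 * K) (10 * K - 4 * i)).filter
            (fun p => p.Prime ∧ ∀ d ∈ T, jacobiSym (-3 * d) p = 1), Real.log p
          + mass G K := by
        unfold mass
        refine sum_cover _ _ _ _ fun p hp => ?_
        rw [mem_filter, mem_Ioc] at hp
        by_cases hw : Wf p
        · exact Or.inl (mem_filter.2 ⟨mem_Ioc.2 hp.1, hp.2, hw⟩)
        · by_cases hj : ∀ d ∈ T, jacobiSym (-3 * d) p = 1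
          · exact Or.inr (Or.inl (mem_filter.2 ⟨mem_Ioc.2 hp.1, hp.2, hj⟩))
          · have hj' : ∃ d ∈ T, jacobiSym (-3 * d) p ≠ 1 := by push Not at hj; exact hj
            refine Or.inr (Or.inr ?_)
            simp only [mem_filter, mem_Ioc]
            exact ⟨⟨hp.1.1, by omega⟩, hp.2, hw, hj'⟩
      have e2 : (2 : ℝ) ^ 2 = 4 := by norm_num
      rw [e2] at b2
      have e1 : (10 * (K : ℝ) - 4 * i - 2 * K) = 8 * K - 4 * i := by ring
      rw [e1] at b2 b3
      linarith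
    have hsum := sum_le_sum hone
    rw [sum_add_distrib, sum_sub_distrib, ← mul_sum, sum_sub_distrib, sum_const, sum_const, card_range,
      ← mul_sum, sum_const, card_range] at hsum
    have hg : ∑ i ∈ range K, (i : ℝ) = K * (K - 1) / 2 := by
      have := Finset.sum_range_id_mul_two K
      have h6 : (∑ i ∈ range K, (i : ℝ)) * 2 = K * (K - 1) := by
        have h7 : ((∑ i ∈ range K, i : ℕ) : ℝ) * 2 = ((K * (K - 1) : ℕ) : ℝ) := by exact_mod_cast this
        rw [Nat.cast_mul, Nat.cast_sub h5] at h7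
        push_cast at h7
        exact h7
      linarith
    rw [hg] at hsum
    simp only [nsmul_eq_mul] at hsum
    have h9 : (K : ℝ) * (1 / 100 * K) ≤ K * mass G K := by nlinarith
    exact le_of_mul_le_mul_left h9 (by linarith)
  have ht2 : Tendsto (fun m : ℕ => 2 ^ m) atTop atTop :=
    tendsto_pow_atTop_atTop_of_one_lt (by norm_num)
  refine (ht2.eventually hK).frequently.mono fun m hm => ?_
  push_cast at hm
  exact hm

/-- at most one quadratic field `≠ ℚ(√-3)` in which `2` is inert is exceptional -/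
theorem exceptions_one : ∃ E : Finset ℤ, E.card ≤ 1 ∧
      (∀ d ∈ E, Squarefree d ∧ d % 8 = 5 ∧ d ≠ -3) ∧
      ∀ d : ℤ, Squarefree d → d % 8 = 5 → d ≠ -3 → d ∉ E →
        ∀ (K : Type*) [Field K] [NumberField K], Module.finrank ℚ K = 2 →
          ∀ δ : K, δ ^ 2 = (d : K) →
            Pool.Agent.H73.QX.Pos (Pool.Agent.H73.QX.NW (Pool.Agent.H73.QX.FirstCase K)) := by
  obtain ⟨E, h1, h2, h3⟩ := Pool.Agent.H73.QX.inert_but 2 massProp2 (Pool.Agent.H73.QX.indProp 1)
  exact ⟨E, by norm_num at h1; omega, h2, h3⟩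

end Pool.Agent.H27.EV
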