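import Pool.Agent.H27.EV.Defs

/-!
# EV Greedy: the greedy sequence

At each step choose an index `x` with the largest remaining value `U x - (number of visits of x)` (natural subtraction) and
visit it; `u i` is this largest remaining value before the step `i`.  The first claim is clear.  For the second put
`Φ_k = ∑_x tri (U x - visits_k x - x0)`; if `u k > x0` then the visit lowers `Φ` by exactly `u k - x0`
(`tri w - tri (w - 1) = w`), otherwise `u k ≤ x0`; so `∑_{i < k} u i ≤ k x0 + Φ_0`.
-/

set_option autoImplicit false

namespace Pool.Agent.H27.EV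

open Finset

theorem greedy {ι : Type} [Fintype ι] [Nonempty ι] [DecidableEq ι] (U : ι → ℕ) :
    ∃ (c : ℕ → ι) (u : ℕ → ℕ),
      (∀ i x, U x ≤ u i + ((range i).filter fun t => c t = x).card) ∧
      ∀ k x0, ∑ i ∈ range k, u i ≤ k * x0 + ∑ x, tri (U x - x0) := by
  sorry

end Pool.Agent.H27.EV
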