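import Pool.Agent.H27.EV.Api

/-!
# EV Hm: monic Hermite polynomials of variance `σ`

`Hm σ (n + 2) = X * Hm σ (n + 1) - (n + 1) σ * Hm σ n`.  `Hm_deriv`: `(Hm (n + 1))' = (n + 1) Hm n` (induction).
`Hm_bound`: for `F (t) = exp (x t - σ t ^ 2 / 2)` (entire) one has `iteratedDeriv n F t = Hm n (x - σ t) F t` (induction with
`Hm_deriv` and the recursion), so `Hm n (x) = iteratedDeriv n F 0`, and Cauchy's estimate
(`Complex.norm_iteratedDeriv_le_of_forall_mem_sphere_norm_le`) on `|t| = r`: for `t = r e ^ (i θ)`, `c = cos θ`: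
`Re (x t - σ t ^ 2 / 2) = x r c - σ r ^ 2 (2 c ^ 2 - 1) / 2 = x r c - σ r ^ 2 c ^ 2 + σ r ^ 2 / 2 ≤ x ^ 2 / (4 σ) + σ r ^ 2 / 2`.
`Hm_coeff`: the sum of the absolute values of the coefficients of `Hm n` is `≤ n! (1 + σ) ^ n` by induction
(`(n+1)! (1+σ)^(n+1) + (n+1) σ n! (1+σ)^n ≤ (n+1)! (1+σ)^n (1 + 2 σ) ≤ (n+2)! (1+σ)^(n+2)`).
-/

set_option autoImplicit false

noncomputable section

namespace Pool.Agent.H27.EV

open Polynomial Finset

/-- monic Hermite polynomials of variance `σ` -/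
def Hm (σ : ℚ) : ℕ → ℚ[X]
  | 0 => 1
  | 1 => X
  | n + 2 => X * Hm σ (n + 1) - C ((n + 1 : ℚ) * σ) * Hm σ n

theorem hm_step (σ : ℚ) (n : ℕ) :
    Hm σ (n + 2) = X * Hm σ (n + 1) - C ((n + 1 : ℚ) * σ) * Hm σ n := rfl

theorem hm_zero (σ : ℚ) : Hm σ 0 = 1 := rfl

theorem hm_one (σ : ℚ) : Hm σ 1 = X := rfl

theorem hm_mon2 (σ : ℚ) (n : ℕ) : IsMon n (Hm σ n) ∧ IsMon (n + 1) (Hm σ (n + 1)) := by
  induction n with
  | zero => exact ⟨⟨monic_one, natDegree_one⟩, ⟨monic_X, natDegree_X⟩⟩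
  | succ n ih =>
    obtain ⟨h0, h1⟩ := ih
    refine ⟨h1, ?_⟩
    have e1 : (X * Hm σ (n + 1)).Monic := monic_X.mul h1.1
    have e2 : (X * Hm σ (n + 1)).natDegree = n + 2 := by
      rw [monic_X.natDegree_mul h1.1, natDegree_X, h1.2]; ring
    have e3 : (C ((n + 1 : ℚ) * σ) * Hm σ n).natDegree < (X * Hm σ (n + 1)).natDegree := by
      rw [e2]
      have := natDegree_C_mul_le ((n + 1 : ℚ) * σ) (Hm σ n)
      rw [h0.2] at this
      omega
    refine ⟨?_, ?_⟩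
    · rw [show n + 1 + 1 = n + 2 from rfl, hm_step]
      exact e1.sub_of_left (degree_lt_degree e3)
    · rw [show n + 1 + 1 = n + 2 from rfl, hm_step, natDegree_sub_eq_left_of_natDegree_lt e3, e2]

theorem Hm_mon (σ : ℚ) (n : ℕ) : IsMon n (Hm σ n) := (hm_mon2 σ n).1

theorem hm_par (σ : ℚ) (n : ℕ) :
    (∀ s, ¬ Even (n + s) → (Hm σ n).coeff s = 0) ∧
      (∀ s, ¬ Even (n + 1 + s) → (Hm σ (n + 1)).coeff s = 0) := by
  induction n with
  | zero =>
    refine ⟨fun s hs => ?_, fun s hs => ?_⟩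
    · rw [hm_zero, coeff_one, if_neg]
      rintro rfl
      exact hs (by decide)
    · rw [hm_one, coeff_X, if_neg]
      rintro rfl
      exact hs (by decide)
  | succ n ih =>
    obtain ⟨h0, h1⟩ := ih
    refine ⟨h1, fun s hs => ?_⟩
    rw [show n + 1 + 1 = n + 2 from rfl, hm_step, coeff_sub, coeff_C_mul]
    have e1 : (Hm σ n).coeff s = 0 := by
      apply h0
      intro h
      apply hs
      rw [show n + 1 + 1 + s = (n + s) + 2 by ring]
      exact h.add even_two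
    rw [e1, mul_zero, sub_zero]
    cases s with
    | zero => rw [coeff_X_mul_zero]
    | succ s =>
      rw [coeff_X_mul]
      apply h1
      intro h
      apply hs
      rw [show n + 1 + 1 + (s + 1) = (n + 1 + s) + 2 by ring]
      exact h.add even_two

theorem Hm_ev (σ : ℚ) (i : ℕ) : IsEv i (Hm σ (2 * i)) := by
  refine ⟨(Hm_mon σ (2 * i)).1, (Hm_mon σ (2 * i)).2, fun n hn => (hm_par σ (2 * i)).1 n ?_⟩
  intro h
  apply hn
  rw [Nat.even_add] at h
  exact h.1 (even_two_mul i)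

theorem hm_deriv2 (σ : ℚ) (n : ℕ) :
    derivative (Hm σ (n + 1)) = C (n + 1 : ℚ) * Hm σ n ∧
      derivative (Hm σ (n + 2)) = C (n + 1 + 1 : ℚ) * Hm σ (n + 1) := by
  induction n with
  | zero =>
    refine ⟨?_, ?_⟩
    · rw [hm_one, hm_zero, derivative_X]
      simp
    · rw [hm_step, hm_zero, hm_one, derivative_sub, derivative_mul, derivative_X]
      simp
      ring_nf
  | succ n ih =>
    obtain ⟨h0, h1⟩ := ih
    refine ⟨?_, ?_⟩
    · rw [show n + 1 + 1 = n + 2 from rfl, h1]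
      push_cast
      rfl
    · have e := hm_step σ (n + 1)
      rw [show n + 1 + 2 = n + 1 + 1 + 1 from rfl] at *
      rw [show n + 1 + 1 = n + 2 from rfl] at e ⊢
      rw [e, derivative_sub, derivative_mul, derivative_X, derivative_C_mul, h0, h1,
        show Hm σ (n + 2) = X * Hm σ (n + 1) - C ((n + 1 : ℚ) * σ) * Hm σ n from hm_step σ n]
      push_cast
      simp only [C_add, C_mul, C_1]
      ring

theorem Hm_deriv (σ : ℚ) (n : ℕ) : derivative (Hm σ (n + 1)) = C (n + 1 : ℚ) * Hm σ n :=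
  (hm_deriv2 σ n).1

theorem hm_abs_sub (a b : ℚ) : |a - b| ≤ |a| + |b| := by
  have h := abs_add_le a (-b)
  rwa [abs_neg, ← sub_eq_add_neg] at h

theorem hm_num (σ : ℚ) (hσ : 0 ≤ σ) (n : ℕ) (A B : ℚ)
    (e1 : |A| ≤ ((n + 1).factorial : ℚ) * (1 + σ) ^ (n + 1))
    (e2 : |B| ≤ (n + 1 : ℚ) * σ * ((n.factorial : ℚ) * (1 + σ) ^ n)) :
    |A - B| ≤ ((n + 2).factorial : ℚ) * (1 + σ) ^ (n + 2) := by
  have e3 : ((n + 1).factorial : ℚ) = (n + 1 : ℚ) * (n.factorial : ℚ) := by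
    have := congrArg (Nat.cast (R := ℚ)) (Nat.factorial_succ n)
    rw [this, Nat.cast_mul, Nat.cast_add, Nat.cast_one]
  have e4 : ((n + 2).factorial : ℚ) = (n + 2 : ℚ) * ((n + 1 : ℚ) * (n.factorial : ℚ)) := by
    have := congrArg (Nat.cast (R := ℚ)) (Nat.factorial_succ (n + 1))
    rw [show n + 2 = n + 1 + 1 from rfl, this, Nat.cast_mul, e3, Nat.cast_add, Nat.cast_add,
      Nat.cast_one]
    ring
  rw [e3] at e1
  rw [e4]
  have h0 : (0 : ℚ) ≤ n := Nat.cast_nonneg n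
  have hF : (0 : ℚ) ≤ (n.factorial : ℚ) := Nat.cast_nonneg _
  generalize (n.factorial : ℚ) = F at e1 e2 hF ⊢
  have h5 := hm_abs_sub A B
  have h6 : (0 : ℚ) ≤ (n + 1 : ℚ) * F * (1 + σ) ^ n := by positivity
  have h7 : (1 : ℚ) + 2 * σ ≤ (n + 2) * (1 + σ) ^ 2 := by nlinarith [mul_nonneg h0 hσ, sq_nonneg σ]
  have h8 := mul_le_mul_of_nonneg_left h7 h6
  have h9 : (n + 1 : ℚ) * F * (1 + σ) ^ n * (1 + 2 * σ) =
      (n + 1 : ℚ) * F * (1 + σ) ^ (n + 1) + (n + 1 : ℚ) * σ * (F * (1 + σ) ^ n) := by ring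
  have h10 : (n + 1 : ℚ) * F * (1 + σ) ^ n * ((n + 2) * (1 + σ) ^ 2) =
      (n + 2 : ℚ) * ((n + 1 : ℚ) * F) * (1 + σ) ^ (n + 2) := by ring
  rw [h9, h10] at h8
  linarith

theorem hm_coeff2 (σ : ℚ) (hσ : 0 ≤ σ) (n : ℕ) :
    (∀ s, |(Hm σ n).coeff s| ≤ (n.factorial : ℚ) * (1 + σ) ^ n) ∧
      (∀ s, |(Hm σ (n + 1)).coeff s| ≤ ((n + 1).factorial : ℚ) * (1 + σ) ^ (n + 1)) := by
  induction n with
  | zero =>
    refine ⟨fun s => ?_, fun s => ?_⟩
    · rw [hm_zero, coeff_one]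
      split_ifs <;> simp
    · rw [hm_one, coeff_X]
      split_ifs
      · simp [hσ]
      · simp; linarith
  | succ n ih =>
    obtain ⟨h0, h1⟩ := ih
    refine ⟨h1, fun s => ?_⟩
    have e1 : |(X * Hm σ (n + 1)).coeff s| ≤ ((n + 1).factorial : ℚ) * (1 + σ) ^ (n + 1) := by
      cases s with
      | zero =>
        rw [coeff_X_mul_zero, abs_zero]
        positivity
      | succ s =>
        rw [coeff_X_mul]
        exact h1 s
    have e2 : |(C ((n + 1 : ℚ) * σ) * Hm σ n).coeff s| ≤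
        (n + 1 : ℚ) * σ * ((n.factorial : ℚ) * (1 + σ) ^ n) := by
      rw [coeff_C_mul, abs_mul, abs_of_nonneg (show (0 : ℚ) ≤ (n + 1 : ℚ) * σ by positivity)]
      exact mul_le_mul_of_nonneg_left (h0 s) (by positivity)
    have e3 : (Hm σ (n + 2)).coeff s = (X * Hm σ (n + 1)).coeff s -
        (C ((n + 1 : ℚ) * σ) * Hm σ n).coeff s := by rw [hm_step, coeff_sub]
    have e4 := hm_num σ hσ n _ _ e1 e2
    rw [← e3] at e4
    exact e4

theorem Hm_coeff (σ : ℚ) (hσ : 0 ≤ σ) (n s : ℕ) :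
    |(Hm σ n).coeff s| ≤ n.factorial * (1 + σ) ^ n := (hm_coeff2 σ hσ n).1 s

/-- the recursion with the derivative -/
theorem hm_succ (σ : ℚ) (n : ℕ) :
    Hm σ (n + 1) = X * Hm σ n - C σ * derivative (Hm σ n) := by
  cases n with
  | zero => rw [hm_one, hm_zero, derivative_one]; ring
  | succ n =>
    rw [show n + 1 + 1 = n + 2 from rfl, hm_step, Hm_deriv, C_mul]
    ring

/-- the derivatives of the generating function -/
theorem hm_iter_exp (σ : ℚ) (x : ℂ) (n : ℕ) :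
    iteratedDeriv n (fun t : ℂ => Complex.exp (x * t - σ * t ^ 2 / 2)) =
      fun t : ℂ => aeval (x - σ * t) (Hm σ n) * Complex.exp (x * t - σ * t ^ 2 / 2) := by
  induction n with
  | zero =>
    rw [iteratedDeriv_zero, hm_zero]
    funext t
    rw [map_one, one_mul]
  | succ n ih =>
    rw [iteratedDeriv_succ, ih]
    funext t
    have h1 : HasDerivAt (fun t : ℂ => x - σ * t) (-(σ : ℂ)) t := by
      have := ((hasDerivAt_id t).const_mul (σ : ℂ)).const_sub x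
      simpa using this
    have h2 : HasDerivAt (fun t : ℂ => aeval (x - σ * t) (Hm σ n))
        (aeval (x - σ * t) (derivative (Hm σ n)) * (-(σ : ℂ))) t := by
      have h3 := (Hm σ n).hasDerivAt_aeval (x - σ * t)
      exact h3.comp t h1
    have h4 : HasDerivAt (fun t : ℂ => x * t - σ * t ^ 2 / 2) (x - σ * t) t := by
      have h5 := (hasDerivAt_id t).const_mul x
      have h6 := (((hasDerivAt_id t).pow 2).const_mul (σ : ℂ)).div_const 2
      have h7 := h5.sub h6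
      refine h7.congr_deriv ?_
      simp
      ring
    have h8 := h2.mul h4.cexp
    have h9 : HasDerivAt (fun t : ℂ => aeval (x - σ * t) (Hm σ n) *
        Complex.exp (x * t - σ * t ^ 2 / 2)) _ t := h8
    rw [h9.deriv, hm_succ σ n]
    simp only [map_sub, map_mul, aeval_X, aeval_C]
    have e : (algebraMap ℚ ℂ) σ = (σ : ℂ) := rfl
    rw [e]
    ring

theorem hm_re (σ x r : ℝ) (hσ : 0 < σ) (t : ℂ) (ht : ‖t‖ = r) :
    ((x : ℂ) * t - σ * t ^ 2 / 2).re ≤ x ^ 2 / (4 * σ) + σ * r ^ 2 / 2 := by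
  have h1 : t.re ^ 2 + t.im ^ 2 = r ^ 2 := by
    rw [← ht, ← Complex.normSq_eq_norm_sq, Complex.normSq_apply]; ring
  have h2 : ((x : ℂ) * t - σ * t ^ 2 / 2).re = x * t.re - σ * (t.re ^ 2 - t.im ^ 2) / 2 := by
    have e : (t ^ 2).re = t.re ^ 2 - t.im ^ 2 := by
      rw [sq, Complex.mul_re]; ring
    have e2 : ((σ : ℂ) * t ^ 2 / 2) = ((σ / 2 : ℝ) : ℂ) * t ^ 2 := by push_cast; ring
    rw [Complex.sub_re, e2, Complex.re_ofReal_mul, Complex.re_ofReal_mul, e]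
    ring
  rw [h2]
  have h3 : x * t.re - σ * t.re ^ 2 ≤ x ^ 2 / (4 * σ) := by
    rw [le_div_iff₀ (by positivity)]
    nlinarith [sq_nonneg (x - 2 * σ * t.re)]
  have h4 : t.im ^ 2 = r ^ 2 - t.re ^ 2 := by linarith
  rw [h4]
  linarith

theorem Hm_bound (σ : ℚ) (hσ : 0 < σ) (n : ℕ) (x r : ℝ) (hr : 0 < r) :
    |aeval x (Hm σ n)| ≤ n.factorial / r ^ n * Real.exp (x ^ 2 / (4 * σ) + σ * r ^ 2 / 2) := by
  have hσ' : (0 : ℝ) < (σ : ℝ) := by exact_mod_cast hσ
  set F : ℂ → ℂ := fun t : ℂ => Complex.exp ((x : ℂ) * t - σ * t ^ 2 / 2) with hF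
  have hd : Differentiable ℂ F := by
    rw [hF]
    fun_prop
  have h1 : ‖iteratedDeriv n F 0‖ ≤
      n.factorial * Real.exp (x ^ 2 / (4 * σ) + σ * r ^ 2 / 2) / r ^ n := by
    refine Complex.norm_iteratedDeriv_le_of_forall_mem_sphere_norm_le n hr hd.diffContOnCl ?_
    intro t ht
    rw [mem_sphere_zero_iff_norm] at ht
    rw [hF]
    dsimp only
    rw [Complex.norm_exp]
    apply Real.exp_le_exp.2
    have := hm_re (σ : ℝ) x r hσ' t ht
    have e : (((σ : ℝ) : ℂ)) = (σ : ℂ) := by push_cast; rfl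
    rwa [e] at this
  have h2 : iteratedDeriv n F 0 = ((aeval x (Hm σ n) : ℝ) : ℂ) := by
    rw [hF, hm_iter_exp]
    dsimp only
    rw [mul_zero, mul_zero, sub_zero]
    have e : (Complex.exp (0 - (σ : ℂ) * 0 ^ 2 / 2)) = 1 := by simp
    rw [e, mul_one]
    have e2 : (x : ℂ) = algebraMap ℝ ℂ x := rfl
    rw [e2, aeval_algebraMap_apply]
    rfl
  rw [h2, Complex.norm_real, Real.norm_eq_abs] at h1
  calc |aeval x (Hm σ n)| ≤ n.factorial * Real.exp (x ^ 2 / (4 * σ) + σ * r ^ 2 / 2) / r ^ n := h1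
    _ = _ := by ring

theorem hm_iter (σ : ℚ) (m : ℕ) : ∀ n : ℕ,
    derivative^[m] (Hm σ (n + m)) = C (((n + m).descFactorial m : ℕ) : ℚ) * Hm σ n := by
  induction m with
  | zero => intro n; simp
  | succ m ih =>
    intro n
    rw [Function.iterate_succ_apply, show n + (m + 1) = (n + m) + 1 from rfl, Hm_deriv,
      iterate_derivative_C_mul, ih, Nat.succ_descFactorial_succ, Nat.cast_mul, C_mul]
    push_cast
    ring

/-- the first three Taylor coefficients at an integer `a`: `binom (n, m) Hm (n - m) (a)`, `m ≤ 2` -/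
theorem Hm_maj (σ : ℚ) (hσ : 0 < σ) (n : ℕ) (a : ℤ) (r : ℝ) (hr : 0 < r) :
    Maj (n.factorial / r ^ n * Real.exp ((a : ℝ) ^ 2 / (4 * σ) + σ * r ^ 2 / 2)) r
      (tl ℚ a (Hm σ n)) := by
  intro m _
  unfold tl
  rw [Polynomial.coeff_coe, taylor_coeff]
  rcases lt_or_ge n m with hnm | hnm
  · rw [hasseDeriv_eq_zero_of_lt_natDegree _ _ (by rw [(Hm_mon σ n).2]; exact hnm), eval_zero]
    simp only [Rat.cast_zero, abs_zero]
    positivity
  · obtain ⟨q, rfl⟩ := Nat.exists_eq_add_of_le' hnm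
    have h1 : (m.factorial : ℚ) * (hasseDeriv m (Hm σ (q + m))).eval (a : ℚ) =
        (((q + m).descFactorial m : ℕ) : ℚ) * (Hm σ q).eval (a : ℚ) := by
      have h2 := congrFun (factorial_smul_hasseDeriv (R := ℚ) (k := m)) (Hm σ (q + m))
      rw [hm_iter] at h2
      have h3 := congrArg (eval (a : ℚ)) h2
      rw [eval_mul, eval_C] at h3
      rw [← h3]
      simp
    have h4 := Hm_bound σ hσ q a r hr
    have h5 : (aeval (a : ℝ) (Hm σ q)) = (((Hm σ q).eval (a : ℚ) : ℚ) : ℝ) := by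
      have e : ((a : ℤ) : ℝ) = algebraMap ℚ ℝ (a : ℚ) := by simp
      rw [e, aeval_algebraMap_apply]
      simp
    rw [h5] at h4
    have h6 : (m.factorial : ℝ) * |(((hasseDeriv m (Hm σ (q + m))).eval (a : ℚ) : ℚ) : ℝ)| =
        (((q + m).descFactorial m : ℕ) : ℝ) * |(((Hm σ q).eval (a : ℚ) : ℚ) : ℝ)| := by
      have h7 := congrArg (fun z : ℚ => |(z : ℝ)|) h1
      simp only [Rat.cast_mul, Rat.cast_natCast, abs_mul, Nat.abs_cast] at h7
      exact h7
    have h8 : (1 : ℝ) ≤ (m.factorial : ℝ) := by exact_mod_cast Nat.one_le_of_lt m.factorial_pos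
    have h9 : ((q.factorial : ℕ) : ℝ) * (((q + m).descFactorial m : ℕ) : ℝ) =
        ((q + m).factorial : ℝ) := by
      have := Nat.factorial_mul_descFactorial (Nat.le_add_left m q)
      rw [Nat.add_sub_cancel] at this
      exact_mod_cast this
    calc |(((hasseDeriv m (Hm σ (q + m))).eval (a : ℚ) : ℚ) : ℝ)|
        ≤ (m.factorial : ℝ) * |(((hasseDeriv m (Hm σ (q + m))).eval (a : ℚ) : ℚ) : ℝ)| :=
          le_mul_of_one_le_left (abs_nonneg _) h8
      _ = (((q + m).descFactorial m : ℕ) : ℝ) * |(((Hm σ q).eval (a : ℚ) : ℚ) : ℝ)| := h6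
      _ ≤ (((q + m).descFactorial m : ℕ) : ℝ) *
          (q.factorial / r ^ q * Real.exp ((a : ℝ) ^ 2 / (4 * σ) + σ * r ^ 2 / 2)) :=
          mul_le_mul_of_nonneg_left h4 (Nat.cast_nonneg _)
      _ = (q + m).factorial / r ^ (q + m) *
          Real.exp ((a : ℝ) ^ 2 / (4 * σ) + σ * r ^ 2 / 2) * r ^ m := by
          rw [← h9, pow_add]
          field_simp

end Pool.Agent.H27.EV
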