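import Pool.Agent.H27.EV.Fil

/-!
# EV JF: the jets and the weights at an odd prime `l` with `l ^ 2 > 2 K + 1`

`jet_one`: `jet a` is in `Fil l 1 (oo l a)`.  Induction on `a ≥ 0` and on `-a ≥ 0` along the definition of `fpos`, `fneg`:
`wf a = 2 (y + a)` is in `Fil l 1 [l ∣ a]` (`Fil.lin`; for `a = 0` it is `2 y`, in `Fil l 1 1`), with exact constant
coefficient if `a ≠ 0`, `|a| ≤ K < l ^ 2`; `hf a = 2 y + 2 a + 1` is in `Fil l 1 [l ∣ 2 a + 1]` with exact constant coefficient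
(`|2 a + 1| < l ^ 2`).  And `oo l (a + 1) = oo l a + [l ∣ a] - [l ∣ 2 a + 1]` for the classes (`oo = 1` iff the residue of `a`
is in `[1, (l-1)/2]`; `l` is odd).

`jet_int`: for `2 |a| < l` all factors are units: `Fil l 0 0 (jet a)`.

`Wa_one`: `Wa a` is the product of the `(y + (a - b)) ^ 3`, in `Fil l 1 (3 [l ∣ a - b])` with exact constant coefficient
(`0 < |a - b| ≤ 2 K < l ^ 2`), so `(Wa a)⁻¹` is in `Fil l 1 (- 3 (nu (a) - 1))`, `nu` = number of nodes in the class of `a`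
(the node `a` itself is one of them).

`Wa_int`: if `a` is alone in its class, all factors are units.

`Jt_one`, `Jt_int`: the term of the node: coefficient `2` of the product, exponent `2 - (oo + n - 3 (nu - 1))`.

`alone`: if `K < l` and `a` is alone in its class then `2 |a| < l` (`a + l > K` and `a - l < -K`, so `|a| ≤ l - K - 1`; for
`l ≤ 2 K + 1` this gives `2 |a| ≤ 2 l - 2 K - 2 < l`; for `l > 2 K` use `|a| ≤ K`).
-/

set_option autoImplicit false

noncomputable section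

namespace Pool.Agent.H27.EV

open Polynomial Finset

variable {l : ℕ} [Fact l.Prime]

/-- `1` if `l` divides `z`, else `0` -/
def jfe (l : ℕ) (z : ℤ) : ℤ := if (l : ℤ) ∣ z then 1 else 0

theorem jf_one_lt : (1 : ℚ) < (l : ℚ) := by
  exact_mod_cast (Fact.out : l.Prime).one_lt

theorem jf_pos : (0 : ℚ) < (l : ℚ) := zero_lt_one.trans jf_one_lt

theorem jfe_nonneg (z : ℤ) : 0 ≤ jfe l z := by
  unfold jfe; split_ifs <;> norm_num

theorem jfe_le_one (z : ℤ) : jfe l z ≤ 1 := by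
  unfold jfe; split_ifs <;> norm_num

theorem jf_norm_le (z : ℤ) : padicNorm l (z : ℚ) ≤ (l : ℚ) ^ (-(jfe l z)) := by
  unfold jfe
  split_ifs with h
  · have := (padicNorm.dvd_iff_norm_le (p := l) (n := 1) (z := z)).1 (by simpa using h)
    simpa using this
  · simpa using padicNorm.of_int z

theorem jf_norm_eq (z : ℤ) (hz : ¬ (l : ℤ) ^ 2 ∣ z) :
    padicNorm l (z : ℚ) = (l : ℚ) ^ (-(jfe l z)) := by
  unfold jfe
  split_ifs with h
  · have h1 := (padicNorm.dvd_iff_norm_le (p := l) (n := 1) (z := z)).1 (by simpa using h)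
    have h2 : ¬ padicNorm l (z : ℚ) ≤ (l : ℚ) ^ (-((2 : ℕ) : ℤ)) := by
      intro hh
      exact hz (by simpa using (padicNorm.dvd_iff_norm_le (p := l) (n := 2) (z := z)).2 hh)
    have hz0 : (z : ℚ) ≠ 0 := by
      intro h0
      apply hz
      have : z = 0 := by exact_mod_cast h0
      rw [this]; exact dvd_zero _
    have h3 := padicNorm.eq_zpow_of_nonzero (p := l) hz0
    rw [h3] at h1 h2 ⊢
    rw [zpow_le_zpow_iff_right₀ jf_one_lt] at h1 h2
    congr 1
    push_cast at h1 h2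
    omega
  · have h1 : ¬ padicNorm l (z : ℚ) < 1 := fun hh => h ((padicNorm.int_lt_one_iff z).1 hh)
    have h2 := padicNorm.of_int (p := l) z
    simpa using le_antisymm h2 (not_lt.1 h1)

theorem jf_two (hl2 : l ≠ 2) : padicNorm l (2 : ℚ) = 1 := by
  have h := jf_norm_eq (l := l) 2 (by
    intro h
    have h1 : (l : ℤ) ∣ 2 := (Dvd.intro_left ((l : ℤ) ^ 1) (by ring)).trans h
    have h2 : l ∣ 2 := by exact_mod_cast h1
    exact hl2 ((Nat.prime_dvd_prime_iff_eq (Fact.out : l.Prime) Nat.prime_two).1 h2))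
  have h3 : jfe l 2 = 0 := by
    unfold jfe
    rw [if_neg]
    intro h1
    have h2 : l ∣ 2 := by exact_mod_cast h1
    exact hl2 ((Nat.prime_dvd_prime_iff_eq (Fact.out : l.Prime) Nat.prime_two).1 h2)
  rw [h3] at h
  simpa using h

theorem jf_not_dvd {K : ℕ} (hK : 2 * K + 1 < l ^ 2) (z : ℤ) (h0 : z ≠ 0) (hz : |z| ≤ 2 * K + 1) :
    ¬ (l : ℤ) ^ 2 ∣ z := by
  intro h
  apply h0
  apply Int.eq_zero_of_abs_lt_dvd h
  have : ((2 * K + 1 : ℕ) : ℤ) < ((l ^ 2 : ℕ) : ℤ) := by exact_mod_cast hK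
  push_cast at this
  linarith

theorem jfe_two_mul (hl2 : l ≠ 2) (a : ℤ) : jfe l (2 * a) = jfe l a := by
  unfold jfe
  have : (l : ℤ) ∣ 2 * a ↔ (l : ℤ) ∣ a := by
    constructor
    · intro h
      rcases Int.Prime.dvd_mul' (Fact.out : l.Prime) h with h1 | h1
      · have h2 : l ∣ 2 := by exact_mod_cast h1
        exact absurd ((Nat.prime_dvd_prime_iff_eq (Fact.out : l.Prime) Nat.prime_two).1 h2) hl2
      · exact h1
    · intro h; exact h.mul_left 2
  simp only [this]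

theorem jf_hf (hl2 : l ≠ 2) (a : ℤ) : Fil l 1 (jfe l (2 * a + 1)) (hf ℚ a) := by
  unfold hf
  apply Fil.lin
  · exact jf_norm_le (2 * a + 1)
  · rw [jf_two hl2]
    apply one_le_zpow₀ jf_one_lt.le
    have := jfe_le_one (l := l) (2 * a + 1)
    push_cast
    omega

theorem jf_wf (hl2 : l ≠ 2) (a : ℤ) : Fil l 1 (jfe l a) (wf ℚ a) := by
  unfold wf
  apply Fil.lin
  · rw [← jfe_two_mul hl2 a]; exact jf_norm_le (2 * a)
  · rw [jf_two hl2]
    apply one_le_zpow₀ jf_one_lt.le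
    have := jfe_le_one (l := l) a
    push_cast
    omega

theorem jf_hf_inv (hl2 : l ≠ 2) {K : ℕ} (hK : 2 * K + 1 < l ^ 2) (a : ℤ) (ha : |2 * a + 1| ≤ 2 * K + 1) :
    Fil l 1 (-(jfe l (2 * a + 1))) (hf ℚ a)⁻¹ := by
  apply Fil.inv (jf_hf hl2 a)
  rw [coeff_hf_zero]
  exact jf_norm_eq _ (jf_not_dvd hK _ (by omega) ha)

theorem jf_wf_inv (hl2 : l ≠ 2) {K : ℕ} (hK : 2 * K + 1 < l ^ 2) (a : ℤ) (h0 : a ≠ 0) (ha : |a| ≤ K) :
    Fil l 1 (-(jfe l a)) (wf ℚ a)⁻¹ := by
  apply Fil.inv (jf_wf hl2 a)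
  rw [coeff_wf_zero, ← jfe_two_mul hl2 a]
  refine jf_norm_eq _ (jf_not_dvd hK _ (by omega) ?_)
  rw [abs_mul]
  norm_num
  linarith

theorem jf_odd (hl2 : l ≠ 2) : Odd (l : ℤ) := by
  have := (Fact.out : l.Prime).odd_of_ne_two hl2
  exact_mod_cast this

theorem jf_three (hl2 : l ≠ 2) : (3 : ℤ) ≤ l := by
  have h1 := (Fact.out : l.Prime).two_le
  have : 3 ≤ l := by omega
  exact_mod_cast this

/-- the class of `a + 1` -/
theorem jf_oo (hl2 : l ≠ 2) (a : ℤ) :
    (oo l ((a + 1 : ℤ) : ZMod l) : ℤ) = oo l (a : ZMod l) + jfe l a - jfe l (2 * a + 1) := by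
  have : NeZero l := ⟨(Fact.out : l.Prime).ne_zero⟩
  obtain ⟨m, hm⟩ := jf_odd (l := l) hl2
  have h3 := jf_three (l := l) hl2
  set r : ℤ := (a : ZMod l).valMinAbs with hr
  have hr1 : ((a : ℤ) : ZMod l) = ((r : ℤ) : ZMod l) := by rw [hr, ZMod.coe_valMinAbs]
  have hr2 : r * 2 ∈ Set.Ioc (-l : ℤ) l := ZMod.valMinAbs_mem_Ioc _
  obtain ⟨hr3, hr4⟩ := hr2
  have hd : (l : ℤ) ∣ a - r := by
    rw [← ZMod.intCast_zmod_eq_zero_iff_dvd]
    push_cast
    rw [hr1]
    push_cast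
    ring
  obtain ⟨k, hk⟩ := hd
  have ha1 : jfe l a = if r = 0 then 1 else 0 := by
    unfold jfe
    congr 1
    apply propext
    constructor
    · intro h
      have h1 : (l : ℤ) ∣ r := by
        have : r = a - l * k := by linarith
        rw [this]; exact dvd_sub h (dvd_mul_right _ _)
      apply Int.eq_zero_of_abs_lt_dvd h1
      rw [abs_lt]; constructor <;> linarith
    · intro h
      have : a = l * k := by linarith
      rw [this]; exact dvd_mul_right _ _
  have ha2 : jfe l (2 * a + 1) = if 2 * r + 1 = l then 1 else 0 := by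
    unfold jfe
    congr 1
    apply propext
    constructor
    · intro h
      have h1 : (l : ℤ) ∣ 2 * r + 1 := by
        have : 2 * r + 1 = (2 * a + 1) - l * (2 * k) := by linarith
        rw [this]; exact dvd_sub h (dvd_mul_right _ _)
      have h2 : (l : ℤ) ∣ (2 * r + 1) - l := dvd_sub h1 dvd_rfl
      by_contra hne
      by_cases hpos : 0 < 2 * r + 1
      · have := Int.eq_zero_of_abs_lt_dvd h2 (by rw [abs_lt]; constructor <;> linarith)
        apply hne; linarith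
      · have := Int.eq_zero_of_abs_lt_dvd h1 (by rw [abs_lt]; constructor <;> linarith)
        omega
    · intro h
      have : 2 * a + 1 = l * (2 * k + 1) := by linarith
      rw [this]; exact dvd_mul_right _ _
  have hoo : oo l (a : ZMod l) = if 0 < r then 1 else 0 := by
    unfold oo; rw [← hr]
  rw [ha1, ha2, hoo]
  by_cases hc : 2 * r + 1 = l
  · have h1 : ((a + 1 : ℤ) : ZMod l).valMinAbs = r + 1 - l := by
      rw [ZMod.valMinAbs_spec]
      refine ⟨?_, ?_, ?_⟩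
      · push_cast; rw [hr1]; simp
      · linarith
      · linarith
    unfold oo
    rw [h1, if_neg (by linarith), if_pos (by linarith), if_neg (by omega), if_pos hc]
    norm_num
  · have h1 : ((a + 1 : ℤ) : ZMod l).valMinAbs = r + 1 := by
      rw [ZMod.valMinAbs_spec]
      refine ⟨?_, ?_, ?_⟩
      · push_cast; rw [hr1]
      · linarith
      · omega
    unfold oo
    rw [h1, if_neg hc]
    by_cases h0 : r = 0
    · rw [if_pos h0, if_pos (show 0 < r + 1 by omega), if_neg (show ¬ 0 < r by omega)]; norm_num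
    · rw [if_neg h0]
      by_cases hp : 0 < r
      · rw [if_pos hp, if_pos (by omega)]; norm_num
      · rw [if_neg hp, if_neg (by omega)]; norm_num

theorem jf_oo_zero : oo l (0 : ZMod l) = 0 := by
  unfold oo; simp

theorem jf_fpos (hl2 : l ≠ 2) (K : ℕ) (hK : 2 * K + 1 < l ^ 2) (i : ℕ) (hi : i ≤ K) :
    Fil l 1 (oo l (((i : ℤ) : ℤ) : ZMod l)) (fpos ℚ i) := by
  induction i with
  | zero =>
    have : (oo l (((0 : ℕ) : ℤ) : ZMod l)) = 0 := by
      simpa using jf_oo_zero (l := l)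
    rw [this]
    exact Fil.one
  | succ i ih =>
    have h1 := ih (by omega)
    have h2 := (Fil.mul (Fil.mul (jf_wf hl2 (i : ℤ)) (jf_hf_inv hl2 hK (i : ℤ) (by
      rw [abs_of_nonneg (by positivity)]
      have : ((i + 1 : ℕ) : ℤ) ≤ K := by exact_mod_cast hi
      push_cast at this
      linarith))) h1)
    have h3 := jf_oo (l := l) hl2 (i : ℤ)
    have h4 : (((i + 1 : ℕ) : ℤ)) = (i : ℤ) + 1 := by push_cast; ring
    rw [h4, h3]
    exact h2.mono (by linarith)

theorem jf_fneg (hl2 : l ≠ 2) (K : ℕ) (hK : 2 * K + 1 < l ^ 2) (k : ℕ) (hk : k ≤ K) :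
    Fil l 1 (oo l ((-(k : ℤ) : ℤ) : ZMod l)) (fneg ℚ k) := by
  induction k with
  | zero =>
    have : (oo l ((-((0 : ℕ) : ℤ) : ℤ) : ZMod l)) = 0 := by
      simpa using jf_oo_zero (l := l)
    rw [this]
    exact Fil.one
  | succ k ih =>
    have h1 := ih (by omega)
    have hk' : ((k + 1 : ℕ) : ℤ) ≤ K := by exact_mod_cast hk
    push_cast at hk'
    have h2 := (Fil.mul (Fil.mul (jf_hf hl2 (-(k + 1 : ℤ))) (jf_wf_inv hl2 hK (-(k + 1 : ℤ))
      (by omega) (by rw [abs_neg, abs_of_nonneg (by positivity)]; exact hk'))) h1)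
    have h3 := jf_oo (l := l) hl2 (-(k + 1 : ℤ))
    have h5 : (-(k + 1 : ℤ)) + 1 = -(k : ℤ) := by ring
    rw [h5] at h3
    have h4 : (-(((k + 1 : ℕ) : ℤ))) = -(k + 1 : ℤ) := by push_cast; ring
    rw [h4]
    exact h2.mono (by linarith)

theorem jet_one (hl2 : l ≠ 2) (K : ℕ) (hK : 2 * K + 1 < l ^ 2) (a : ℤ) (ha : a ∈ nd K) :
    Fil l 1 (oo l (a : ZMod l)) (jet ℚ a) := by
  rw [nd, mem_Icc] at ha
  cases a with
  | ofNat i =>
    exact jf_fpos hl2 K hK i (by
      have := ha.2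
      rw [Int.ofNat_eq_natCast] at this
      exact_mod_cast this)
  | negSucc k =>
    have h := jf_fneg (l := l) hl2 K hK (k + 1) (by
      have := ha.1
      rw [Int.negSucc_eq] at this
      have h2 : ((k + 1 : ℕ) : ℤ) ≤ K := by push_cast; linarith
      exact_mod_cast h2)
    have e : Int.negSucc k = -(((k + 1 : ℕ) : ℤ)) := by rw [Int.negSucc_eq]; push_cast; ring
    rw [show jet ℚ (Int.negSucc k) = fneg ℚ (k + 1) from rfl, e]
    exact h

/-- linear factors with integral coefficients -/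
theorem jf_lin0 (b : ℚ) (hb : padicNorm l b ≤ 1) (z : ℤ) :
    Fil l 0 0 (PowerSeries.C b * PowerSeries.X + PowerSeries.C (z : ℚ)) := by
  apply Fil.lin
  · simpa using padicNorm.of_int z
  · simpa using hb

theorem jf_unit (z : ℤ) (hz : ¬ (l : ℤ) ∣ z) : padicNorm l (z : ℚ) = 1 := by
  have h1 : ¬ padicNorm l (z : ℚ) < 1 := fun hh => hz ((padicNorm.int_lt_one_iff z).1 hh)
  exact le_antisymm (padicNorm.of_int z) (not_lt.1 h1)

theorem jf_unit_of_lt (z : ℤ) (h0 : z ≠ 0) (h1 : |z| < l) : ¬ (l : ℤ) ∣ z :=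
  fun h => h0 (Int.eq_zero_of_abs_lt_dvd h h1)

theorem jf_hf0 (a : ℤ) : Fil l 0 0 (hf ℚ a) := by
  unfold hf
  exact jf_lin0 2 (by simpa using padicNorm.of_int (p := l) 2) _

theorem jf_wf0 (a : ℤ) : Fil l 0 0 (wf ℚ a) := by
  unfold wf
  exact jf_lin0 2 (by simpa using padicNorm.of_int (p := l) 2) _

theorem jf_inv0 {g : PowerSeries ℚ} (hg : Fil l 0 0 g)
    (h0 : padicNorm l (PowerSeries.constantCoeff g) = 1) : Fil l 0 0 g⁻¹ := by
  simpa using Fil.inv hg (by simpa using h0)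

theorem jf_mul0 {g h : PowerSeries ℚ} (hg : Fil l 0 0 g) (hh : Fil l 0 0 h) : Fil l 0 0 (g * h) := by
  simpa using Fil.mul hg hh

theorem jf_fpos0 (i : ℕ) (hi : 2 * (i : ℤ) < l) : Fil l 0 0 (fpos ℚ i) := by
  induction i with
  | zero => exact Fil.one
  | succ i ih =>
    push_cast at hi
    refine jf_mul0 (jf_mul0 (jf_wf0 _) (jf_inv0 (jf_hf0 _) ?_)) (ih (by linarith))
    rw [coeff_hf_zero]
    exact jf_unit _ (jf_unit_of_lt _ (by omega) (by
      rw [abs_of_nonneg (by positivity)]; linarith))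

theorem jf_fneg0 (k : ℕ) (hk : 2 * (k : ℤ) < l) : Fil l 0 0 (fneg ℚ k) := by
  induction k with
  | zero => exact Fil.one
  | succ k ih =>
    push_cast at hk
    refine jf_mul0 (jf_mul0 (jf_hf0 _) (jf_inv0 (jf_wf0 _) ?_)) (ih (by linarith))
    rw [coeff_wf_zero]
    refine jf_unit _ (jf_unit_of_lt _ (by omega) ?_)
    rw [abs_lt]; constructor <;> linarith

theorem jet_int (hl2 : l ≠ 2) (a : ℤ) (ha : 2 * |a| < l) : Fil l 0 0 (jet ℚ a) := by
  cases a with
  | ofNat i =>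
    exact jf_fpos0 i (by
      rw [Int.ofNat_eq_natCast, abs_of_nonneg (Int.natCast_nonneg i)] at ha
      exact ha)
  | negSucc k =>
    refine jf_fneg0 (k + 1) ?_
    rw [Int.negSucc_eq, abs_neg, abs_of_nonneg (by positivity)] at ha
    push_cast
    exact ha

theorem jf_Wconst (K : ℕ) (a : ℤ) :
    PowerSeries.constantCoeff (Wa ℚ K a) = ∏ b ∈ (nd K).erase a, (((a - b : ℤ) : ℚ)) ^ 3 := by
  unfold Wa
  rw [map_prod]
  refine prod_congr rfl fun b _ => ?_
  rw [map_pow, map_add, PowerSeries.constantCoeff_X, zero_add, PowerSeries.constantCoeff_C]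

theorem jf_norm_prod {ι : Type} (t : Finset ι) (f : ι → ℚ) :
    padicNorm l (∏ i ∈ t, f i) = ∏ i ∈ t, padicNorm l (f i) := by
  classical
  induction t using Finset.induction_on with
  | empty => simp
  | insert i t hi ih => rw [prod_insert hi, prod_insert hi, padicNorm.mul, ih]

theorem jf_norm_pow (x : ℚ) (n : ℕ) : padicNorm l (x ^ n) = padicNorm l x ^ n := by
  induction n with
  | zero => simp
  | succ n ih => rw [pow_succ, pow_succ, padicNorm.mul, ih]

theorem jf_nu (K : ℕ) (a : ℤ) (ha : a ∈ nd K) :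
    ∑ b ∈ (nd K).erase a, jfe l (a - b) = (nu K l (a : ZMod l) : ℤ) - 1 := by
  have h1 : ∑ b ∈ (nd K).erase a, jfe l (a - b) + jfe l (a - a) = ∑ b ∈ nd K, jfe l (a - b) :=
    sum_erase_add _ _ ha
  have h2 : jfe l (a - a) = 1 := by
    unfold jfe; rw [if_pos (by rw [sub_self]; exact dvd_zero _)]
  have h3 : ∑ b ∈ nd K, jfe l (a - b) = (nu K l (a : ZMod l) : ℤ) := by
    unfold nu jfe
    rw [card_filter]
    push_cast
    refine sum_congr rfl fun b _ => ?_
    congr 1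
    apply propext
    rw [← ZMod.intCast_zmod_eq_zero_iff_dvd]
    push_cast
    rw [sub_eq_zero]
    exact eq_comm
  linarith

theorem Wa_one (K : ℕ) (hK : 2 * K + 1 < l ^ 2) (a : ℤ) (ha : a ∈ nd K) :
    Fil l 1 (-(3 * ((nu K l (a : ZMod l) : ℤ) - 1))) (Wa ℚ K a)⁻¹ := by
  have hfac : ∀ b : ℤ, Fil l 1 (jfe l (a - b))
      (PowerSeries.X + PowerSeries.C ((a - b : ℤ) : ℚ)) := by
    intro b
    have h := Fil.lin (l := l) (s := 1) (e := jfe l (a - b)) (1 : ℚ) ((a - b : ℤ) : ℚ)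
      (jf_norm_le (a - b)) (by
        rw [padicNorm.one]
        apply one_le_zpow₀ jf_one_lt.le
        have := jfe_le_one (l := l) (a - b)
        push_cast
        omega)
    rwa [map_one, one_mul] at h
  have h1 : Fil l 1 (∑ b ∈ (nd K).erase a, (3 : ℕ) * jfe l (a - b)) (Wa ℚ K a) := by
    unfold Wa
    exact Fil.prod _ _ _ fun b _ => Fil.pow (hfac b) 3
  have h2 : ∑ b ∈ (nd K).erase a, ((3 : ℕ) : ℤ) * jfe l (a - b)
      = 3 * ((nu K l (a : ZMod l) : ℤ) - 1) := by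
    rw [← mul_sum, jf_nu K a ha]; norm_num
  rw [h2] at h1
  apply Fil.inv h1
  rw [jf_Wconst, jf_norm_prod]
  rw [← h2, ← sum_neg_distrib]
  rw [show (l : ℚ) ^ (∑ b ∈ (nd K).erase a, -(((3 : ℕ) : ℤ) * jfe l (a - b)))
    = ∏ b ∈ (nd K).erase a, (l : ℚ) ^ (-(((3 : ℕ) : ℤ) * jfe l (a - b))) from by
      classical
      induction (nd K).erase a using Finset.induction_on with
      | empty => simp
      | insert i t hi ih => rw [sum_insert hi, prod_insert hi, zpow_add₀ jf_pos.ne', ih]]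
  refine prod_congr rfl fun b hb => ?_
  rw [mem_erase, nd, mem_Icc] at hb
  rw [nd, mem_Icc] at ha
  rw [jf_norm_pow, jf_norm_eq (a - b) (jf_not_dvd hK _ (sub_ne_zero.2 (Ne.symm hb.1)) (by
    rw [abs_le]; constructor <;> linarith [ha.1, ha.2, hb.2.1, hb.2.2]))]
  rw [← zpow_natCast, ← zpow_mul]
  congr 1
  push_cast
  ring

theorem Wa_int (K : ℕ) (a : ℤ) (ha : a ∈ nd K) (h1 : nu K l (a : ZMod l) = 1) :
    Fil l 0 0 (Wa ℚ K a)⁻¹ := by
  have h2 := jf_nu (l := l) K a ha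
  rw [h1] at h2
  have h3 : ∀ b ∈ (nd K).erase a, jfe l (a - b) = 0 := by
    rw [← sum_eq_zero_iff_of_nonneg fun b _ => jfe_nonneg (a - b)]
    rw [h2]; norm_num
  have h4 : ∀ b ∈ (nd K).erase a, ¬ (l : ℤ) ∣ a - b := by
    intro b hb hd
    have := h3 b hb
    unfold jfe at this
    rw [if_pos hd] at this
    norm_num at this
  have hfac : ∀ b : ℤ, Fil l 0 0 (PowerSeries.X + PowerSeries.C ((a - b : ℤ) : ℚ)) := by
    intro b
    have h := jf_lin0 (l := l) (1 : ℚ) (by rw [padicNorm.one]) (a - b)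
    rwa [map_one, one_mul] at h
  have h5 : Fil l 0 0 (Wa ℚ K a) := by
    unfold Wa
    have := Fil.prod (l := l) (s := 0) ((nd K).erase a) (fun _ => 0)
      (fun b => (PowerSeries.X + PowerSeries.C ((a - b : ℤ) : ℚ)) ^ 3)
      fun b _ => by simpa using Fil.pow (hfac b) 3
    simpa using this
  apply jf_inv0 h5
  rw [jf_Wconst, jf_norm_prod]
  apply prod_eq_one
  intro b hb
  rw [jf_norm_pow, jf_unit _ (h4 b hb), one_pow]

theorem Jt_one (hl2 : l ≠ 2) (K : ℕ) (hK : 2 * K + 1 < l ^ 2) (a : ℤ) (ha : a ∈ nd K) (h : ℚ[X])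
    (n : ℤ) (hh : Fil l 1 n (tl ℚ a h)) :
    padicNorm l (Jt ℚ K a h) ≤
      (l : ℚ) ^ (3 * (nu K l (a : ZMod l) : ℤ) - 1 - (oo l (a : ZMod l) : ℤ) - n) := by
  have h1 := Fil.mul (Fil.mul (jet_one hl2 K hK a ha) hh) (Wa_one K hK a ha) 2
  unfold Jt
  refine h1.trans (le_of_eq ?_)
  congr 1
  push_cast
  ring

theorem Jt_int (hl2 : l ≠ 2) (K : ℕ) (a : ℤ) (ha : a ∈ nd K) (h1 : nu K l (a : ZMod l) = 1)
    (h2 : 2 * |a| < l) (h : ℚ[X]) (hh : Fil l 0 0 (tl ℚ a h)) :
    padicNorm l (Jt ℚ K a h) ≤ 1 := by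
  have h3 := jf_mul0 (jf_mul0 (jet_int hl2 a h2) hh) (Wa_int K a ha h1) 2
  unfold Jt
  simpa using h3

theorem alone (K : ℕ) (hK : K < l) (a : ℤ) (ha : a ∈ nd K) (h1 : nu K l (a : ZMod l) = 1) :
    2 * |a| < l := by
  have hl0 : (0 : ℤ) < l := by exact_mod_cast (Fact.out : l.Prime).pos
  unfold nu at h1
  rw [card_eq_one] at h1
  obtain ⟨c, hc⟩ := h1
  have hac : a = c := by
    have : a ∈ ({c} : Finset ℤ) := by rw [← hc, mem_filter]; exact ⟨ha, rfl⟩
    simpa using this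
  have key : ∀ b : ℤ, (b : ZMod l) = (a : ZMod l) → b ≠ a → b ∉ nd K := by
    intro b h2 h3 h4
    have : b ∈ ({c} : Finset ℤ) := by rw [← hc, mem_filter]; exact ⟨h4, h2⟩
    rw [mem_singleton, ← hac] at this
    exact h3 this
  rw [nd, mem_Icc] at ha
  have hm := key (a - l) (by push_cast; simp) (by omega)
  have hp := key (a + l) (by push_cast; simp) (by omega)
  rw [nd, mem_Icc] at hm hp
  rcases abs_cases a with ⟨h2, h3⟩ | ⟨h2, h3⟩
  · rw [h2]
    by_contra hcon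
    exact hm ⟨by omega, by omega⟩
  · rw [h2]
    by_contra hcon
    exact hp ⟨by omega, by omega⟩

/-- integral polynomials -/
theorem tl_int (a : ℤ) (h : ℚ[X]) (hh : ∀ n, padicNorm l (h.coeff n) ≤ 1) :
    Fil l 0 0 (tl ℚ a h) := by
  intro n
  unfold tl
  rw [Polynomial.coeff_coe, taylor_coeff, eval_eq_sum_range]
  have : ((0 : ℕ) : ℤ) * (n : ℤ) - 0 = 0 := by norm_num
  rw [this, zpow_zero]
  apply padicNorm.sum_le' (fun i _ => ?_) zero_le_one
  rw [hasseDeriv_coeff, padicNorm.mul, padicNorm.mul, jf_norm_pow]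
  have h1 := padicNorm.of_nat (p := l) ((i + n).choose n)
  have h2 := hh (i + n)
  have h3 := padicNorm.of_int (p := l) a
  have n1 := padicNorm.nonneg (p := l) (((i + n).choose n : ℕ) : ℚ)
  have n2 := padicNorm.nonneg (p := l) (h.coeff (i + n))
  have n3 := padicNorm.nonneg (p := l) ((a : ℤ) : ℚ)
  exact mul_le_one₀ (mul_le_one₀ h1 n2 h2) (pow_nonneg n3 _) (pow_le_one₀ n3 h3)

/-- all primes `l > 2 K`: the determinant is `l`-integral.  (All classes have at most one node, `Jt_int` at every node,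
`D_padic` of `Lei` with `u = v = w = 0`; or directly `D0`.) -/
theorem J_int (hl2 : l ≠ 2) (K : ℕ) (hK : 2 * K < l) (h : ℚ[X]) (hh : ∀ n, padicNorm l (h.coeff n) ≤ 1) :
    padicNorm l (J ℚ K h) ≤ 1 := by
  unfold J
  apply padicNorm.sum_le' (fun a ha => ?_) zero_le_one
  have hK' : 2 * (K : ℤ) < l := by exact_mod_cast hK
  have h1 : nu K l (a : ZMod l) = 1 := by
    have h2 := jf_nu (l := l) K a ha
    have h3 : ∑ b ∈ (nd K).erase a, jfe l (a - b) = 0 := by
      apply sum_eq_zero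
      intro b hb
      unfold jfe
      rw [if_neg]
      rw [mem_erase, nd, mem_Icc] at hb
      rw [nd, mem_Icc] at ha
      apply jf_unit_of_lt _ (sub_ne_zero.2 (Ne.symm hb.1))
      rw [abs_lt]; constructor <;> linarith [ha.1, ha.2, hb.2.1, hb.2.2]
    rw [h3] at h2
    have : ((nu K l (a : ZMod l) : ℕ) : ℤ) = 1 := by linarith
    exact_mod_cast this
  refine Jt_int hl2 K a ha h1 ?_ h (tl_int a h hh)
  rw [nd, mem_Icc] at ha
  have : |a| ≤ K := abs_le.2 ⟨ha.1, ha.2⟩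
  linarith

end Pool.Agent.H27.EV
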