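import Pool.Agent.H27.EV.JF
import Pool.Agent.H27.EV.Greedy
import Pool.Agent.H27.EV.Cnt
import Pool.Agent.H27.EV.Lin
import Pool.Agent.H27.EV.Lei

/-!
# EV Mid: the exponent of a prime `l ≤ K` with `l ^ 2 > 2 K + 1`, and of `K < l ≤ 2 K`

`rowP l c i = ∏_{t < i} (X ^ 2 - C (c t) ^ 2)`, `c t ∈ Fin ((l + 1) / 2)`; `colQ l d j = ∏_{t < j} (X - C (d t).valMinAbs)`,
`d t ∈ ZMod l`.

`row_fil`: at a node `a` with `|valMinAbs a| = r`: `X ^ 2 - (c t) ^ 2 = (X - c t)(X + c t)` at `a`: `(y + a - c t)(y + a + c t)`,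
both factors are in `Fil l 1 0` and if `c t = r` one of them is in `Fil l 1 1` (`a ≡ ± r`), so
`tl a (rowP i) ∈ Fil l 1 #{t < i : c t = r}`; similarly `col_fil` with `#{t < j : d t = a}`; integrality of the
coefficients.

`loc_mid`: `greedy` with `U r = 2 nu r - 1` on `Fin ((l + 1) / 2)` and with `V c = nu c - oo c` on `ZMod l`.  At the node `a` of
class `c`: `3 nu - 1 - oo - n_P - n_Q ≤ (2 nu - 1 - n_P) + (nu - oo - n_Q) ≤ u i + v j` (`nu c ≥ 2` as `2 l ≤ 2 K + 1`,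
`nu (r) = nu (c)` by `nu_neg`), `Jt_one`, ultrametric inequality over the nodes; `D_padic` with `w = 0`; `D_change`.  The sum:
`greedy` with `x0 = q = (2 K + 1) / l` (rows, `k = K + 5`) and `y0` (columns, `k = K`), `rows_mid`, `cols_mid`:
`e ≤ (K + 5) q + (t tri (q+1) + (l - t) tri (q - 1) + tri (q + 1)) / 2 + K y0 + (t (q+1-y0)^2 + (l-t)(q-y0)^2 + q + 1) / 2`.

`mid_num`: real arithmetic.  With `n = 2 K + 1 = q l + t`, `z = n / l = q + θ`, `θ = t / l`, the sum without the small terms is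
`≤ l [ (3/4) z^2 - z/4 + (3/4) θ (1 - θ) ] + (l/2) [ (3/4) z^2 + (y0 - z/2)^2 + θ (1 - θ) ]` (replace `K` by `n / 2`), i.e.
`(9/8) n^2 / l - n / 4 + l [ (5/4) θ (1 - θ) + (y0 - z/2)^2 / 2 ]`; take `y0 = q / 2` for even `q`, `(q + 1) / 2` for odd `q`:
then `(y0 - z/2)^2 = θ^2 / 4` resp. `(1 - θ)^2 / 4` and the bracket is at most `25/72`
(`(5/4) θ - (9/8) θ^2 ≤ 25/72`).  `(9/8) n^2 = (9/2) (K + 1/2)^2`, `n / 4 = K/2 + 1/4`.
-/

set_option autoImplicit false

noncomputable section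

namespace Pool.Agent.H27.EV

open Polynomial Finset

variable {l : ℕ} [Fact l.Prime]

/-- row polynomials -/
def rowP (l : ℕ) (c : ℕ → Fin ((l + 1) / 2)) (i : ℕ) : ℚ[X] :=
  ∏ t ∈ range i, (X ^ 2 - C (((c t : ℕ) : ℚ) ^ 2))

/-- column polynomials -/
def colQ (l : ℕ) (d : ℕ → ZMod l) (j : ℕ) : ℚ[X] :=
  ∏ t ∈ range j, (X - C (((d t).valMinAbs : ℤ) : ℚ))

omit [Fact l.Prime] in
theorem mid_rowP_expand (c : ℕ → Fin ((l + 1) / 2)) (i : ℕ) :
    rowP l c i = expand ℚ 2 (∏ t ∈ range i, (X - C (((c t : ℕ) : ℚ) ^ 2))) := by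
  unfold rowP
  rw [map_prod]
  refine prod_congr rfl fun t _ => ?_
  rw [map_sub, expand_X, expand_C]

omit [Fact l.Prime] in
theorem mid_rowP_int (c : ℕ → Fin ((l + 1) / 2)) (i : ℕ) :
    rowP l c i = Polynomial.map (Int.castRingHom ℚ) (∏ t ∈ range i, (X ^ 2 - C (((c t : ℕ) : ℤ) ^ 2))) := by
  unfold rowP
  rw [Polynomial.map_prod]
  refine prod_congr rfl fun t _ => ?_
  rw [Polynomial.map_sub, Polynomial.map_pow, Polynomial.map_X, Polynomial.map_C]
  simp

omit [Fact l.Prime] in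
theorem mid_colQ_int (d : ℕ → ZMod l) (j : ℕ) :
    colQ l d j = Polynomial.map (Int.castRingHom ℚ) (∏ t ∈ range j, (X - C ((d t).valMinAbs))) := by
  unfold colQ
  rw [Polynomial.map_prod]
  refine prod_congr rfl fun t _ => ?_
  rw [Polynomial.map_sub, Polynomial.map_X, Polynomial.map_C]
  simp

theorem rowP_ev (c : ℕ → Fin ((l + 1) / 2)) (i : ℕ) : IsEv i (rowP l c i) := by
  refine ⟨?_, ?_, ?_⟩
  · unfold rowP
    exact monic_prod_of_monic _ _ fun t _ => monic_X_pow_sub_C _ two_ne_zero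
  · unfold rowP
    rw [natDegree_prod_of_monic _ _ fun t _ => monic_X_pow_sub_C _ two_ne_zero]
    simp only [natDegree_X_pow_sub_C, sum_const, card_range, smul_eq_mul]
    ring
  · intro n hn
    rw [mid_rowP_expand, coeff_expand two_pos, if_neg]
    intro h
    exact hn (even_iff_two_dvd.2 h)

theorem colQ_mon (d : ℕ → ZMod l) (j : ℕ) : IsMon j (colQ l d j) := by
  refine ⟨?_, ?_⟩
  · unfold colQ
    exact monic_prod_of_monic _ _ fun t _ => monic_X_sub_C _
  · unfold colQ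
    rw [natDegree_prod_of_monic _ _ fun t _ => monic_X_sub_C _]
    simp only [natDegree_X_sub_C, sum_const, card_range, smul_eq_mul, mul_one]

theorem rowP_int (c : ℕ → Fin ((l + 1) / 2)) (i n : ℕ) : padicNorm l ((rowP l c i).coeff n) ≤ 1 := by
  rw [mid_rowP_int, coeff_map]
  exact padicNorm.of_int _

theorem colQ_int (d : ℕ → ZMod l) (j n : ℕ) : padicNorm l ((colQ l d j).coeff n) ≤ 1 := by
  rw [mid_colQ_int, coeff_map]
  exact padicNorm.of_int _

theorem mid_prod_int (c : ℕ → Fin ((l + 1) / 2)) (d : ℕ → ZMod l) (i j n : ℕ) :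
    padicNorm l ((rowP l c i * colQ l d j).coeff n) ≤ 1 := by
  rw [mid_rowP_int, mid_colQ_int, ← Polynomial.map_mul, coeff_map]
  exact padicNorm.of_int _

/-- a linear factor `y + z`, `z` an integer -/
theorem mid_lin0 (z : ℤ) : Fil l 1 0 (PowerSeries.X + PowerSeries.C ((z : ℤ) : ℚ)) := by
  have h := Fil.lin (l := l) (s := 1) (e := 0) 1 (z : ℚ) (by simpa using padicNorm.of_int z) (by
    have h1 : (1 : ℚ) ≤ (l : ℚ) := by exact_mod_cast (Fact.out : l.Prime).one_lt.le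
    simpa using h1)
  simpa using h

/-- a linear factor `y + z`, `l ∣ z` -/
theorem mid_lin1 (z : ℤ) (hz : (l : ℤ) ∣ z) : Fil l 1 1 (PowerSeries.X + PowerSeries.C ((z : ℤ) : ℚ)) := by
  have h0 : padicNorm l (z : ℚ) ≤ (l : ℚ) ^ (-(1 : ℤ)) := by
    have h1 := (padicNorm.dvd_iff_norm_le (p := l) (n := 1) (z := z)).1 (by simpa using hz)
    simpa using h1
  have h := Fil.lin (l := l) (s := 1) (e := 1) 1 (z : ℚ) h0 (by simp)
  simpa using h

theorem mid_tl_X_sub (a z : ℤ) : tl ℚ a (X - C ((z : ℤ) : ℚ)) =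
    PowerSeries.X + PowerSeries.C (((a - z : ℤ)) : ℚ) := by
  have h : (X - C ((z : ℤ) : ℚ) : ℚ[X]) = X + C (((-z : ℤ)) : ℚ) := by
    rw [Int.cast_neg, C_neg, sub_eq_add_neg]
  rw [h, tl_add, tl_X, tl_C, add_assoc, ← map_add]
  congr 2
  push_cast
  ring

/-- the class of the node in terms of `r` -/
theorem mid_class (a : ℤ) (r : ℕ) (hr : ((a : ZMod l).valMinAbs).natAbs = r) :
    (l : ℤ) ∣ a - r ∨ (l : ℤ) ∣ a + r := by
  have h1 : ((((a : ZMod l).valMinAbs : ℤ)) : ZMod l) = (a : ZMod l) := ZMod.coe_valMinAbs _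
  rcases Int.natAbs_eq ((a : ZMod l).valMinAbs) with h2 | h2
  · left
    rw [hr] at h2
    rw [h2] at h1
    have h3 : (((a - (r : ℤ)) : ℤ) : ZMod l) = 0 := by
      rw [Int.cast_sub, ← h1, sub_self]
    exact (ZMod.intCast_zmod_eq_zero_iff_dvd _ _).1 h3
  · right
    rw [hr] at h2
    rw [h2] at h1
    have h3 : (((a + (r : ℤ)) : ℤ) : ZMod l) = 0 := by
      rw [Int.cast_add, ← h1]
      push_cast
      ring
    exact (ZMod.intCast_zmod_eq_zero_iff_dvd _ _).1 h3

theorem row_fil (hl2 : l ≠ 2) (c : ℕ → Fin ((l + 1) / 2)) (i : ℕ) (a : ℤ) (r : Fin ((l + 1) / 2))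
    (hr : ((a : ZMod l).valMinAbs).natAbs = (r : ℕ)) :
    Fil l 1 (((range i).filter fun t => c t = r).card : ℤ) (tl ℚ a (rowP l c i)) := by
  induction i with
  | zero =>
    have h : rowP l c 0 = 1 := by simp [rowP]
    rw [h, tl_one]
    simpa using Fil.one (l := l) (s := 1)
  | succ i ih =>
    have h : rowP l c (i + 1) = rowP l c i *
        ((X - C (((c i : ℕ) : ℤ) : ℚ)) * (X - C (((-((c i : ℕ) : ℤ)) : ℤ) : ℚ))) := by
      unfold rowP
      rw [prod_range_succ]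
      congr 1
      rw [C_pow]
      push_cast
      rw [C_neg]
      ring
    rw [h, tl_mul, tl_mul, mid_tl_X_sub, mid_tl_X_sub]
    have hc : (((range (i + 1)).filter fun t => c t = r).card : ℤ) =
        ((range i).filter fun t => c t = r).card + if c i = r then 1 else 0 := by
      rw [range_add_one, filter_insert]
      by_cases h1 : c i = r
      · rw [if_pos h1, if_pos h1, card_insert_of_notMem (by simp)]
        push_cast
        ring
      · rw [if_neg h1, if_neg h1, add_zero]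
    rw [hc]
    refine Fil.mul ih ?_
    by_cases h1 : c i = r
    · rw [if_pos h1]
      have h2 := mid_class (l := l) a (r : ℕ) hr
      rw [h1]
      rcases h2 with h2 | h2
      · have := Fil.mul (mid_lin1 (l := l) (a - ((r : ℕ) : ℤ)) h2) (mid_lin0 (l := l) (a - (-((r : ℕ) : ℤ))))
        simpa using this
      · have := Fil.mul (mid_lin0 (l := l) (a - ((r : ℕ) : ℤ))) (mid_lin1 (l := l) (a - (-((r : ℕ) : ℤ)))
          (by rwa [sub_neg_eq_add]))
        simpa using this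
    · rw [if_neg h1]
      have := Fil.mul (mid_lin0 (l := l) (a - ((c i : ℕ) : ℤ))) (mid_lin0 (l := l) (a - (-((c i : ℕ) : ℤ))))
      simpa using this

theorem col_fil (d : ℕ → ZMod l) (j : ℕ) (a : ℤ) :
    Fil l 1 (((range j).filter fun t => d t = (a : ZMod l)).card : ℤ) (tl ℚ a (colQ l d j)) := by
  induction j with
  | zero =>
    have h : colQ l d 0 = 1 := by simp [colQ]
    rw [h, tl_one]
    simpa using Fil.one (l := l) (s := 1)
  | succ j ih =>
    have h : colQ l d (j + 1) = colQ l d j * (X - C (((d j).valMinAbs : ℤ) : ℚ)) := by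
      unfold colQ
      rw [prod_range_succ]
    rw [h, tl_mul, mid_tl_X_sub]
    have hc : (((range (j + 1)).filter fun t => d t = (a : ZMod l)).card : ℤ) =
        ((range j).filter fun t => d t = (a : ZMod l)).card + if d j = (a : ZMod l) then 1 else 0 := by
      rw [range_add_one, filter_insert]
      by_cases h1 : d j = (a : ZMod l)
      · rw [if_pos h1, if_pos h1, card_insert_of_notMem (by simp)]
        push_cast
        ring
      · rw [if_neg h1, if_neg h1, add_zero]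
    rw [hc]
    refine Fil.mul ih ?_
    by_cases h1 : d j = (a : ZMod l)
    · rw [if_pos h1]
      apply mid_lin1
      apply (ZMod.intCast_zmod_eq_zero_iff_dvd _ _).1
      rw [Int.cast_sub, ZMod.coe_valMinAbs, h1, sub_self]
    · rw [if_neg h1]
      exact mid_lin0 _

/-- every node has a representative `r` -/
theorem mid_rep (hl2 : l ≠ 2) (K : ℕ) (a : ℤ) : ∃ r : Fin ((l + 1) / 2),
    ((a : ZMod l).valMinAbs).natAbs = (r : ℕ) ∧ nu K l ((r : ℕ) : ZMod l) = nu K l (a : ZMod l) := by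
  have hl : l.Prime := Fact.out
  have h1 : ((a : ZMod l).valMinAbs).natAbs ≤ l / 2 := ZMod.natAbs_valMinAbs_le _
  have hodd : l % 2 = 1 := by
    rcases hl.eq_two_or_odd with h | h
    · exact absurd h hl2
    · exact h
  refine ⟨⟨((a : ZMod l).valMinAbs).natAbs, by omega⟩, rfl, ?_⟩
  show nu K l ((((a : ZMod l).valMinAbs).natAbs : ℕ) : ZMod l) = _
  have h2 : ((((a : ZMod l).valMinAbs : ℤ)) : ZMod l) = (a : ZMod l) := ZMod.coe_valMinAbs _
  rcases Int.natAbs_eq ((a : ZMod l).valMinAbs) with h3 | h3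
  · have h4 : ((((a : ZMod l).valMinAbs).natAbs : ℕ) : ZMod l) = (a : ZMod l) := by
      have h5 : (((((a : ZMod l).valMinAbs).natAbs : ℕ) : ℤ) : ZMod l) = (a : ZMod l) := by
        rw [← h3]
        exact h2
      rwa [Int.cast_natCast] at h5
    rw [h4]
  · have h4 : ((((a : ZMod l).valMinAbs).natAbs : ℕ) : ZMod l) = -(a : ZMod l) := by
      have h5 : ((-((((a : ZMod l).valMinAbs).natAbs : ℕ) : ℤ) : ℤ) : ZMod l) = (a : ZMod l) := by
        rw [← h3]
        exact h2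
      rw [Int.cast_neg, Int.cast_natCast] at h5
      exact (neg_eq_iff_eq_neg.1 h5)
    rw [h4, nu_neg]

/-- the determinant from bounds for the entries -/
theorem mid_det (K : ℕ) (E : Fin 5 → Fin (K + 5)) (c : ℕ → Fin ((l + 1) / 2)) (d : ℕ → ZMod l) (u v : ℕ → ℕ)
    (h : ∀ i j, ∀ a ∈ nd K, padicNorm l (Jt ℚ K a (rowP l c i * colQ l d j)) ≤ (l : ℚ) ^ ((u i : ℤ) + (v j : ℤ))) :
    padicNorm l (D0 K E) ≤
      (l : ℚ) ^ ((∑ i ∈ range (K + 5), u i + ∑ j ∈ range K, v j : ℕ) : ℤ) := by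
  have hl1 : (1 : ℚ) ≤ (l : ℚ) := by exact_mod_cast (Fact.out : l.Prime).one_lt.le
  rw [← D_change K E (rowP_ev c) (colQ_mon d)]
  have h1 := D_padic l K E (rowP l c) (colQ l d) (fun i => (u i : ℤ)) (fun j => (v j : ℤ)) 0 (fun i _ j _ => ?_)
    (fun i _ s _ => ?_)
  · refine h1.trans_eq ?_
    congr 1
    push_cast
    ring
  · unfold J
    exact padicNorm.sum_le' (fun a ha => h i j a ha) (by positivity)
  · refine (rowP_int c i _).trans ?_
    rw [add_zero]
    exact one_le_zpow₀ hl1 (Int.natCast_nonneg _)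

/-- the exponent as an integer expression -/
theorem loc_mid_aux (hl2 : l ≠ 2) (K : ℕ) (hlK : l ≤ K) (hK : 2 * K + 1 < l ^ 2)
    (E : Fin 5 → Fin (K + 5)) (y0 : ℕ) :
    ∃ e : ℕ, padicNorm l (D0 K E) ≤ (l : ℚ) ^ (e : ℤ) ∧
      2 * (e : ℤ) ≤ 2 * (K + 5) * ((2 * K + 1) / l : ℕ)
        + (((2 * K + 1) % l) * tri ((2 * K + 1) / l + 1)
            + (l - (2 * K + 1) % l) * tri ((2 * K + 1) / l - 1) + tri ((2 * K + 1) / l + 1) : ℕ)
        + 2 * K * y0
        + ((((2 * K + 1) % l : ℕ) : ℤ) * ((((2 * K + 1) / l : ℕ) : ℤ) + 1 - y0) ^ 2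
          + ((l : ℤ) - ((2 * K + 1) % l : ℕ)) * ((((2 * K + 1) / l : ℕ) : ℤ) - y0) ^ 2
          + (((2 * K + 1) / l : ℕ) : ℤ) + 1) := by
  have hl : l.Prime := Fact.out
  have hodd : Odd l := hl.odd_of_ne_two hl2
  have hl1 : (1 : ℚ) ≤ (l : ℚ) := by exact_mod_cast hl.one_lt.le
  have hne : Nonempty (Fin ((l + 1) / 2)) := ⟨⟨0, by have := hl.two_le; omega⟩⟩
  obtain ⟨c, u, hu1, hu2⟩ := greedy (fun r : Fin ((l + 1) / 2) => 2 * nu K l ((r : ℕ) : ZMod l) - 1)
  obtain ⟨d, v, hv1, hv2⟩ := greedy (fun x : ZMod l => nu K l x - oo l x)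
  refine ⟨∑ i ∈ range (K + 5), u i + ∑ j ∈ range K, v j, mid_det K E c d u v ?_, ?_⟩
  · intro i j a ha
    obtain ⟨r, hr, hnu⟩ := mid_rep hl2 K a
    have h1 := row_fil hl2 c i a r hr
    have h2 := col_fil d j a
    have h3 := Jt_one hl2 K hK a ha (rowP l c i * colQ l d j) _ (by rw [tl_mul]; exact Fil.mul h1 h2)
    refine h3.trans (zpow_le_zpow_right₀ hl1 ?_)
    have h4 := hu1 i r
    have h5 := hv1 j (a : ZMod l)
    simp only [hnu] at h4
    omega
  · have h1 := hu2 (K + 5) ((2 * K + 1) / l)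
    have h2 := hv2 K y0
    have h3 := rows_mid K hodd hlK
    have h4 := cols_mid K hodd y0
    have h1' : ((∑ i ∈ range (K + 5), u i : ℕ) : ℤ) ≤ (K + 5) * ((2 * K + 1) / l : ℕ) +
        ((∑ r : Fin ((l + 1) / 2), tri (2 * nu K l ((r : ℕ) : ZMod l) - 1 - (2 * K + 1) / l) : ℕ) : ℤ) := by
      exact_mod_cast h1
    have h2' : ((∑ j ∈ range K, v j : ℕ) : ℤ) ≤ K * y0 + ((∑ x : ZMod l, tri (nu K l x - oo l x - y0) : ℕ) : ℤ) := by
      exact_mod_cast h2
    have h3' : 2 * ((∑ r : Fin ((l + 1) / 2), tri (2 * nu K l ((r : ℕ) : ZMod l) - 1 - (2 * K + 1) / l) : ℕ) : ℤ) ≤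
        (((2 * K + 1) % l) * tri ((2 * K + 1) / l + 1)
            + (l - (2 * K + 1) % l) * tri ((2 * K + 1) / l - 1) + tri ((2 * K + 1) / l + 1) : ℕ) := by
      exact_mod_cast h3
    rw [Nat.cast_add]
    linarith

theorem loc_hi (hl2 : l ≠ 2) (K : ℕ) (h1 : K < l) (h2 : l ≤ 2 * K) (hK : 2 * K + 1 < l ^ 2)
    (E : Fin 5 → Fin (K + 5)) :
    ∃ e : ℕ, padicNorm l (D0 K E) ≤ (l : ℚ) ^ (e : ℤ) ∧
      e ≤ 2 * (2 * K + 1 - l) + min (3 * (2 * K + 1 - l)) (2 * K) + 5 := by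
  have hl : l.Prime := Fact.out
  have hodd : Odd l := hl.odd_of_ne_two hl2
  have hl1 : (1 : ℚ) ≤ (l : ℚ) := by exact_mod_cast hl.one_lt.le
  have hne : Nonempty (Fin ((l + 1) / 2)) := ⟨⟨0, by have := hl.two_le; omega⟩⟩
  have hq : (2 * K + 1) / l = 1 := by
    rw [Nat.div_eq_iff (by omega)]
    omega
  obtain ⟨c, u, hu1, hu2⟩ := greedy
    (fun r : Fin ((l + 1) / 2) => if nu K l ((r : ℕ) : ZMod l) = 2 then 3 else 0)
  obtain ⟨d, v, hv1, hv2⟩ := greedy (fun x : ZMod l => if nu K l x = 2 then 2 - oo l x else 0)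
  refine ⟨∑ i ∈ range (K + 5), u i + ∑ j ∈ range K, v j, mid_det K E c d u v ?_, ?_⟩
  · intro i j a ha
    obtain ⟨r, hr, hnu⟩ := mid_rep hl2 K a
    have hor := nu_or (l := l) K (a : ZMod l)
    rw [hq] at hor
    rcases hor with hor | hor
    · have h3 := Jt_int hl2 K a ha hor (alone K h1 a ha hor) (rowP l c i * colQ l d j)
        (tl_int a _ (mid_prod_int c d i j))
      refine h3.trans ?_
      exact one_le_zpow₀ hl1 (by positivity)
    · have h1 := row_fil hl2 c i a r hr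
      have h2 := col_fil d j a
      have h3 := Jt_one hl2 K hK a ha (rowP l c i * colQ l d j) _ (by rw [tl_mul]; exact Fil.mul h1 h2)
      refine h3.trans (zpow_le_zpow_right₀ hl1 ?_)
      have h4 := hu1 i r
      have h5 := hv1 j (a : ZMod l)
      simp only [hnu, hor] at h4 h5
      rw [hor]
      have h6 : oo l (a : ZMod l) ≤ 1 := by
        unfold oo
        split_ifs <;> omega
      simp only [if_true] at h4 h5
      push_cast
      omega
  · have a1 := hu2 (K + 5) 0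
    have a2 := hv2 K 0
    have a3 := rows_hi K hodd h1 h2 0
    have a4 := cols_hi K hodd h1 h2 0
    have b1 := hu2 (K + 5) 1
    have b2 := hv2 K 1
    have b3 := rows_hi K hodd h1 h2 1
    have b4 := cols_hi K hodd h1 h2 1
    have t0 : tri 0 = 0 := rfl
    have t1 : tri 1 = 1 := rfl
    have t2 : tri 2 = 3 := rfl
    have t3 : tri 3 = 6 := rfl
    simp only [Nat.sub_zero, Nat.sub_self, Nat.reduceSub, t0, t1, t2, t3, mul_zero, zero_add, mul_one, add_zero,
      Nat.reduceAdd] at a1 a2 a3 a4 b1 b2 b3 b4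
    set T := 2 * K + 1 - l with hT
    omega

end Pool.Agent.H27.EV
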