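import Pool.Agent.H27.EV.Defs

/-!
# EV MidNum: the real form of the exponent for `l ≤ K`

With `n = 2 K + 1 = q l + t`, `z = n / l = q + θ`, `θ = t / l`, `K ≤ n / 2`, `tri w ≤ w (w + 1) / 2`, `tri (q - 1) = (q - 1) q / 2`:
`K q + (t (q+1)(q+2)/2 + (l - t)(q-1) q / 2) / 2 ≤ l [ (3/4) z^2 - z/4 + (3/4) θ (1 - θ) ]` (equality with `K = n / 2`) and
`K y0 + (t (q+1-y0)^2 + (l-t)(q-y0)^2) / 2 ≤ (l/2) [ (3/4) z^2 + (y0 - z/2)^2 + θ (1 - θ) ]` (equality with `K = n / 2`).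
Sum: `(9/8) n^2 / l - n / 4 + l [ (5/4) θ (1 - θ) + (y0 - z/2)^2 / 2 ]`.  Take `y0 = q / 2` for even `q`, `(q + 1) / 2` for
odd `q`: `(y0 - z/2)^2 = θ^2 / 4` resp. `(1 - θ)^2 / 4`, and `(5/4) θ - (9/8) θ^2 ≤ 25/72` (twice, with `θ` or `1 - θ`).
`(9/8) n^2 / l = (9/2) K^2 / l + (9/2) K / l + (9/8) / l`, `n / 4 = K / 2 + 1 / 4`.  The remaining terms
`5 q + tri (q + 1) / 2 + (q + 1) / 2` are bounded by a multiple of `(1 + K / l) ^ 2`, `q ≤ 3 K / l`.
-/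

set_option autoImplicit false

namespace Pool.Agent.H27.EV

open Finset

theorem midnum_tri (w : ℕ) : 2 * tri w = w * (w + 1) := by
  unfold tri
  exact Nat.mul_div_cancel' (Nat.even_mul_succ_self w).two_dvd

/-- the real form -/
theorem midnum_real (K l q t y e : ℝ) (hl : 1 ≤ l) (hlK : l ≤ K) (hdiv : l * q + t = 2 * K + 1)
    (ht0 : 0 ≤ t) (hq : 2 ≤ q) (hy : 2 * y = q ∨ 2 * y = q + 1)
    (h : 4 * e ≤ 4 * (K + 5) * q + (t * ((q + 1) * (q + 2)) + (l - t) * ((q - 1) * q)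
      + (q + 1) * (q + 2)) + 4 * K * y + 2 * (t * (q + 1 - y) ^ 2 + (l - t) * (q - y) ^ 2
      + q + 1)) :
    e ≤ 9 / 2 * K ^ 2 / l - K / 2 + 25 / 72 * l + 40 * (1 + K / l) ^ 2 := by
  have hl0 : 0 < l := by linarith
  obtain ⟨k, hk⟩ : ∃ k, K = k * l := ⟨K / l, by field_simp⟩
  obtain ⟨u, hu⟩ : ∃ u, t = u * l := ⟨t / l, by field_simp⟩
  have hkl : K / l = k := by rw [hk]; field_simp
  have hk2 : 9 / 2 * K ^ 2 / l = 9 / 2 * k ^ 2 * l := by rw [hk]; field_simp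
  rw [hkl, hk2]
  have hk1 : 1 ≤ k := by
    by_contra hcon
    push Not at hcon
    have : k * l < 1 * l := mul_lt_mul_of_pos_right hcon hl0
    rw [← hk] at this
    linarith
  have hu0 : 0 ≤ u := by
    by_contra hcon
    push Not at hcon
    have : u * l < 0 * l := mul_lt_mul_of_pos_right hcon hl0
    rw [← hu] at this
    linarith
  -- `q + u = 2 k + 1 / l`
  have hqk : q ≤ 2 * k + 1 := by
    have h1 : l * q ≤ l * (2 * k + 1) := by
      have : l * q = 2 * K + 1 - t := by linarith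
      rw [this, hk]
      nlinarith
    exact le_of_mul_le_mul_left h1 hl0
  have hrest : 0 ≤ 160 * (1 + k) ^ 2 - 9 * (2 * k + 1) - 23 * (2 * k + 1) - (2 * k + 1) ^ 2 - 3 := by
    nlinarith
  have hqq : q ^ 2 ≤ (2 * k + 1) ^ 2 := by nlinarith
  rcases hy with hy | hy
  · have hy' : q = 2 * y := hy.symm
    have hsq : 0 ≤ l * (9 / 2 * (u - 5 / 9) ^ 2) := by positivity
    have hK : K = (l * q + u * l - 1) / 2 := by rw [← hu]; linarith
    have hkl' : k * l = (l * q + u * l - 1) / 2 := by rw [← hk]; exact hK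
    -- `18 k ^ 2 l = 9 k (l q + u l - 1)`
    have e1 : 18 * k ^ 2 * l = 9 * k * (l * q + u * l - 1) := by
      linear_combination 18 * k * hkl'
    have e2 : 9 * k * l * q = 9 * q * ((l * q + u * l - 1) / 2) := by
      linear_combination 9 * q * hkl'
    have e3 : 9 * k * l * u = 9 * u * ((l * q + u * l - 1) / 2) := by
      linear_combination 9 * u * hkl'
    have hul : u * l ≤ 2 * k * l + 1 - l * q := by
      rw [hu] at hdiv
      rw [hk] at hdiv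
      linarith
    rw [hu] at h
    rw [hK] at h
    rw [hK]
    subst hy'
    nlinarith
  · have hy' : q = 2 * y - 1 := by linarith
    have hsq : 0 ≤ l * (9 / 2 * (u - 4 / 9) ^ 2) := by positivity
    have hK : K = (l * q + u * l - 1) / 2 := by rw [← hu]; linarith
    have hkl' : k * l = (l * q + u * l - 1) / 2 := by rw [← hk]; exact hK
    have e1 : 18 * k ^ 2 * l = 9 * k * (l * q + u * l - 1) := by
      linear_combination 18 * k * hkl'
    have e2 : 9 * k * l * q = 9 * q * ((l * q + u * l - 1) / 2) := by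
      linear_combination 9 * q * hkl'
    have e3 : 9 * k * l * u = 9 * u * ((l * q + u * l - 1) / 2) := by
      linear_combination 9 * u * hkl'
    have hul : u * l ≤ 2 * k * l + 1 - l * q := by
      rw [hu] at hdiv
      rw [hk] at hdiv
      linarith
    rw [hu] at h
    rw [hK] at h
    rw [hK]
    subst hy'
    nlinarith

theorem mid_num (K l : ℕ) (hl : 1 ≤ l) (hlK : l ≤ K) : ∃ y0 : ℕ, ∀ e : ℕ,
    2 * (e : ℤ) ≤ 2 * (K + 5) * ((2 * K + 1) / l : ℕ)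
        + (((2 * K + 1) % l) * tri ((2 * K + 1) / l + 1)
            + (l - (2 * K + 1) % l) * tri ((2 * K + 1) / l - 1) + tri ((2 * K + 1) / l + 1) : ℕ)
        + 2 * K * y0
        + ((((2 * K + 1) % l : ℕ) : ℤ) * ((((2 * K + 1) / l : ℕ) : ℤ) + 1 - y0) ^ 2
          + ((l : ℤ) - ((2 * K + 1) % l : ℕ)) * ((((2 * K + 1) / l : ℕ) : ℤ) - y0) ^ 2
          + (((2 * K + 1) / l : ℕ) : ℤ) + 1) →
    (e : ℝ) ≤ 9 / 2 * (K : ℝ) ^ 2 / l - K / 2 + 25 / 72 * l + 40 * (1 + (K : ℝ) / l) ^ 2 := by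
  obtain ⟨q, hqd⟩ : ∃ q, q = (2 * K + 1) / l := ⟨_, rfl⟩
  obtain ⟨t, htd⟩ : ∃ t, t = (2 * K + 1) % l := ⟨_, rfl⟩
  rw [← hqd, ← htd]
  have hdiv : l * q + t = 2 * K + 1 := by rw [hqd, htd]; exact Nat.div_add_mod _ _
  have htl : t < l := by rw [htd]; exact Nat.mod_lt _ hl
  have hq2 : 2 ≤ q := by
    rw [hqd, Nat.le_div_iff_mul_le hl]
    omega
  clear hqd htd
  have h1 := midnum_tri (q + 1)
  have h2 := midnum_tri (q - 1)
  have hq1 : q - 1 + 1 = q := by omega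
  rw [hq1] at h2
  have key : ∀ y0 : ℕ, (2 * y0 = q ∨ 2 * y0 = q + 1) → ∀ e : ℕ,
      2 * (e : ℤ) ≤ 2 * (K + 5) * (q : ℤ)
        + (t * tri (q + 1) + (l - t) * tri (q - 1) + tri (q + 1) : ℕ)
        + 2 * K * y0
        + ((t : ℤ) * ((q : ℤ) + 1 - y0) ^ 2
          + ((l : ℤ) - (t : ℤ)) * ((q : ℤ) - y0) ^ 2
          + (q : ℤ) + 1) →
      (e : ℝ) ≤ 9 / 2 * (K : ℝ) ^ 2 / l - K / 2 + 25 / 72 * l + 40 * (1 + (K : ℝ) / l) ^ 2 := by
    intro y0 hy0 e he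
    refine midnum_real (K : ℝ) (l : ℝ) (q : ℝ) (t : ℝ) (y0 : ℝ) (e : ℝ) (by exact_mod_cast hl)
      (by exact_mod_cast hlK) (by exact_mod_cast hdiv) (Nat.cast_nonneg _)
      (by exact_mod_cast hq2) ?_ ?_
    · rcases hy0 with h | h
      · left; exact_mod_cast h
      · right; exact_mod_cast h
    · have h1' : 2 * ((tri (q + 1) : ℕ) : ℝ) = ((q : ℝ) + 1) * ((q : ℝ) + 2) := by
        have : 2 * ((tri (q + 1) : ℕ) : ℝ) = ((q + 1 : ℕ) : ℝ) * ((q + 1 + 1 : ℕ) : ℝ) := by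
          exact_mod_cast h1
        rw [this]
        push_cast
        ring
      have h2' : 2 * ((tri (q - 1) : ℕ) : ℝ) = ((q : ℝ) - 1) * (q : ℝ) := by
        have h3 : 2 * ((tri (q - 1) : ℕ) : ℝ) = ((q - 1 : ℕ) : ℝ) * (q : ℝ) := by
          exact_mod_cast h2
        rw [h3, Nat.cast_sub (by omega : 1 ≤ q)]
        simp
      have he' : 2 * (e : ℝ) ≤ 2 * (K + 5) * (q : ℝ)
        + (t * (tri (q + 1) : ℕ) + ((l : ℝ) - t) * (tri (q - 1) : ℕ) + (tri (q + 1) : ℕ))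
        + 2 * K * y0
        + ((t : ℝ) * ((q : ℝ) + 1 - y0) ^ 2
          + ((l : ℝ) - (t : ℝ)) * ((q : ℝ) - y0) ^ 2
          + (q : ℝ) + 1) := by
        have h4 : ((2 * (e : ℤ) : ℤ) : ℝ) ≤ ((2 * (K + 5) * (q : ℤ)
          + (t * tri (q + 1) + (l - t) * tri (q - 1) + tri (q + 1) : ℕ)
          + 2 * K * y0
          + ((t : ℤ) * ((q : ℤ) + 1 - y0) ^ 2
            + ((l : ℤ) - (t : ℤ)) * ((q : ℤ) - y0) ^ 2
            + (q : ℤ) + 1) : ℤ) : ℝ) := by exact_mod_cast he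
        push_cast [Nat.cast_sub htl.le] at h4
        exact h4
      have e5 : (t : ℝ) * (2 * ((tri (q + 1) : ℕ) : ℝ)) = t * (((q : ℝ) + 1) * ((q : ℝ) + 2)) := by
        rw [h1']
      have e6 : ((l : ℝ) - t) * (2 * ((tri (q - 1) : ℕ) : ℝ)) =
          ((l : ℝ) - t) * (((q : ℝ) - 1) * (q : ℝ)) := by rw [h2']
      nlinarith [h1', h2', he', e5, e6]
  rcases Nat.even_or_odd' q with ⟨c, hc | hc⟩
  · exact ⟨c, key c (Or.inl hc.symm)⟩
  · refine ⟨c + 1, key (c + 1) (Or.inr (by omega))⟩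

end Pool.Agent.H27.EV
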