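import Mathlib

/-!
# EV Num: the numerical inequality

`q0 = 2 ^ 16`.  `harmonic n ≥ log (n + 1) + c₁`, `c₁ = harmonic 127 - log 128 > .5733`, for `n ≥ 127`
(`Real.strictMono_eulerMascheroniSeq`: `eulerMascheroniSeq n = harmonic n - log (n + 1)`), and `harmonic n ≤ log n + c₂`,
`c₂ = harmonic 128 - log 128 < .5812`, for `n ≥ 128` (`Real.strictAnti_eulerMascheroniSeq'`).  So
`- 6 (harmonic (2 q0) - 1) + (3/2) (harmonic q0 - 1) ≤ - 6 (17 log 2 + c₁ - 1) + (3/2) (16 log 2 + c₂ - 1)`, the sum is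
`(9/2 + 5/3 + 72 - 102 + 24) log 2 + 3/8 - 1/2 + 2^(-17) + 25/144 + 7/3 + 6 - 3/2 - 6 c₁ + (3/2) c₂ + 200 / 2^16`
`≤ .16667 * .693148 + 6.88195 - 3.4398 + .8718 + .0031 = 4.4326 < 4.44`.
(`Real.log_two_lt_d9`, `Real.log_two_gt_d9`; `harmonic 127`, `harmonic 128` by `norm_num` or `decide` on numerators.)
-/

set_option autoImplicit false

namespace Pool.Agent.H27.EV

theorem num : (9 / 2 * Real.log 2 + 3 / 8) + 5 / 3 * Real.log 2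
    + (9 / 2 * Real.log ((2 ^ 16 : ℕ) : ℝ) - 1 / 2 + 1 / (2 * ((2 ^ 16 : ℕ) : ℝ)) + 25 / 144) + 7 / 3
    - (6 * ((harmonic (2 * 2 ^ 16) : ℚ) - 1 : ℝ) - 3 / 2 * ((harmonic (2 ^ 16) : ℚ) - 1 : ℝ))
    + 200 / ((2 ^ 16 : ℕ) : ℝ) < 4.44 := by
  sorry

end Pool.Agent.H27.EV
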