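import Mathlib

/-!
# EV Prod: product formula

`prod_formula`: `x ≠ 0` rational, `|x|_p ≤ p ^ (e p)` for the primes in the finite set `S`, `|x|_p ≤ 1` for the others.  Then
`y = x ∏_{p ∈ S} p ^ (e p)` has `|y|_p ≤ 1` for all `p`, so it is an integer (if the denominator were divisible by a prime `p`, then
`|y|_p > 1`), nonzero, `|y| ≥ 1`; take logarithms.

`log_fac`: `log n! = ∑_{p ≤ N} v_p (n!) log p` for `n ≤ N` (`Nat.factorization_prod_pow_eq_self`,
`Nat.log`...; the primes `p > n` do not divide `n!`).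

`val_fac`: for `n < l ^ 2`: `v_l (n!) = n / l` (Legendre, `padicValNat_factorial`).
-/

set_option autoImplicit false

namespace Pool.Agent.H27.EV

open Finset

theorem prod_formula (x : ℚ) (hx : x ≠ 0) (S : Finset ℕ) (hS : ∀ p ∈ S, p.Prime) (e : ℕ → ℤ)
    (h : ∀ p ∈ S, padicNorm p x ≤ (p : ℚ) ^ (e p)) (h' : ∀ p : ℕ, p.Prime → p ∉ S → padicNorm p x ≤ 1) :
    0 ≤ Real.log |(x : ℝ)| + ∑ p ∈ S, (e p : ℝ) * Real.log p := by
  sorry

theorem log_fac (n N : ℕ) (hn : n ≤ N) :
    Real.log n.factorial = ∑ p ∈ (Icc 1 N).filter Nat.Prime, (padicValNat p n.factorial : ℝ) * Real.log p := by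
  sorry

theorem val_fac (n l : ℕ) [Fact l.Prime] (h : n < l ^ 2) : padicValNat l n.factorial = n / l := by
  sorry

end Pool.Agent.H27.EV
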