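import Pool.Agent.H27.EV.Abel

/-!
# EV Sums: the sums over the primes `l ≤ 2 K` (asymptotics)

`small_sum`: `Nat.log l (4 K + 4) * log l ≤ log (4 K + 4)`, so each term is at most `30 K * 2 log (4 K + 4)`... (`l ≤ 4 K + 4`), and the
number of primes up to `x = K / q0` is at most `2 θ (x) / log x + sqrt x` with `θ (x) ≤ (1 + ε) x` (`win_one`); `log (4 K + 4) / log (K / q0) → 1`.
Total about `120 K ^ 2 / q0`, at most `200 K ^ 2 / q0`.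

`mid_sum`: `g n = 9/2 K^2 / n - K / 2 + 25/72 n + 40 (1 + K / n) ^ 2`.  The function `9/2 K^2 / x - K/2 + 25/72 x` is positive and
decreasing on `(0, K]` (derivative `- 9/2 K^2/x^2 + 25/72 < 0`, value at `K` positive), `40 (1 + K / x) ^ 2` too; `abel` on
`(K / q0, K]` with `E = ε K` from `win_one`; `g (K / q0 + 1) ≤ 9/2 K q0 + ..`; `∑_{u < n ≤ K} 1 / n ≤ log (K / u)`,
`u = ⌊K / q0⌋`, `log (K / u) → log q0`; `∑ n ≤ (K^2 - u^2) / 2 + K`; `40 (1 + K / n) ^ 2 ≤ 40 (2 + 2 q0) ^ 2` costs `O (K)`.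

`hi_sum`: with `t = 2 K + 1 - l`: `t = ∑_{x = 1}^{K} [l ≤ 2 K + 1 - x]`, so `∑_l t log l = ∑_{x=1}^{K} mass (K, 2 K + 1 - x]`
`≤ ∑_x (K + 1 - x + ε K) ≤ K ^ 2 / 2 + ..`, and `min (3 t) (2 K) ≤ 3 min (t, ⌊2 K / 3⌋ + 1)`, `min (t, T) = ∑_{x=1}^{T} [..]`: mass
`∑_{x = 1}^{T} (K + 1 - x) = K^2 (2/3 - 2/9) = (4/9) K^2`.  Total `2 * 1/2 + 3 * 4/9 = 7/3`.  (`abel` can be used too: the
weight is nonincreasing in `l`.)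

`floor_sum`: `∑_{u < l ≤ 2 K} ⌊2 K / l⌋ log l = ∑_{q ≥ 1} mass (u, 2 K / q]`, the terms `1 ≤ q ≤ 2 q0` are at least
`2 K / q - K / q0 - ε 2 K - 1`; similarly for `K` (here an upper bound: `mass (u, K / q] ≤ K / q - u + ε K`, `q ≤ q0`, the windows for
larger `q` are empty as `K / q ≤ u`).  `harmonic` is Mathlib's `harmonic : ℕ → ℚ`.
-/

set_option autoImplicit false

namespace Pool.Agent.H27.EV

open Finset Filter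

theorem small_sum (q0 : ℕ) (hq : 2 ≤ q0) : ∀ᶠ K : ℕ in atTop,
    ∑ l ∈ (Icc 1 (K / q0)).filter Nat.Prime,
      30 * (K : ℝ) * ((Nat.log l (4 * K + 4) + 1 : ℕ) : ℝ) * Real.log l ≤ 200 / q0 * (K : ℝ) ^ 2 := by
  sorry

theorem mid_sum (q0 : ℕ) (hq : 2 ≤ q0) (η : ℝ) (hη : 0 < η) : ∀ᶠ K : ℕ in atTop,
    ∑ l ∈ (Ioc (K / q0) K).filter Nat.Prime,
      (9 / 2 * (K : ℝ) ^ 2 / l - K / 2 + 25 / 72 * l + 40 * (1 + (K : ℝ) / l) ^ 2) * Real.log l ≤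
      (9 / 2 * Real.log q0 - 1 / 2 + 1 / (2 * q0) + 25 / 144 + η) * (K : ℝ) ^ 2 := by
  sorry

theorem hi_sum (η : ℝ) (hη : 0 < η) : ∀ᶠ K : ℕ in atTop,
    ∑ l ∈ (Ioc K (2 * K)).filter Nat.Prime,
      ((2 * (2 * K + 1 - l) + min (3 * (2 * K + 1 - l)) (2 * K) + 5 : ℕ) : ℝ) * Real.log l ≤
      (7 / 3 + η) * (K : ℝ) ^ 2 := by
  sorry

theorem floor_sum (q0 : ℕ) (hq : 2 ≤ q0) (η : ℝ) (hη : 0 < η) : ∀ᶠ K : ℕ in atTop,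
    (6 * ((harmonic (2 * q0) : ℚ) - 1 : ℝ) - 3 / 2 * ((harmonic q0 : ℚ) - 1 : ℝ) - η) * (K : ℝ) ^ 2 ≤
    ∑ l ∈ (Ioc (K / q0) (2 * K)).filter Nat.Prime,
      (3 * (K : ℝ) * ((2 * K / l : ℕ) : ℝ) - 3 / 2 * K * ((K / l : ℕ) : ℝ)) * Real.log l := by
  sorry

end Pool.Agent.H27.EV
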