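import Pool.Agent.H27.EV.Small

/-!
# EV Two: the exponent of the prime `2`

Rows `rowS i` as in `Small`.  Columns `colT K j = (∏_{b < q} (X + K - b) ^ 3) (X + K - q) ^ r`, `j = 3 q + r`, `r < 3`: they kill the
nodes `-K, .., -K + q - 1` to order `3`.  (Definition: `∏_{t < j} (X + C (K - t / 3))`, natural division.)

`jet_two`: `jet a ∈ Fil 2 L (- 2 k)` for `a = -k ≤ 0` (`(wf (-b))⁻¹` has exponent `- 1 - v_2 (b)`, `k + v_2 (k!) ≤ 2 k`), and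
`∈ Fil 2 L 0` for `a ≥ 0` (`wf b` has exponent `≥ 1 + v (b) ≥ 0`, `hf b` is a unit).

At a node `a`: if `a < -K + q` then `coeff 0, 1, 2` of `tl a (colT j)` vanish and the term of the node is `0`.  Otherwise
`jet a ∈ Fil 2 L (- 2 (K - q))` and `tl a (colT j)` is in `Fil 2 L (3 v_2 (q!))` (`run`, cubed), and `3 v_2 (q!) ≥ 3 q - 3 L ≥ v_2 (j!) - 2 -
3 L` (`v_2 (q!) = q - (digit sum) ≥ q - L`, `v_2 (j!) ≤ j`).  So
`|J (rowS i * colT j)| ≤ 2 ^ (2 L + 3 v ((2 K)!) + 2 (K - q) - v ((2 i - 1)!) - v_2 (j!) + 2 + 3 L)`.  Sum over `j < K`: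
`2 (K - q) ≤ 2 K - 2 j / 3 + 4 / 3`, `∑_{j < K} (2 K - 2 j / 3) ≤ (5/3) K ^ 2 + K / 3`.  The rest as in `loc_small` (`fac_sum`,
`fac_tail`): error `(5 + 9/2) K L + 50 L + 4 K ≤ 30 K L`.
-/

set_option autoImplicit false

noncomputable section

namespace Pool.Agent.H27.EV

open Polynomial Finset

instance : Fact (Nat.Prime 2) := ⟨Nat.prime_two⟩

/-- the column polynomials at the prime `2` -/
def colT (K j : ℕ) : ℚ[X] := ∏ t ∈ range j, (X + C ((K : ℚ) - (t / 3 : ℕ)))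

theorem jet_two_neg (K : ℕ) (k : ℕ) (hk : k ≤ K) : Fil 2 (LL 2 K) (-(2 * (k : ℤ))) (jet ℚ (-(k : ℤ))) := by
  sorry

theorem jet_two_pos (K : ℕ) (i : ℕ) (hi : i ≤ K) : Fil 2 (LL 2 K) 0 (jet ℚ (i : ℤ)) := by
  sorry

theorem loc_two (K : ℕ) (hK : 4 ≤ K) (E : Fin 5 → Fin (K + 5)) :
    ∃ e : ℤ, padicNorm 2 (D0 K E) ≤ (2 : ℚ) ^ e ∧
      (e : ℝ) ≤ 3 * K * padicValNat 2 (2 * K).factorial - 3 / 2 * K * padicValNat 2 K.factorial
        + 5 / 3 * K ^ 2 + 30 * K * LL 2 K := by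
  sorry

end Pool.Agent.H27.EV
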