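import Pool.Agent.H27.EV.Res
import Pool.Agent.H27.EV.JF
import Pool.Agent.H27.EV.Lei
import Pool.Agent.H27.EV.Lin
import Pool.Agent.H11.NW.Harm
import Pool.Agent.H11.NW.Red

/-!
# EV Wfp: Wieferich primes `p > 2 K`, and integrality for all primes `l > 2 K`

`RedS p g g'`: the coefficients of `g ∈ ℚ⟦y⟧` reduce to those of `g' ∈ (ZMod p)⟦y⟧` (`Pool.Agent.H11.NW.Red`); closed under
products, and inverses if `g' (0) ≠ 0`.  For `|a| ≤ K < p / 2`: `jet ℚ a ↦ jet (ZMod p) a`, `Wa ↦ Wa` (all factors `2 a + 1`, `2 a`,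
`a - b` that are inverted are not divisible by `p`), so `J ℚ K (X ^ n) ↦ J (ZMod p) K (X ^ n)`.

`J_zmod`: in `F = ZMod p`: `H11.NW.exists_poly`, `harm_zero`, `harm2_zero` give `f ∈ F[X]`, `natDegree f ≤ (p - 1) / 2`,
`f = 1 + O (X ^ 3)`, `(2 X + 1) f (X + 1) = 2 X f (X)`; by the recursion `jet_rec` (unique solution, the leading factors are
invertible for `|a| ≤ K`) the coefficients `0, 1, 2` of `tl a f` and of `jet F a` agree for `|a| ≤ K` (induction upwards and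
downwards from `a = 0`; compare `H11.NW.jet_neg`, `jet_pos`).  So `J F K h = ∑_a coeff 2 (tl a (f h) * (Wa a)⁻¹)`, and by `res_top` this
is the coefficient of degree `6 K + 2` of `f h`, which is `0` if `natDegree h + (p - 1) / 2 ≤ 6 K + 1`.

`J_wf`: a rational number which reduces to `0` has `p`-adic norm `≤ 1 / p`.  `loc_wf`: `D_zero_rows`.  `loc_big`: `D_padic` (or
`D_zero_rows` with `z = 0`... use `u = v = w = 0`) with `J_int` of `JF`.
-/

set_option autoImplicit false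

noncomputable section

namespace Pool.Agent.H27.EV

open Polynomial Finset
open Pool.Agent.H11.NW (Wf)

theorem J_wf (p : ℕ) [Fact p.Prime] (hp : 3 < p) (hw : Wf p) (K : ℕ) (hK : 2 * K < p) (n : ℕ)
    (hn : n + (p - 1) / 2 ≤ 6 * K + 1) : padicNorm p (J ℚ K (X ^ n)) ≤ (p : ℚ) ^ (-1 : ℤ) := by
  sorry

theorem loc_wf (p : ℕ) [Fact p.Prime] (hp : 3 < p) (hw : Wf p) (K : ℕ) (hK : 2 * K < p)
    (E : Fin 5 → Fin (K + 5)) (z : ℕ) (hz : z ≤ K)
    (hz2 : ∀ i < z, p ≤ 10 * K - 4 * i) : padicNorm p (D0 K E) ≤ (p : ℚ) ^ ((5 : ℤ) - z) := by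
  sorry

theorem loc_big (l : ℕ) [Fact l.Prime] (hl2 : l ≠ 2) (K : ℕ) (hK : 2 * K < l)
    (E : Fin 5 → Fin (K + 5)) : padicNorm l (D0 K E) ≤ 1 := by
  sorry

end Pool.Agent.H27.EV
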