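import Pool.Agent.H27.EV.Zer
import Pool.Agent.H27.EV.Ext
import Pool.Agent.H27.EV.Mid
import Pool.Agent.H27.EV.MidNum
import Pool.Agent.H27.EV.Two
import Pool.Agent.H27.EV.Wfp
import Pool.Agent.H27.EV.Arch
import Pool.Agent.H27.EV.Sums
import Pool.Agent.H27.EV.Num
import Pool.Agent.H27.EV.Prod

/-!
# EV Main: the weighted mass of the Wieferich primes
-/

set_option autoImplicit false

noncomputable section

namespace Pool.Agent.H27.EV

open Polynomial Finset Filter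
open Pool.Agent.H11.NW (Wf)

/-- the value of the normalisation at `l` -/
def vR (K l : ℕ) : ℝ :=
  3 * K * padicValNat l (2 * K).factorial - 3 / 2 * K * padicValNat l K.factorial

/-- number of rows gained at `p` -/
def zz (K p : ℕ) : ℕ := ((range K).filter fun i => p ≤ 10 * K - 4 * i).card

theorem zz_spec (K p i : ℕ) (hi : i < zz K p) : p ≤ 10 * K - 4 * i := by
  by_contra hcon
  have h1 : (range K).filter (fun i => p ≤ 10 * K - 4 * i) ⊆ range i := by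
    intro j hj
    rw [mem_filter] at hj
    rw [mem_range]
    by_contra h2
    exact hcon (hj.2.trans (by omega))
  have h2 := card_le_card h1
  rw [card_range] at h2
  unfold zz at hi
  omega

theorem zz_le (K p : ℕ) : zz K p ≤ K := by
  unfold zz
  exact (card_filter_le _ _).trans (by rw [card_range])

/-- the exponent bound for the odd primes `l ≤ K`, `l ^ 2 > 2 K + 1` -/
theorem loc_mid (l : ℕ) [Fact l.Prime] (hl2 : l ≠ 2) (K : ℕ) (hlK : l ≤ K) (hK : 2 * K + 1 < l ^ 2)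
    (E : Fin 5 → Fin (K + 5)) :
    ∃ e : ℕ, padicNorm l (D0 K E) ≤ (l : ℚ) ^ (e : ℤ) ∧
      (e : ℝ) ≤ 9 / 2 * (K : ℝ) ^ 2 / l - K / 2 + 25 / 72 * l + 40 * (1 + (K : ℝ) / l) ^ 2 := by
  obtain ⟨y0, hy⟩ := mid_num K l (Nat.Prime.one_lt Fact.out).le hlK
  obtain ⟨e, h1, h2⟩ := loc_mid_aux hl2 K hlK hK E y0
  exact ⟨e, h1, hy e h2⟩

/-- the bound of the exponent -/
def Fb (K q0 l : ℕ) : ℝ :=
  if l ≤ K / q0 then vR K l + 30 * K * ((Nat.log l (4 * K + 4) + 1 : ℕ) : ℝ) + (if l = 2 then 5 / 3 * (K : ℝ) ^ 2 else 0)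
  else if l ≤ K then 9 / 2 * (K : ℝ) ^ 2 / l - K / 2 + 25 / 72 * l + 40 * (1 + (K : ℝ) / l) ^ 2
  else if l ≤ 2 * K then ((2 * (2 * K + 1 - l) + min (3 * (2 * K + 1 - l)) (2 * K) + 5 : ℕ) : ℝ)
  else 0

theorem exists_exp (K q0 : ℕ) (hq : 2 ≤ q0) (hK : 4 ≤ K) (hK2 : 2 * K + 1 < (K / q0) ^ 2) (E : Fin 5 → Fin (K + 5))
    (l : ℕ) (hl : l.Prime) (hlK : l ≤ 2 * K) :
    ∃ e : ℤ, padicNorm l (D0 K E) ≤ (l : ℚ) ^ e ∧ (e : ℝ) ≤ Fb K q0 l := by
  haveI : Fact l.Prime := ⟨hl⟩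
  have hK3 : 2 < K / q0 := by
    by_contra hcon
    have h3 : K / q0 ≤ 2 := by omega
    have h4 : (K / q0) ^ 2 ≤ 2 ^ 2 := Nat.pow_le_pow_left h3 2
    omega
  unfold Fb
  by_cases h1 : l ≤ K / q0
  · rw [if_pos h1]
    by_cases h2 : l = 2
    · subst h2
      obtain ⟨e, he, he'⟩ := loc_two K hK E
      refine ⟨e, he, he'.trans (le_of_eq ?_)⟩
      rw [if_pos rfl]
      unfold vR LL
      ring
    · rw [if_neg h2]
      obtain ⟨e, he, he'⟩ := loc_small l h2 K hK E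
      refine ⟨e, he, he'.trans ?_⟩
      unfold vR LL
      have h3 : (0 : ℝ) ≤ (K : ℝ) * ((Nat.log l (4 * K + 4) + 1 : ℕ) : ℝ) := by positivity
      nlinarith
  · rw [if_neg h1]
    have hl2 : l ≠ 2 := by omega
    have hsq : 2 * K + 1 < l ^ 2 := by
      have : (K / q0) ^ 2 ≤ l ^ 2 := Nat.pow_le_pow_left (by omega) 2
      omega
    by_cases h2 : l ≤ K
    · rw [if_pos h2]
      obtain ⟨e, he, he'⟩ := loc_mid l hl2 K h2 hsq E
      exact ⟨e, he, by exact_mod_cast he'⟩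
    · rw [if_neg h2, if_pos hlK]
      obtain ⟨e, he, he'⟩ := loc_hi (l := l) hl2 K (by omega) hlK hsq E
      exact ⟨e, he, by exact_mod_cast he'⟩

theorem split4 (K q0 : ℕ) (f : ℕ → ℝ) :
    ∑ p ∈ (Icc 1 (10 * K)).filter Nat.Prime, f p =
      ∑ p ∈ (Icc 1 (K / q0)).filter Nat.Prime, f p + ∑ p ∈ (Ioc (K / q0) K).filter Nat.Prime, f p
      + ∑ p ∈ (Ioc K (2 * K)).filter Nat.Prime, f p + ∑ p ∈ (Ioc (2 * K) (10 * K)).filter Nat.Prime, f p := by
  have h0 : K / q0 ≤ K := Nat.div_le_self _ _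
  simp_rw [Finset.sum_filter]
  have a1 : Icc 1 (10 * K) = Ioc 0 (10 * K) := by ext n; simp [Nat.succ_le_iff]
  have a2 : Icc 1 (K / q0) = Ioc 0 (K / q0) := by ext n; simp [Nat.succ_le_iff]
  rw [a1, a2, ← Finset.sum_Ioc_consecutive _ (Nat.zero_le (K / q0)) (by omega : K / q0 ≤ 10 * K),
    ← Finset.sum_Ioc_consecutive _ h0 (by omega : K ≤ 10 * K),
    ← Finset.sum_Ioc_consecutive _ (by omega : K ≤ 2 * K) (by omega : 2 * K ≤ 10 * K)]
  ring

theorem swap_zz (K : ℕ) : ∑ i ∈ range K, ∑ p ∈ (Ioc (2 * K) (10 * K - 4 * i)).filter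
      (fun p => p.Prime ∧ Wf p), Real.log p =
    ∑ p ∈ (Ioc (2 * K) (10 * K)).filter Nat.Prime, (if Wf p then (zz K p : ℝ) * Real.log p else 0) := by
  have h1 : ∀ i ∈ range K, ∑ p ∈ (Ioc (2 * K) (10 * K - 4 * i)).filter
      (fun p => p.Prime ∧ Wf p), Real.log p =
      ∑ p ∈ (Ioc (2 * K) (10 * K)).filter Nat.Prime,
        (if p ≤ 10 * K - 4 * i then (if Wf p then Real.log p else 0) else 0) := by
    intro i _
    rw [Finset.sum_filter, Finset.sum_filter]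
    have h2 : Ioc (2 * K) (10 * K - 4 * i) = (Ioc (2 * K) (10 * K)).filter (fun p => p ≤ 10 * K - 4 * i) := by
      ext p; simp only [mem_filter, mem_Ioc]; omega
    rw [h2, Finset.sum_filter]
    refine sum_congr rfl fun p _ => ?_
    by_cases ha : p.Prime <;> by_cases hb : Wf p <;> simp [ha, hb]
  rw [sum_congr rfl h1, sum_comm]
  refine sum_congr rfl fun p _ => ?_
  by_cases hb : Wf p
  · simp only [hb, if_true]
    rw [← Finset.sum_filter, sum_const, nsmul_eq_mul]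
    rfl
  · simp [hb]

/-- the combination for one `K` -/
theorem combine (K q0 : ℕ) (hq : 2 ≤ q0) (hK : 100000 ≤ K) (hK2 : 2 * K + 1 < (K / q0) ^ 2)
    (E : Fin 5 → Fin (K + 5)) (hD : D0 K E ≠ 0) :
    ∑ p ∈ (Ioc (2 * K) (10 * K)).filter Nat.Prime, (if Wf p then (zz K p : ℝ) * Real.log p else 0) ≤
      Real.log |((D0 K E : ℚ) : ℝ)|
      + ∑ l ∈ (Icc 1 (K / q0)).filter Nat.Prime, Fb K q0 l * Real.log l
      + ∑ l ∈ (Ioc (K / q0) K).filter Nat.Prime, Fb K q0 l * Real.log l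
      + ∑ l ∈ (Ioc K (2 * K)).filter Nat.Prime, Fb K q0 l * Real.log l
      + 5 * ∑ p ∈ (Ioc (2 * K) (10 * K)).filter Nat.Prime, Real.log p := by
  classical
  have hex : ∀ l : ℕ, ∃ e : ℤ, l.Prime → l ≤ 2 * K →
      (padicNorm l (D0 K E) ≤ (l : ℚ) ^ e ∧ (e : ℝ) ≤ Fb K q0 l) := by
    intro l
    by_cases h : l.Prime ∧ l ≤ 2 * K
    · obtain ⟨e, he⟩ := exists_exp K q0 hq (by omega) hK2 E l h.1 h.2
      exact ⟨e, fun _ _ => he⟩
    · exact ⟨0, fun h1 h2 => absurd ⟨h1, h2⟩ h⟩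
  choose e0 he0 using hex
  set e : ℕ → ℤ := fun l => if l ≤ 2 * K then e0 l else if Wf l then (5 : ℤ) - zz K l else 0 with he
  have hP := prod_formula (D0 K E) hD ((Icc 1 (10 * K)).filter Nat.Prime)
    (fun p hp => (mem_filter.1 hp).2) e ?_ ?_
  · rw [split4 K q0] at hP
    have hlog : ∀ l : ℕ, 0 ≤ Real.log l := fun l => Real.log_natCast_nonneg l
    have hle : ∀ s : Finset ℕ, (∀ l ∈ s, l.Prime ∧ l ≤ 2 * K) →
        ∑ l ∈ s, (e l : ℝ) * Real.log l ≤ ∑ l ∈ s, Fb K q0 l * Real.log l := by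
      intro s hs
      refine sum_le_sum fun l hl => mul_le_mul_of_nonneg_right ?_ (hlog l)
      obtain ⟨h1, h2⟩ := hs l hl
      simp only [he, if_pos h2]
      exact (he0 l h1 h2).2
    have hKq : K / q0 ≤ K := Nat.div_le_self _ _
    have a1 := hle ((Icc 1 (K / q0)).filter Nat.Prime) (fun l hl => by
      rw [mem_filter, mem_Icc] at hl; exact ⟨hl.2, by omega⟩)
    have a2 := hle ((Ioc (K / q0) K).filter Nat.Prime) (fun l hl => by
      rw [mem_filter, mem_Ioc] at hl; exact ⟨hl.2, by omega⟩)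
    have a3 := hle ((Ioc K (2 * K)).filter Nat.Prime) (fun l hl => by
      rw [mem_filter, mem_Ioc] at hl; exact ⟨hl.2, by omega⟩)
    have a4 : ∑ p ∈ (Ioc (2 * K) (10 * K)).filter Nat.Prime, (e p : ℝ) * Real.log p ≤
        5 * ∑ p ∈ (Ioc (2 * K) (10 * K)).filter Nat.Prime, Real.log p
        - ∑ p ∈ (Ioc (2 * K) (10 * K)).filter Nat.Prime, (if Wf p then (zz K p : ℝ) * Real.log p else 0) := by
      rw [mul_sum, ← sum_sub_distrib]
      refine sum_le_sum fun p hp => ?_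
      rw [mem_filter, mem_Ioc] at hp
      have h1 : ¬ p ≤ 2 * K := by omega
      simp only [he, if_neg h1]
      by_cases hw : Wf p
      · rw [if_pos hw, if_pos hw]
        push_cast
        exact le_of_eq (by ring)
      · rw [if_neg hw, if_neg hw]
        have := hlog p
        push_cast
        linarith
    linarith
  · intro p hp
    rw [mem_filter, mem_Icc] at hp
    haveI : Fact p.Prime := ⟨hp.2⟩
    by_cases h1 : p ≤ 2 * K
    · simp only [he, if_pos h1]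
      exact (he0 p hp.2 h1).1
    · simp only [he, if_neg h1]
      by_cases hw : Wf p
      · rw [if_pos hw]
        exact loc_wf p (by omega) hw K (by omega) E (zz K p) (zz_le K p) (fun i hi => zz_spec K p i hi)
      · rw [if_neg hw, zpow_zero]
        exact loc_big p (by omega) K (by omega) E
  · intro p hp hpS
    haveI : Fact p.Prime := ⟨hp⟩
    rw [mem_filter, mem_Icc] at hpS
    have h1 : 10 * K < p := by
      by_contra h2
      exact hpS ⟨⟨hp.one_lt.le, by omega⟩, hp⟩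
    exact loc_big p (by omega) K (by omega) E

theorem vR_eq (K l : ℕ) (hl : l.Prime) (h : 2 * K < l ^ 2) :
    vR K l = 3 * (K : ℝ) * ((2 * K / l : ℕ) : ℝ) - 3 / 2 * K * ((K / l : ℕ) : ℝ) := by
  haveI : Fact l.Prime := ⟨hl⟩
  unfold vR
  rw [val_fac (2 * K) l h, val_fac K l (by omega)]

theorem split3 (K q0 : ℕ) (f : ℕ → ℝ) :
    ∑ p ∈ (Icc 1 (2 * K)).filter Nat.Prime, f p =
      ∑ p ∈ (Icc 1 (K / q0)).filter Nat.Prime, f p
        + ∑ p ∈ (Ioc (K / q0) (2 * K)).filter Nat.Prime, f p := by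
  have h0 : K / q0 ≤ K := Nat.div_le_self _ _
  simp_rw [Finset.sum_filter]
  have a1 : Icc 1 (2 * K) = Ioc 0 (2 * K) := by ext n; simp [Nat.succ_le_iff]
  have a2 : Icc 1 (K / q0) = Ioc 0 (K / q0) := by ext n; simp [Nat.succ_le_iff]
  rw [a1, a2, ← Finset.sum_Ioc_consecutive _ (Nat.zero_le (K / q0)) (by omega : K / q0 ≤ 2 * K)]

theorem main_bound : ∀ᶠ K : ℕ in atTop,
    ∑ i ∈ range K, ∑ p ∈ (Ioc (2 * K) (10 * K - 4 * i)).filter (fun p => p.Prime ∧ Wf p), Real.log p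
      ≤ 4.45 * (K : ℝ) ^ 2 := by
  classical
  obtain ⟨q0, hq0⟩ : ∃ q0 : ℕ, q0 = 2 ^ 16 := ⟨_, rfl⟩
  have hq : 2 ≤ q0 := by norm_num [hq0]
  have hbig : ∀ᶠ K : ℕ in atTop, 2 * K + 1 < (K / q0) ^ 2 := by
    filter_upwards [eventually_ge_atTop (q0 * (q0 * 10))] with K hK
    have h1 : q0 * 10 ≤ K / q0 := (Nat.le_div_iff_mul_le (by omega)).2 (by nlinarith)
    have h2 : K < q0 * (K / q0 + 1) := Nat.lt_mul_div_succ K (by omega)
    nlinarith
  have hwin : ∀ᶠ K : ℕ in atTop,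
      ∑ p ∈ (Ioc (2 * K) (10 * K)).filter Nat.Prime, Real.log p ≤ 18 * (K : ℝ) := by
    have ht : Tendsto (fun K : ℕ => 10 * K) atTop atTop :=
      tendsto_id.const_mul_atTop' (by norm_num)
    filter_upwards [ht.eventually (Pool.Agent.H71.NB.win_one 1 one_pos)] with K hK
    have h1 := hK (2 * K) (10 * K) (by omega) le_rfl
    have h2 := (abs_le.1 h1).2
    push_cast at h2
    linarith
  filter_upwards [hbig, eventually_ge_atTop 100000, arch (1 / 1000) (by norm_num), small_sum q0 hq,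
    mid_sum q0 hq (1 / 1000) (by norm_num), hi_sum (1 / 1000) (by norm_num),
    floor_sum q0 hq (1 / 1000) (by norm_num), hwin]
    with K h1 h2 h3 h4 h5 h6 h7 h8
  rw [swap_zz]
  obtain ⟨E, hE⟩ := exists_E K (J_inj K (by omega))
  have hc := combine K q0 hq h2 h1 E hE
  have ha := h3 E hE
  have hK0 : (100000 : ℝ) ≤ K := by exact_mod_cast h2
  have hKq : K / q0 ≤ K := Nat.div_le_self _ _
  have hKq3 : 2 < K / q0 := by
    by_contra hcon
    have h9 : (K / q0) ^ 2 ≤ 2 ^ 2 := Nat.pow_le_pow_left (by omega) 2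
    omega
  -- the four sums
  have s1 : ∑ l ∈ (Icc 1 (K / q0)).filter Nat.Prime, Fb K q0 l * Real.log l ≤
      ∑ l ∈ (Icc 1 (K / q0)).filter Nat.Prime, vR K l * Real.log l
        + 200 / q0 * (K : ℝ) ^ 2 + 5 / 3 * (K : ℝ) ^ 2 * Real.log 2 := by
    have e1 : ∀ l ∈ (Icc 1 (K / q0)).filter Nat.Prime, Fb K q0 l * Real.log l =
        vR K l * Real.log l + 30 * (K : ℝ) * ((Nat.log l (4 * K + 4) + 1 : ℕ) : ℝ) * Real.log l
          + (if l = 2 then 5 / 3 * (K : ℝ) ^ 2 * Real.log 2 else 0) := by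
      intro l hl
      rw [mem_filter, mem_Icc] at hl
      unfold Fb
      rw [if_pos hl.1.2]
      by_cases h : l = 2
      · subst h
        rw [if_pos rfl, if_pos rfl]; push_cast; ring
      · rw [if_neg h, if_neg h]; ring
    rw [sum_congr rfl e1, sum_add_distrib, sum_add_distrib]
    have e2 : ∑ l ∈ (Icc 1 (K / q0)).filter Nat.Prime,
        (if l = 2 then 5 / 3 * (K : ℝ) ^ 2 * Real.log 2 else 0) ≤ 5 / 3 * (K : ℝ) ^ 2 * Real.log 2 := by
      rw [Finset.sum_ite_eq']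
      have h0 : 0 ≤ 5 / 3 * (K : ℝ) ^ 2 * Real.log 2 := by positivity
      split_ifs
      · exact le_rfl
      · exact h0
    linarith
  have s2 : ∑ l ∈ (Ioc (K / q0) K).filter Nat.Prime, Fb K q0 l * Real.log l =
      ∑ l ∈ (Ioc (K / q0) K).filter Nat.Prime,
      (9 / 2 * (K : ℝ) ^ 2 / l - K / 2 + 25 / 72 * l + 40 * (1 + (K : ℝ) / l) ^ 2) * Real.log l := by
    refine sum_congr rfl fun l hl => ?_
    rw [mem_filter, mem_Ioc] at hl
    unfold Fb
    rw [if_neg (by omega), if_pos hl.1.2]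
  have s3 : ∑ l ∈ (Ioc K (2 * K)).filter Nat.Prime, Fb K q0 l * Real.log l =
      ∑ l ∈ (Ioc K (2 * K)).filter Nat.Prime,
      ((2 * (2 * K + 1 - l) + min (3 * (2 * K + 1 - l)) (2 * K) + 5 : ℕ) : ℝ) * Real.log l := by
    refine sum_congr rfl fun l hl => ?_
    rw [mem_filter, mem_Ioc] at hl
    unfold Fb
    rw [if_neg (by omega), if_neg (by omega), if_pos hl.1.2]
  have s4 : 3 * (K : ℝ) * Real.log (2 * K).factorial - 3 / 2 * K * Real.log K.factorial =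
      ∑ l ∈ (Icc 1 (K / q0)).filter Nat.Prime, vR K l * Real.log l
      + ∑ l ∈ (Ioc (K / q0) (2 * K)).filter Nat.Prime, vR K l * Real.log l := by
    rw [← split3, log_fac (2 * K) (2 * K) le_rfl, log_fac K (2 * K) (by omega), mul_sum, mul_sum,
      ← sum_sub_distrib]
    refine sum_congr rfl fun l _ => ?_
    unfold vR
    ring
  have s5 : ∑ l ∈ (Ioc (K / q0) (2 * K)).filter Nat.Prime, vR K l * Real.log l =
      ∑ l ∈ (Ioc (K / q0) (2 * K)).filter Nat.Prime,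
      (3 * (K : ℝ) * ((2 * K / l : ℕ) : ℝ) - 3 / 2 * K * ((K / l : ℕ) : ℝ)) * Real.log l := by
    refine sum_congr rfl fun l hl => ?_
    rw [mem_filter, mem_Ioc] at hl
    rw [vR_eq K l hl.2]
    have h9 : (K / q0) ^ 2 ≤ l ^ 2 := Nat.pow_le_pow_left (by omega) 2
    omega
  have hn := num
  rw [← hq0] at hn
  have hK2 : (0 : ℝ) < (K : ℝ) ^ 2 := by positivity
  have hfin : (9 / 2 * Real.log 2 + 3 / 8 + 1 / 1000) * (K : ℝ) ^ 2 + 200 / q0 * (K : ℝ) ^ 2
      + 5 / 3 * (K : ℝ) ^ 2 * Real.log 2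
      + (9 / 2 * Real.log q0 - 1 / 2 + 1 / (2 * q0) + 25 / 144 + 1 / 1000) * (K : ℝ) ^ 2
      + (7 / 3 + 1 / 1000) * (K : ℝ) ^ 2
      - (6 * ((harmonic (2 * q0) : ℚ) - 1 : ℝ) - 3 / 2 * ((harmonic q0 : ℚ) - 1 : ℝ) - 1 / 1000) * (K : ℝ) ^ 2
      + 5 * (18 * (K : ℝ)) ≤ 4.45 * (K : ℝ) ^ 2 := by
    have h9 := mul_lt_mul_of_pos_right hn hK2
    have h10 : 5 * (18 * (K : ℝ)) ≤ 1 / 1000 * (K : ℝ) ^ 2 := by nlinarith
    nlinarith
  linarith

end Pool.Agent.H27.EV
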