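import Pool.Agent.H27.EV.Api

/-!
# EV Res: residues of polynomials at the nodes, Hermite interpolation

`tl_dvd`: all coefficients `0, 1, 2` of `h (a + y)` vanish iff `(x - a) ^ 3 ∣ h` (`Polynomial.taylorAlgEquiv`,
`X_pow_dvd_iff`; compare `H11.NW.dvd_iff_taylor` in `Pool/Agent/H11/NW/Herm.lean`).

`interp` (over `ℚ`): the linear map `degreeLT ℚ (6 K + 3) → (nodes × Fin 3 → ℚ)`, `g ↦ (coeff n (tl a g))`, is injective
(if all are `0`, the product `W` of the pairwise coprime `(x - a) ^ 3`, of degree `6 K + 3`, divides `g`) and the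
dimensions are equal (`(2 K + 1) * 3 = 6 K + 3`), so it is surjective
(`LinearMap.injective_iff_surjective_of_finrank_eq_finrank`).

`res_top`: `S (h) = ∑_a coeff 2 (tl a h * (Wa a)⁻¹)` is linear.  (1) If `h = (x - a₀) ^ (3 - n) * ∏_{b ≠ a₀} (x - b) ^ 3`,
`n = 1, 2, 3`, then only the node `a₀` contributes: `tl a₀ h = X ^ (3 - n) * Wa a₀`, so `S h = coeff 2 (X ^ (3 - n))`, which
is `1` for `n = 1` and `0` for `n = 2, 3`; the coefficient of degree `6 K + 2` of `h` is `1` for `n = 1` (monic of degree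
`6 K + 2`) and `0` for `n = 2, 3`.  (2) These `6 K + 3` polynomials span the polynomials of degree `≤ 6 K + 2` (by the
injectivity used for `interp`: they are independent since the matrix of their jets is block triangular); so `S h` is the
coefficient for all `h`.  Alternative proof: `residue_three` of `Pool/Agent/H11/NW/Herm.lean` (or the induction there:
partial fractions) gives `S h = 0` for `natDegree h + 2 ≤ 3 (2 K + 1)` and (1) with one fixed `a₀`, `n = 1`, gives the
rest by subtracting a multiple of a monic polynomial of degree `6 K + 2`; for this one needs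
`coeff 2 (tl a h * (Wa a)⁻¹)` = the expression of `residue_three` (`coeff` of the inverse of `∏ (X + C m) ^ 3`,
`HJet` calculus of `Herm.lean`), with `2 ≠ 0` in `F`.  `hK` says that the nodes are distinct in `F`.
-/

set_option autoImplicit false

noncomputable section

namespace Pool.Agent.H27.EV

open Polynomial Finset

section ResGen
variable {F : Type} [Field F]

/-- the cofactor polynomial of the node `a` -/
def res_P (F : Type) [Field F] (K : ℕ) (a : ℤ) : F[X] :=
  ∏ b ∈ (nd K).erase a, (X - C ((b : ℤ) : F)) ^ 3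

/-- polynomial of degree `≤ 2` with the given jet at the node `a` -/
def res_G (a : ℤ) (U : PowerSeries F) : F[X] :=
  C (PowerSeries.coeff 2 U) * (X - C ((a : ℤ) : F)) ^ 2
    + C (PowerSeries.coeff 1 U) * (X - C ((a : ℤ) : F)) + C (PowerSeries.coeff 0 U)

theorem res_tl_prod {ι : Type*} (a : ℤ) (s : Finset ι) (g : ι → F[X]) :
    tl F a (∏ i ∈ s, g i) = ∏ i ∈ s, tl F a (g i) := by
  classical
  induction s using Finset.induction_on with
  | empty => rw [prod_empty, prod_empty, tl_one]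
  | insert i s hi ih => rw [prod_insert hi, prod_insert hi, tl_mul, ih]

theorem res_tl_pow (a : ℤ) (g : F[X]) (n : ℕ) : tl F a (g ^ n) = tl F a g ^ n := by
  induction n with
  | zero => rw [pow_zero, pow_zero, tl_one]
  | succ n ih => rw [pow_succ, pow_succ, tl_mul, ih]

theorem res_tl_sub (a : ℤ) (g h : F[X]) : tl F a (g - h) = tl F a g - tl F a h := by
  unfold tl; rw [map_sub, Polynomial.coe_sub]

theorem res_tl_sum {ι : Type*} (a : ℤ) (s : Finset ι) (g : ι → F[X]) :
    tl F a (∑ i ∈ s, g i) = ∑ i ∈ s, tl F a (g i) := by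
  classical
  induction s using Finset.induction_on with
  | empty => rw [sum_empty, sum_empty]; unfold tl; rw [map_zero, Polynomial.coe_zero]
  | insert i s hi ih => rw [sum_insert hi, sum_insert hi, tl_add, ih]

theorem res_tl_lin (a b : ℤ) : tl F a (X - C ((b : ℤ) : F))
    = PowerSeries.X + PowerSeries.C ((a - b : ℤ) : F) := by
  rw [res_tl_sub, tl_X, tl_C, Int.cast_sub, map_sub]; ring

theorem res_tl_P (K : ℕ) (a : ℤ) : tl F a (res_P F K a) = Wa F K a := by
  unfold res_P Wa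
  rw [res_tl_prod]
  refine prod_congr rfl fun b _ => ?_
  rw [res_tl_pow, res_tl_lin]

theorem res_dvd (a : ℤ) (q : F[X]) :
    (X - C ((a : ℤ) : F)) ^ 3 ∣ q ↔ ∀ n < 3, PowerSeries.coeff n (tl F a q) = 0 := by
  have h := map_dvd_iff (taylorEquiv ((a : ℤ) : F)) (a := (X - C ((a : ℤ) : F) : F[X]) ^ 3) (b := q)
  rw [← h]
  have e : taylorEquiv ((a : ℤ) : F) ((X - C ((a : ℤ) : F) : F[X]) ^ 3) = X ^ 3 := by
    change taylor ((a : ℤ) : F) ((X - C ((a : ℤ) : F) : F[X]) ^ 3) = X ^ 3
    rw [taylor_pow, map_sub, taylor_X, taylor_C, add_sub_cancel_right]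
  rw [e]
  change X ^ 3 ∣ taylor ((a : ℤ) : F) q ↔ _
  rw [X_pow_dvd_iff]
  unfold tl
  simp only [Polynomial.coeff_coe]

/-- the first three coefficients of a product depend only on the first three coefficients -/
theorem res_coeff_mul_congr {U V W : PowerSeries F}
    (h : ∀ n < 3, PowerSeries.coeff n U = PowerSeries.coeff n V) :
    ∀ n < 3, PowerSeries.coeff n (U * W) = PowerSeries.coeff n (V * W) := by
  intro n hn
  rw [PowerSeries.coeff_mul, PowerSeries.coeff_mul]
  refine sum_congr rfl fun x hx => ?_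
  have h1 : x.1 ≤ n := by
    have := mem_antidiagonal.mp hx
    omega
  rw [h x.1 (by omega)]

theorem res_G_jet (a : ℤ) (U : PowerSeries F) :
    ∀ n < 3, PowerSeries.coeff n (tl F a (res_G a U)) = PowerSeries.coeff n U := by
  intro n hn
  unfold res_G
  rw [tl_add, tl_add, tl_smul, tl_smul, res_tl_pow, res_tl_lin, tl_C, sub_self, Int.cast_zero,
    map_zero, add_zero, map_add, map_add, PowerSeries.coeff_C_mul, PowerSeries.coeff_C_mul,
    PowerSeries.coeff_X_pow, PowerSeries.coeff_X, PowerSeries.coeff_C]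
  interval_cases n <;> simp

theorem res_GP_self (K : ℕ) (a : ℤ) (U : PowerSeries F) :
    ∀ n < 3, PowerSeries.coeff n (tl F a (res_G a U * res_P F K a))
      = PowerSeries.coeff n (U * Wa F K a) := by
  intro n hn
  rw [tl_mul, res_tl_P]
  exact res_coeff_mul_congr (res_G_jet a U) n hn

theorem res_GP_other (K : ℕ) {a b : ℤ} (ha : a ∈ nd K) (hab : a ≠ b) (G : F[X]) :
    (X - C ((a : ℤ) : F)) ^ 3 ∣ G * res_P F K b := by
  refine Dvd.dvd.mul_left ?_ _
  unfold res_P
  exact Finset.dvd_prod_of_mem (fun c : ℤ => (X - C ((c : ℤ) : F) : F[X]) ^ 3)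
    (mem_erase.mpr ⟨hab, ha⟩)

theorem res_card (K : ℕ) : (nd K).card = 2 * K + 1 := by
  unfold nd
  rw [Int.card_Icc]
  omega

theorem res_P_monic (K : ℕ) (a : ℤ) : (res_P F K a).Monic :=
  monic_prod_of_monic _ _ fun b _ => (monic_X_sub_C ((b : ℤ) : F)).pow 3

theorem res_P_deg (K : ℕ) {a : ℤ} (ha : a ∈ nd K) : (res_P F K a).natDegree = 6 * K := by
  unfold res_P
  rw [natDegree_prod_of_monic _ _ fun b _ => (monic_X_sub_C ((b : ℤ) : F)).pow 3]
  simp only [natDegree_pow, natDegree_X_sub_C, sum_const, smul_eq_mul, mul_one]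
  rw [card_erase_of_mem ha, res_card]
  omega

theorem res_G_deg (a : ℤ) (U : PowerSeries F) : (res_G a U).natDegree ≤ 2 := by
  unfold res_G
  compute_degree

theorem res_G_coeff (a : ℤ) (U : PowerSeries F) : (res_G a U).coeff 2 = PowerSeries.coeff 2 U := by
  have e : res_G a U = C (PowerSeries.coeff 2 U) * X ^ 2
      + C (PowerSeries.coeff 1 U - 2 * PowerSeries.coeff 2 U * (a : F)) * X
      + C (PowerSeries.coeff 0 U - PowerSeries.coeff 1 U * (a : F)
        + PowerSeries.coeff 2 U * (a : F) ^ 2) := by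
    unfold res_G
    simp only [C_sub, C_add, C_mul, C_pow]
    have : (C (2 : F) : F[X]) = 2 := rfl
    rw [this]
    ring
  rw [e, coeff_add, coeff_add, coeff_C_mul, coeff_C_mul, coeff_X_pow, coeff_X, coeff_C]
  simp

theorem res_GP_deg (K : ℕ) {a : ℤ} (ha : a ∈ nd K) (U : PowerSeries F) :
    (res_G a U * res_P F K a).natDegree ≤ 6 * K + 2 := by
  refine natDegree_mul_le.trans ?_
  have h1 := res_G_deg a U
  have h2 := res_P_deg (F := F) K ha
  omega

theorem res_GP_coeff (K : ℕ) {a : ℤ} (ha : a ∈ nd K) (U : PowerSeries F) :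
    (res_G a U * res_P F K a).coeff (6 * K + 2) = PowerSeries.coeff 2 U := by
  have h2 := res_P_deg (F := F) K ha
  rw [show 6 * K + 2 = 2 + 6 * K by omega,
    coeff_mul_add_eq_of_natDegree_le (res_G_deg a U) h2.le, res_G_coeff, ← h2,
    (res_P_monic K a).coeff_natDegree, mul_one]

/-- `hK` says that the nodes are distinct in `F` -/
theorem res_ne (K : ℕ) (hK : ∀ n : ℕ, 0 < n → n ≤ 2 * K → (n : F) ≠ 0) {a b : ℤ} (ha : a ∈ nd K)
    (hb : b ∈ nd K) (hab : a ≠ b) : ((a - b : ℤ) : F) ≠ 0 := by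
  unfold nd at ha hb
  rw [mem_Icc] at ha hb
  have h1 := hK (a - b).natAbs (by omega) (by omega)
  intro h0
  apply h1
  rcases Int.natAbs_eq (a - b) with h | h
  · have : (((a - b).natAbs : ℤ) : F) = 0 := by rw [← h]; exact h0
    simpa using this
  · have h3 : (((a - b).natAbs : ℤ) : F) = 0 := by
      have h4 : ((a - b).natAbs : ℤ) = -(a - b) := by omega
      rw [h4, Int.cast_neg, h0, neg_zero]
    simpa using h3

theorem res_Wa_const (K : ℕ) (hK : ∀ n : ℕ, 0 < n → n ≤ 2 * K → (n : F) ≠ 0) {a : ℤ}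
    (ha : a ∈ nd K) : PowerSeries.constantCoeff (Wa F K a) ≠ 0 := by
  unfold Wa
  rw [map_prod]
  refine prod_ne_zero_iff.mpr fun b hb => ?_
  have hb' := mem_erase.mp hb
  rw [map_pow, map_add, PowerSeries.constantCoeff_X, zero_add, PowerSeries.constantCoeff_C]
  exact pow_ne_zero 3 (res_ne K hK ha hb'.2 (Ne.symm hb'.1))

/-- a polynomial with zero jets at all nodes and small degree is zero -/
theorem res_zero (K : ℕ) (hK : ∀ n : ℕ, 0 < n → n ≤ 2 * K → (n : F) ≠ 0) (D : F[X])
    (hD : D.natDegree ≤ 6 * K + 2) (hdvd : ∀ a ∈ nd K, (X - C ((a : ℤ) : F)) ^ 3 ∣ D) : D = 0 := by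
  have hprod : ∏ a ∈ nd K, (X - C ((a : ℤ) : F) : F[X]) ^ 3 ∣ D := by
    refine Finset.prod_dvd_of_coprime (fun a ha b hb hab => ?_) hdvd
    refine IsCoprime.pow (isCoprime_X_sub_C_of_isUnit_sub ?_)
    rw [← Int.cast_sub]
    exact (res_ne K hK ha hb hab).isUnit
  refine eq_zero_of_dvd_of_natDegree_lt hprod ?_
  rw [natDegree_prod_of_monic _ _ fun b _ => (monic_X_sub_C ((b : ℤ) : F)).pow 3]
  simp only [natDegree_pow, natDegree_X_sub_C, sum_const, smul_eq_mul, mul_one]
  rw [res_card]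
  omega

/-- the Hermite interpolation polynomial -/
theorem res_sum_jet (K : ℕ) (U : ℤ → PowerSeries F) {a : ℤ} (ha : a ∈ nd K) :
    ∀ n < 3, PowerSeries.coeff n (tl F a (∑ b ∈ nd K, res_G b (U b) * res_P F K b))
      = PowerSeries.coeff n (U a * Wa F K a) := by
  intro n hn
  rw [res_tl_sum, map_sum, ← add_sum_erase _ _ ha, res_GP_self K a (U a) n hn]
  rw [sum_eq_zero, add_zero]
  intro b hb
  exact (res_dvd a _).mp (res_GP_other K ha (Ne.symm (mem_erase.mp hb).1) _) n hn

theorem res_sum_deg (K : ℕ) (U : ℤ → PowerSeries F) :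
    (∑ b ∈ nd K, res_G b (U b) * res_P F K b).natDegree ≤ 6 * K + 2 :=
  natDegree_sum_le_of_forall_le _ _ fun b hb => res_GP_deg K hb (U b)

end ResGen

theorem interp (K : ℕ) (G : ℤ → PowerSeries ℚ) : ∃ g : ℚ[X], g.natDegree ≤ 6 * K + 2 ∧
    ∀ a ∈ nd K, ∀ n ≤ 2, PowerSeries.coeff n (tl ℚ a g) = PowerSeries.coeff n (G a) := by
  refine ⟨∑ b ∈ nd K, res_G b (G b * (Wa ℚ K b)⁻¹) * res_P ℚ K b,
    res_sum_deg K fun b => G b * (Wa ℚ K b)⁻¹, fun a ha n hn => ?_⟩
  have hK : ∀ n : ℕ, 0 < n → n ≤ 2 * K → (n : ℚ) ≠ 0 := fun n h0 _ => by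
    exact_mod_cast h0.ne'
  rw [res_sum_jet K (fun b => G b * (Wa ℚ K b)⁻¹) ha n (by omega), mul_assoc,
    PowerSeries.inv_mul_cancel _ (res_Wa_const K hK ha), mul_one]

theorem res_top {F : Type} [Field F] (h2 : (2 : F) ≠ 0) (K : ℕ)
    (hK : ∀ n : ℕ, 0 < n → n ≤ 2 * K → (n : F) ≠ 0) (h : F[X]) (hd : h.natDegree ≤ 6 * K + 2) :
    ∑ a ∈ nd K, PowerSeries.coeff 2 (tl F a h * (Wa F K a)⁻¹) = h.coeff (6 * K + 2) := by
  set U : ℤ → PowerSeries F := fun a => tl F a h * (Wa F K a)⁻¹ with hU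
  have h0 : h - ∑ b ∈ nd K, res_G b (U b) * res_P F K b = 0 := by
    refine res_zero K hK _ ((natDegree_sub_le _ _).trans (max_le hd (res_sum_deg K U))) ?_
    intro a ha
    rw [res_dvd]
    intro n hn
    rw [res_tl_sub, map_sub, res_sum_jet K U ha n hn]
    simp only [hU]
    rw [mul_assoc, PowerSeries.inv_mul_cancel _ (res_Wa_const K hK ha), mul_one, sub_self]
  have h1 : h.coeff (6 * K + 2) = (∑ b ∈ nd K, res_G b (U b) * res_P F K b).coeff (6 * K + 2) :=
    congrArg (fun q : F[X] => q.coeff (6 * K + 2)) (sub_eq_zero.mp h0)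
  rw [h1, finsetSum_coeff]
  exact sum_congr rfl fun a ha => (res_GP_coeff K ha (U a)).symm

end Pool.Agent.H27.EV
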