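import Pool.Agent.H27.EV.Api

/-!
# EV Root: counting integer roots

`nZ P` = number of roots of `P ∈ ℚ[X]` which are integers, with multiplicity.  For `P ≠ 0` it is additive in products
(`Polynomial.roots_mul`, `Multiset.filter_add`) and invariant under `P(x) ↦ P(x + 1)` (the roots of `P.comp (X + 1)` are
`r - 1`; e.g. `Polynomial.roots_comp...`, `rootMultiplicity` and `taylor`).  `nZ (X + C c) = 1` for an integer `c`, `= 0` for
`c = 1/2, 3/2`.
-/

set_option autoImplicit false

noncomputable section

namespace Pool.Agent.H27.EV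

open Polynomial Finset

open Classical in
/-- the number of integer roots -/
def nZ (P : ℚ[X]) : ℕ := (P.roots.filter fun x => ∃ z : ℤ, (z : ℚ) = x).card

theorem nZ_mul {P Q : ℚ[X]} (hP : P ≠ 0) (hQ : Q ≠ 0) : nZ (P * Q) = nZ P + nZ Q := by
  unfold nZ
  rw [Polynomial.roots_mul (mul_ne_zero hP hQ), Multiset.filter_add, Multiset.card_add]

/-- the roots of the shifted polynomial -/
private theorem root_roots_shift (P : ℚ[X]) :
    (P.comp (X + 1)).roots = P.roots.map (fun x => x - 1) := by
  have h := Polynomial.roots_comp_C_mul_X_add_C P (1 : ℚ) (1 : ℚ) isUnit_one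
  have e : (C (1 : ℚ) * X + C (1 : ℚ) : ℚ[X]) = X + 1 := by
    rw [map_one, one_mul]
  rw [e] at h
  rw [h]
  refine Multiset.map_congr rfl fun x _ => ?_
  simp

theorem nZ_shift (P : ℚ[X]) : nZ (P.comp (X + 1)) = nZ P := by
  classical
  unfold nZ
  rw [root_roots_shift]
  have key : ∀ s : Multiset ℚ,
      (Multiset.filter (fun x => ∃ z : ℤ, (z : ℚ) = x) (s.map (fun x => x - 1))).card
        = (Multiset.filter (fun x => ∃ z : ℤ, (z : ℚ) = x) s).card := by
    intro s
    induction s using Multiset.induction_on with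
    | empty => rfl
    | cons x s ih =>
      rw [Multiset.map_cons, Multiset.filter_cons, Multiset.filter_cons, Multiset.card_add,
        Multiset.card_add, ih]
      have hiff : (∃ z : ℤ, (z : ℚ) = x - 1) ↔ (∃ z : ℤ, (z : ℚ) = x) := by
        constructor
        · rintro ⟨z, hz⟩
          refine ⟨z + 1, ?_⟩
          push_cast
          rw [hz]
          ring
        · rintro ⟨z, hz⟩
          refine ⟨z - 1, ?_⟩
          push_cast
          rw [hz]
      by_cases hx : ∃ z : ℤ, (z : ℚ) = x
      · rw [if_pos hx, if_pos (hiff.mpr hx)]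
        rfl
      · rw [if_neg hx, if_neg (fun h => hx (hiff.mp h))]
  convert key P.roots using 3

private theorem root_roots_lin (c : ℚ) : (X + C c : ℚ[X]).roots = {-c} :=
  Polynomial.roots_X_add_C c

theorem nZ_int (z : ℤ) : nZ (X + C (z : ℚ)) = 1 := by
  unfold nZ
  rw [root_roots_lin, Multiset.filter_singleton, if_pos ⟨-z, by push_cast; rfl⟩]
  rfl

theorem nZ_half (z : ℤ) : nZ (X + C ((z : ℚ) + 1 / 2)) = 0 := by
  unfold nZ
  rw [root_roots_lin, Multiset.filter_singleton, if_neg]
  · rfl
  · rintro ⟨w, hw⟩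
    have h2 : (2 * w + 2 * z + 1 : ℤ) = 0 := by
      have : ((2 * w + 2 * z + 1 : ℤ) : ℚ) = 0 := by
        push_cast
        linarith
      exact_mod_cast this
    omega

end Pool.Agent.H27.EV
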