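import Pool.Agent.H27.EV.Fil
import Pool.Agent.H27.EV.Lin
import Pool.Agent.H27.EV.Lei

/-!
# EV Small: the crude exponent of an odd prime `l ≤ 2 K`, and the crude calculus (also for `l = 2`)

`L = Nat.log l (4 K + 4) + 1`, so `l ^ L > 4 K + 4`.  Everything is done with `Fil l L`: for an integer `c ≠ 0`, `|c| < l ^ L`, the
factor `y + c` is in `Fil l L (v_l c)` with exact constant coefficient, `y` itself is in `Fil l L L`.

`run`: the product of `y + c` over `N ≤ 4 K + 4` consecutive integers `c` (`|c| ≤ 4 K + 4`) is in `Fil l L (v_l (N!))`: with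
`v' (c) = v_l (c)` (`c ≠ 0`), `v' (0) = L`, one has `v' (c) = #{1 ≤ s ≤ L : l ^ s ∣ c}`, each `l ^ s` divides at least
`N / l ^ s` of the `N` numbers, Legendre's formula.

`Wa_small`: `(Wa a)⁻¹ ∈ Fil l L (- 3 v_l ((2 K)!))`, as `∏_{b ≠ a} (a - b) = ± (K + a)! (K - a)!` divides `(2 K)!`.

`jet_small` (`l` odd): `jet a ∈ Fil l L 0`: for `a = -k` the exponent is `v_l (binom (2 k, k)) ≥ 0`
(`∏_{b ≤ k} (2 b - 1) / (2 b) = binom (2 k, k) / 4 ^ k`), for `a = i > 0` it is `L + v ((i - 1)!) - v (∏_{b < i} (2 b + 1))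
= L - v (i binom (2 i, i)) ≥ 0` (`i binom (2 i, i)` divides `lcm (1..2 i)`: `Nat.factorization_choose...`, or directly: the number
of odd `2 b + 1 < 2 i` divisible by `l ^ s` is at most one more than the number of `b < i`, `b ≥ 1`, divisible by `l ^ s`).

`rowS i = ∏_{t < i} (X ^ 2 - t ^ 2)`, at `a`: the run `a - i + 1 .. a + i - 1` and one more factor `y + a`:
`Fil l L (v ((2 i - 1)!))`; `colS j = ∏_{t < j} (X - t)`: `Fil l L (v (j!))`.

`loc_small`: `|J (rowS i * colS j)| ≤ l ^ (2 L + 3 v ((2 K)!) - v ((2 i - 1)!) - v (j!))`; `D_padic` with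
`u i = - v ((2 i - 1)!)`, `v j = 2 L + 3 v ((2 K)!) - v (j!)`, `w = v ((2 K + 9)!)` (the coefficients of `rowS i` are integers);
`D_change`.  Exponent: `2 L K + 3 K v ((2 K)!) - ∑_{i < K + 5} v ((2 i - 1)!) - ∑_{j < K} v (j!) + 5 v ((2 K + 9)!)`; the last five
`i` against `5 w`: at most `50 L`; and for each `q = l ^ s`, `s ≤ L`: `∑_{1 ≤ i < K} ⌊(2 i - 1) / q⌋ + ∑_{j < K} ⌊j / q⌋
≥ (K - 1)^2 / q + K (K - 1) / (2 q) - 2 K ≥ (3/2) K ⌊K / q⌋ - (9/2) K` (`fac_sum`).  Total error
`2 L K + (9/2) K L + 50 L ≤ 20 K L` for `K ≥ 4`.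
-/

set_option autoImplicit false

noncomputable section

namespace Pool.Agent.H27.EV

open Polynomial Finset

/-- the weight `L` -/
def LL (l K : ℕ) : ℕ := Nat.log l (4 * K + 4) + 1

/-- the row polynomials `∏_{t < i} (x ^ 2 - t ^ 2)` -/
def rowS (i : ℕ) : ℚ[X] := ∏ t ∈ range i, (X ^ 2 - C ((t : ℚ) ^ 2))

/-- the column polynomials `∏_{t < j} (x - t)` -/
def colS (j : ℕ) : ℚ[X] := ∏ t ∈ range j, (X - C (t : ℚ))

/-- the `l`-adic valuation of an integer, with the value `L` at `0` -/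
def small_vv (l L : ℕ) (c : ℤ) : ℕ := if c = 0 then L else padicValNat l c.natAbs

theorem small_norm (l : ℕ) [Fact l.Prime] (c : ℤ) (hc : c ≠ 0) :
    padicNorm l (c : ℚ) = (l : ℚ) ^ (-(padicValNat l c.natAbs : ℤ)) := by
  rw [padicNorm.eq_zpow_of_nonzero (by exact_mod_cast hc), padicValRat.of_int]
  rfl

theorem small_one_le (l : ℕ) [hl : Fact l.Prime] : (1 : ℚ) ≤ l := by
  exact_mod_cast hl.out.one_lt.le

theorem small_log (l K n : ℕ) (hn : n ≤ 4 * K + 4) : Nat.log l n < LL l K :=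
  Nat.lt_succ_of_le (Nat.log_mono_right hn)

theorem small_lt (l : ℕ) [Fact l.Prime] (K n : ℕ) (hn : n ≤ 4 * K + 4) :
    padicValNat l n < LL l K :=
  lt_of_le_of_lt (padicValNat_le_nat_log n) (small_log l K n hn)

theorem small_vv_le (l : ℕ) [Fact l.Prime] (K : ℕ) (c : ℤ) (hc : c.natAbs ≤ 4 * K + 4) :
    small_vv l (LL l K) c ≤ LL l K := by
  unfold small_vv
  split_ifs
  · exact le_rfl
  · exact (small_lt l K _ hc).le

theorem small_lin (l : ℕ) [Fact l.Prime] (K : ℕ) (c : ℤ) (hc : c.natAbs ≤ 4 * K + 4) (β : ℚ)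
    (hβ : padicNorm l β ≤ 1) :
    Fil l (LL l K) (small_vv l (LL l K) c)
      (PowerSeries.C β * PowerSeries.X + PowerSeries.C ((c : ℤ) : ℚ)) := by
  apply Fil.lin
  · unfold small_vv
    split_ifs with h
    · rw [h]
      simp only [Int.cast_zero, padicNorm.zero]
      have := small_one_le l
      positivity
    · rw [small_norm l c h]
  · refine hβ.trans ?_
    apply one_le_zpow₀ (small_one_le l)
    have := small_vv_le l K c hc
    omega

theorem small_X (l : ℕ) [Fact l.Prime] (K : ℕ) (c : ℤ) (hc : c.natAbs ≤ 4 * K + 4) :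
    Fil l (LL l K) (small_vv l (LL l K) c)
      (PowerSeries.X + PowerSeries.C ((c : ℤ) : ℚ)) := by
  have h := small_lin l K c hc 1 (by simp)
  rw [map_one, one_mul] at h
  exact h

theorem small_fac (l : ℕ) [Fact l.Prime] (K n : ℕ) (hn : n ≤ 4 * K + 4) :
    padicValNat l n.factorial = ∑ s ∈ Ico 1 (LL l K), n / l ^ s :=
  padicValNat_factorial (small_log l K n hn)

theorem small_fac_succ (l : ℕ) [Fact l.Prime] (n : ℕ) :
    padicValNat l (n + 1).factorial = padicValNat l (n + 1) + padicValNat l n.factorial := by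
  rw [Nat.factorial_succ, padicValNat.mul (by omega) n.factorial_ne_zero]

theorem small_fac_mono (l : ℕ) [Fact l.Prime] {m n : ℕ} (h : m ≤ n) :
    padicValNat l m.factorial ≤ padicValNat l n.factorial := by
  induction n, h using Nat.le_induction with
  | base => exact le_rfl
  | succ n _ ih => rw [small_fac_succ]; omega

/-- counting form of the valuation -/
theorem small_vv_ge (l : ℕ) [hl : Fact l.Prime] (L : ℕ) (c : ℤ) :
    ((Ico 1 (L + 1)).filter fun s => ((l ^ s : ℕ) : ℤ) ∣ c).card ≤ small_vv l L c := by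
  unfold small_vv
  split_ifs with h
  · refine (card_filter_le _ _).trans ?_
    simp
  · have hsub : ((Ico 1 (L + 1)).filter fun s => ((l ^ s : ℕ) : ℤ) ∣ c) ⊆
        Ico 1 (padicValNat l c.natAbs + 1) := by
      intro s hs
      rw [mem_filter, mem_Ico] at hs
      rw [mem_Ico]
      refine ⟨hs.1.1, Nat.lt_succ_of_le ?_⟩
      have h1 : l ^ s ∣ c.natAbs := Int.natCast_dvd.1 hs.2
      exact (padicValNat_dvd_iff_le (Int.natAbs_ne_zero.2 h)).1 h1
    have := card_le_card hsub
    simpa using this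

/-- multiples of `q` among `N` consecutive integers -/
theorem small_count (q : ℕ) (hq : 0 < q) (c : ℤ) (N : ℕ) :
    N / q ≤ ((range N).filter fun t : ℕ => (q : ℤ) ∣ c + t).card := by
  have hq' : (0 : ℤ) < q := by exact_mod_cast hq
  set r : ℕ := ((-c) % q).toNat with hr
  have hr0 : ((r : ℕ) : ℤ) = (-c) % q := by
    rw [hr]; exact Int.toNat_of_nonneg (Int.emod_nonneg _ hq'.ne')
  have hr1 : r < q := by
    have := Int.emod_lt_of_pos (-c) hq'
    omega
  calc N / q = (range (N / q)).card := (card_range _).symm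
    _ ≤ _ := by
      refine card_le_card_of_injOn (fun j => q * j + r) ?_ ?_
      · intro j hj
        have hj' : j < N / q := by simpa using hj
        simp only [coe_filter, mem_range, Set.mem_ofPred_eq]
        constructor
        · have h1 : q * (N / q) ≤ N := Nat.mul_div_le N q
          have h2 : q * (j + 1) ≤ q * (N / q) := Nat.mul_le_mul_left q hj'
          have h3 : q * (j + 1) = q * j + q := by ring
          omega
        · push_cast
          rw [hr0]
          have h4 : -c = q * (-c / q) + (-c) % q := (Int.mul_ediv_add_emod (-c) q).symm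
          refine ⟨j - (-c / q), ?_⟩
          linear_combination (-1 : ℤ) * h4
      · intro j _ j' _ h
        have h5 : q * j + r = q * j' + r := h
        have h6 : q * j = q * j' := by omega
        exact Nat.eq_of_mul_eq_mul_left hq h6

theorem small_run_sum (l : ℕ) [hl : Fact l.Prime] (K : ℕ) (c : ℤ) (N : ℕ)
    (hN : N ≤ 4 * K + 4) :
    padicValNat l N.factorial ≤ ∑ t ∈ range N, small_vv l (LL l K) (c + t) := by
  have h1 : padicValNat l N.factorial = ∑ s ∈ Ico 1 (LL l K + 1), N / l ^ s :=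
    padicValNat_factorial (lt_trans (small_log l K N hN) (Nat.lt_succ_self _))
  rw [h1]
  calc ∑ s ∈ Ico 1 (LL l K + 1), N / l ^ s
      ≤ ∑ s ∈ Ico 1 (LL l K + 1), ((range N).filter fun t : ℕ => ((l ^ s : ℕ) : ℤ) ∣ c + t).card :=
        sum_le_sum fun s _ => small_count (l ^ s) (pow_pos hl.out.pos s) c N
    _ = ∑ t ∈ range N, ((Ico 1 (LL l K + 1)).filter fun s => ((l ^ s : ℕ) : ℤ) ∣ c + t).card := by
        simp only [card_filter]
        exact sum_comm
    _ ≤ _ := sum_le_sum fun t _ => small_vv_ge l (LL l K) (c + t)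

theorem run (l : ℕ) [Fact l.Prime] (K : ℕ) (c : ℤ) (N : ℕ) (hN : N ≤ 4 * K + 4)
    (h1 : -(4 * K + 4 : ℤ) ≤ c) (h2 : c + N ≤ 4 * K + 4) :
    Fil l (LL l K) (padicValNat l N.factorial)
      (∏ t ∈ range N, (PowerSeries.X + PowerSeries.C ((c + t : ℤ) : ℚ))) := by
  have h := Fil.prod (l := l) (s := LL l K) (range N)
    (fun t : ℕ => (small_vv l (LL l K) (c + t) : ℤ))
    (fun t : ℕ => (PowerSeries.X + PowerSeries.C ((c + t : ℤ) : ℚ))) (fun t ht => by
      rw [mem_range] at ht
      exact small_X l K (c + t) (by omega))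
  refine h.mono ?_
  have := small_run_sum l K c N hN
  exact_mod_cast this

theorem small_norm_prod (l : ℕ) [Fact l.Prime] {ι : Type} (s : Finset ι) (f : ι → ℚ) :
    padicNorm l (∏ i ∈ s, f i) = ∏ i ∈ s, padicNorm l (f i) := by
  classical
  induction s using Finset.induction_on with
  | empty => simp
  | insert i s hi ih => rw [prod_insert hi, prod_insert hi, padicNorm.mul, ih]

theorem small_norm_pow (l : ℕ) [Fact l.Prime] (q : ℚ) (n : ℕ) :
    padicNorm l (q ^ n) = padicNorm l q ^ n := by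
  induction n with
  | zero => simp
  | succ n ih => rw [pow_succ, pow_succ, padicNorm.mul, ih]

theorem small_zpow_prod (l : ℕ) [hl : Fact l.Prime] {ι : Type} (s : Finset ι) (e : ι → ℤ) :
    ∏ i ∈ s, (l : ℚ) ^ (e i) = (l : ℚ) ^ (∑ i ∈ s, e i) := by
  classical
  have hl0 : (l : ℚ) ≠ 0 := by exact_mod_cast hl.out.ne_zero
  induction s using Finset.induction_on with
  | empty => simp
  | insert i s hi ih => rw [prod_insert hi, sum_insert hi, ih, zpow_add₀ hl0]

theorem small_fac_range (l : ℕ) [Fact l.Prime] (n : ℕ) :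
    ∑ j ∈ range n, padicValNat l (j + 1) = padicValNat l n.factorial := by
  induction n with
  | zero => simp
  | succ n ih => rw [sum_range_succ, ih, small_fac_succ]; ring

theorem small_fac_add (l : ℕ) [Fact l.Prime] (m n : ℕ) :
    padicValNat l m.factorial + padicValNat l n.factorial ≤ padicValNat l (m + n).factorial := by
  obtain ⟨c, hc⟩ := Nat.factorial_mul_factorial_dvd_factorial_add m n
  have hc0 : c ≠ 0 := by
    rintro rfl
    rw [mul_zero] at hc
    exact (m + n).factorial_ne_zero hc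
  rw [hc, padicValNat.mul (mul_ne_zero m.factorial_ne_zero n.factorial_ne_zero) hc0,
    padicValNat.mul m.factorial_ne_zero n.factorial_ne_zero]
  omega

theorem small_wsum (l : ℕ) [Fact l.Prime] (K : ℕ) (a : ℤ) (ha : a ∈ nd K) :
    ∑ b ∈ (nd K).erase a, padicValNat l (a - b).natAbs ≤ padicValNat l (2 * K).factorial := by
  unfold nd at ha ⊢
  rw [mem_Icc] at ha
  have hsplit : (Icc (-(K : ℤ)) K).erase a = Ico (-(K : ℤ)) a ∪ Ioc a (K : ℤ) := by
    ext b
    simp only [mem_erase, mem_Icc, mem_union, mem_Ico, mem_Ioc]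
    omega
  have hdisj : Disjoint (Ico (-(K : ℤ)) a) (Ioc a (K : ℤ)) := by
    rw [disjoint_left]
    intro b hb hb'
    rw [mem_Ico] at hb
    rw [mem_Ioc] at hb'
    omega
  rw [hsplit, sum_union hdisj]
  have h1 : ∑ b ∈ Ico (-(K : ℤ)) a, padicValNat l (a - b).natAbs =
      padicValNat l ((K : ℤ) + a).toNat.factorial := by
    rw [← small_fac_range]
    symm
    refine sum_bij (fun (j : ℕ) _ => a - (j + 1 : ℤ)) ?_ ?_ ?_ ?_
    · intro j hj
      rw [mem_range] at hj
      rw [mem_Ico]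
      omega
    · intro j _ j' _ h
      omega
    · intro b hb
      rw [mem_Ico] at hb
      refine ⟨(a - b - 1).toNat, ?_, ?_⟩
      · rw [mem_range]; omega
      · omega
    · intro j _
      congr 1
      omega
  have h2 : ∑ b ∈ Ioc a (K : ℤ), padicValNat l (a - b).natAbs =
      padicValNat l ((K : ℤ) - a).toNat.factorial := by
    rw [← small_fac_range]
    symm
    refine sum_bij (fun (j : ℕ) _ => a + (j + 1 : ℤ)) ?_ ?_ ?_ ?_
    · intro j hj
      rw [mem_range] at hj
      rw [mem_Ioc]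
      omega
    · intro j _ j' _ h
      omega
    · intro b hb
      rw [mem_Ioc] at hb
      refine ⟨(b - a - 1).toNat, ?_, ?_⟩
      · rw [mem_range]; omega
      · omega
    · intro j _
      congr 1
      omega
  rw [h1, h2]
  refine (small_fac_add l _ _).trans (le_of_eq ?_)
  congr 2
  omega

theorem Wa_small (l : ℕ) [Fact l.Prime] (K : ℕ) (a : ℤ) (ha : a ∈ nd K) :
    Fil l (LL l K) (-(3 * (padicValNat l (2 * K).factorial : ℤ))) (Wa ℚ K a)⁻¹ := by
  have hne : ∀ b ∈ (nd K).erase a, a - b ≠ 0 := by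
    intro b hb
    have := (mem_erase.1 hb).1
    omega
  have hab : ∀ b ∈ (nd K).erase a, (a - b).natAbs ≤ 4 * K + 4 := by
    intro b hb
    have h1 := (mem_erase.1 hb).2
    unfold nd at h1 ha
    rw [mem_Icc] at h1 ha
    omega
  have h1 : Fil l (LL l K) (∑ b ∈ (nd K).erase a, ((3 : ℕ) : ℤ) * (small_vv l (LL l K) (a - b) : ℤ))
      (Wa ℚ K a) := by
    unfold Wa
    exact Fil.prod _ (fun b : ℤ => ((3 : ℕ) : ℤ) * (small_vv l (LL l K) (a - b) : ℤ))
      (fun b : ℤ => (PowerSeries.X + PowerSeries.C ((a - b : ℤ) : ℚ)) ^ 3)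
      (fun b hb => (small_X l K (a - b) (hab b hb)).pow 3)
  have h2 : padicNorm l (PowerSeries.constantCoeff (Wa ℚ K a)) =
      (l : ℚ) ^ (-(∑ b ∈ (nd K).erase a, ((3 : ℕ) : ℤ) * (small_vv l (LL l K) (a - b) : ℤ))) := by
    unfold Wa
    rw [map_prod, small_norm_prod, ← sum_neg_distrib, ← small_zpow_prod]
    refine prod_congr rfl fun b hb => ?_
    rw [map_pow, map_add, PowerSeries.constantCoeff_X, zero_add, PowerSeries.constantCoeff_C,
      small_norm_pow, small_norm l _ (hne b hb)]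
    unfold small_vv
    rw [if_neg (hne b hb), ← zpow_natCast, ← zpow_mul]
    congr 1
    ring
  refine (h1.inv h2).mono ?_
  apply neg_le_neg
  have h3 : ∑ b ∈ (nd K).erase a, ((3 : ℕ) : ℤ) * (small_vv l (LL l K) (a - b) : ℤ) =
      3 * ((∑ b ∈ (nd K).erase a, padicValNat l (a - b).natAbs : ℕ) : ℤ) := by
    rw [Nat.cast_sum, mul_sum]
    refine sum_congr rfl fun b hb => ?_
    unfold small_vv
    rw [if_neg (hne b hb)]
    norm_num
  rw [h3]
  have := small_wsum l K a ha
  omega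

theorem small_v_two (l : ℕ) [Fact l.Prime] (hl2 : l ≠ 2) : padicValNat l 2 = 0 := by
  apply padicValNat.eq_zero_of_not_dvd
  intro h
  exact hl2 ((Nat.prime_dvd_prime_iff_eq (Fact.out : l.Prime) Nat.prime_two).1 h)

theorem small_v_double (l : ℕ) [Fact l.Prime] (hl2 : l ≠ 2) (t : ℕ) (ht : t ≠ 0) :
    padicValNat l (2 * t) = padicValNat l t := by
  rw [padicValNat.mul two_ne_zero ht, small_v_two l hl2, zero_add]

theorem small_norm_two (l : ℕ) [Fact l.Prime] : padicNorm l 2 ≤ 1 := by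
  have := padicNorm.of_int (p := l) 2
  simpa using this

/-- the odd numbers -/
theorem small_odd (l : ℕ) [Fact l.Prime] (hl2 : l ≠ 2) (i : ℕ) :
    ∑ t ∈ range i, padicValNat l (2 * t + 1) + padicValNat l i.factorial =
      padicValNat l (2 * i).factorial := by
  induction i with
  | zero => simp
  | succ i ih =>
    have e : 2 * (i + 1) = (2 * i + 1) + 1 := by ring
    rw [sum_range_succ, e, small_fac_succ, small_fac_succ, small_fac_succ, ← ih, ← e,
      small_v_double l hl2 _ (Nat.succ_ne_zero i)]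
    ring

theorem small_half (q : ℕ) (hq : 0 < q) (i : ℕ) (hi : 1 ≤ i) :
    2 * i / q ≤ i / q + (i - 1) / q + 1 := by
  have h1 := Nat.div_add_mod i q
  have h2 := Nat.mod_lt i hq
  have h3 := Nat.div_add_mod (i - 1) q
  have h4 := Nat.mod_lt (i - 1) hq
  have h5 : 2 * i < q * (i / q + (i - 1) / q + 2) := by
    have : q * (i / q + (i - 1) / q + 2) = q * (i / q) + q * ((i - 1) / q) + 2 * q := by ring
    omega
  have h6 := Nat.div_lt_of_lt_mul h5
  omega

theorem small_pos_exp (l : ℕ) [Fact l.Prime] (hl2 : l ≠ 2) (K i : ℕ) (hi : i ≤ K) :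
    ∑ t ∈ range i, padicValNat l (2 * t + 1) ≤
      ∑ t ∈ range i, small_vv l (LL l K) (2 * (t : ℤ)) := by
  rcases Nat.eq_zero_or_pos i with rfl | hi0
  · simp
  · obtain ⟨j, rfl⟩ : ∃ j, i = j + 1 := ⟨i - 1, by omega⟩
    have h1 : ∑ t ∈ range (j + 1), small_vv l (LL l K) (2 * (t : ℤ)) =
        padicValNat l j.factorial + LL l K := by
      rw [sum_range_succ', ← small_fac_range]
      congr 1
      refine sum_congr rfl fun t _ => ?_
      unfold small_vv
      rw [if_neg (by omega)]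
      have : (2 * ((t + 1 : ℕ) : ℤ)).natAbs = 2 * (t + 1) := by omega
      rw [this, small_v_double l hl2 _ (Nat.succ_ne_zero t)]
    rw [h1]
    have h2 := small_odd l hl2 (j + 1)
    have h3 : padicValNat l (2 * (j + 1)).factorial ≤
        padicValNat l (j + 1).factorial + padicValNat l j.factorial + (LL l K - 1) := by
      rw [small_fac l K (2 * (j + 1)) (by omega), small_fac l K (j + 1) (by omega),
        small_fac l K j (by omega), ← sum_add_distrib]
      have h4 : LL l K - 1 = ∑ s ∈ Ico 1 (LL l K), 1 := by simp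
      rw [h4, ← sum_add_distrib]
      refine sum_le_sum fun s _ => ?_
      have := small_half (l ^ s) (pow_pos (Fact.out : l.Prime).pos s) (j + 1) (by omega)
      simpa using this
    omega

theorem small_fpos (l : ℕ) [Fact l.Prime] (K i : ℕ) (hi : i ≤ K) :
    Fil l (LL l K) ((∑ t ∈ range i, small_vv l (LL l K) (2 * (t : ℤ)) : ℕ) -
      (∑ t ∈ range i, padicValNat l (2 * t + 1) : ℕ) : ℤ) (fpos ℚ i) := by
  induction i with
  | zero => simpa [fpos] using (Fil.one (l := l) (s := LL l K))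
  | succ i ih =>
    have h1 : Fil l (LL l K) (small_vv l (LL l K) (2 * (i : ℤ))) (wf ℚ i) :=
      small_lin l K (2 * (i : ℤ)) (by omega) 2 (small_norm_two l)
    have h2 : Fil l (LL l K) (padicValNat l (2 * i + 1)) (hf ℚ i) := by
      have h := small_lin l K (2 * (i : ℤ) + 1) (by omega) 2 (small_norm_two l)
      unfold small_vv at h
      rw [if_neg (by omega), show (2 * (i : ℤ) + 1).natAbs = 2 * i + 1 by omega] at h
      exact h
    have h3 : padicNorm l (PowerSeries.constantCoeff (hf ℚ (i : ℤ))) =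
        (l : ℚ) ^ (-(padicValNat l (2 * i + 1) : ℤ)) := by
      rw [coeff_hf_zero, small_norm l _ (by omega), show (2 * (i : ℤ) + 1).natAbs = 2 * i + 1 by omega]
    have h4 := (h1.mul (h2.inv h3)).mul (ih (by omega))
    rw [sum_range_succ, sum_range_succ]
    refine h4.mono (le_of_eq ?_)
    rw [Nat.cast_add, Nat.cast_add]
    ring

theorem small_fneg (l : ℕ) [Fact l.Prime] (hl2 : l ≠ 2) (K k : ℕ) (hk : k ≤ K) :
    Fil l (LL l K) ((∑ t ∈ range k, padicValNat l (2 * t + 1) : ℕ) -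
      (padicValNat l k.factorial : ℕ) : ℤ) (fneg ℚ k) := by
  induction k with
  | zero => simpa [fneg] using (Fil.one (l := l) (s := LL l K))
  | succ k ih =>
    have h1 : Fil l (LL l K) (padicValNat l (2 * k + 1)) (hf ℚ (-(k + 1 : ℤ))) := by
      have h := small_lin l K (2 * (-(k + 1 : ℤ)) + 1) (by omega) 2 (small_norm_two l)
      unfold small_vv at h
      rw [if_neg (by omega), show (2 * (-(k + 1 : ℤ)) + 1).natAbs = 2 * k + 1 by omega] at h
      exact h
    have h2 : Fil l (LL l K) (padicValNat l (k + 1)) (wf ℚ (-(k + 1 : ℤ))) := by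
      have h := small_lin l K (2 * (-(k + 1 : ℤ))) (by omega) 2 (small_norm_two l)
      unfold small_vv at h
      rw [if_neg (by omega), show (2 * (-(k + 1 : ℤ))).natAbs = 2 * (k + 1) by omega,
        small_v_double l hl2 _ (Nat.succ_ne_zero k)] at h
      exact h
    have h3 : padicNorm l (PowerSeries.constantCoeff (wf ℚ (-(k + 1 : ℤ)))) =
        (l : ℚ) ^ (-(padicValNat l (k + 1) : ℤ)) := by
      rw [coeff_wf_zero, small_norm l _ (by omega),
        show (2 * (-(k + 1 : ℤ))).natAbs = 2 * (k + 1) by omega,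
        small_v_double l hl2 _ (Nat.succ_ne_zero k)]
    have h4 := (h1.mul (h2.inv h3)).mul (ih (by omega))
    rw [sum_range_succ, small_fac_succ]
    refine h4.mono (le_of_eq ?_)
    rw [Nat.cast_add, Nat.cast_add]
    ring

theorem jet_small (l : ℕ) [Fact l.Prime] (hl2 : l ≠ 2) (K : ℕ) (a : ℤ) (ha : a ∈ nd K) :
    Fil l (LL l K) 0 (jet ℚ a) := by
  unfold nd at ha
  rw [mem_Icc] at ha
  cases a with
  | ofNat i =>
    have hi : i ≤ K := by
      have := ha.2
      rw [Int.ofNat_eq_natCast] at this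
      omega
    have h := small_fpos l K i hi
    have h2 := small_pos_exp l hl2 K i hi
    refine Fil.mono (e := _) h ?_
    omega
  | negSucc k =>
    have hk : k + 1 ≤ K := by
      have := ha.1
      rw [Int.negSucc_eq] at this
      omega
    have h := small_fneg l hl2 K (k + 1) hk
    refine Fil.mono (e := _) h ?_
    have h2 := small_odd l hl2 (k + 1)
    have h3 := small_fac_add l (k + 1) (k + 1)
    have h5 : k + 1 + (k + 1) = 2 * (k + 1) := by ring
    rw [h5] at h3
    omega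

theorem rowS_ev (i : ℕ) : IsEv i (rowS i) := by
  have hm : ∀ t ∈ range i, (X ^ 2 - C ((t : ℚ) ^ 2) : ℚ[X]).Monic :=
    fun t _ => monic_X_pow_sub_C _ two_ne_zero
  refine ⟨monic_prod_of_monic _ _ hm, ?_, ?_⟩
  · unfold rowS
    rw [natDegree_prod_of_monic _ _ hm]
    simp only [natDegree_X_pow_sub_C, sum_const, card_range, smul_eq_mul]
    ring
  · intro n hn
    have h : rowS i = expand ℚ 2 (∏ t ∈ range i, (X - C ((t : ℚ) ^ 2))) := by
      unfold rowS
      rw [map_prod]
      refine prod_congr rfl fun t _ => ?_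
      rw [map_sub, expand_X, expand_C]
    rw [h, coeff_expand two_pos, if_neg]
    rwa [← even_iff_two_dvd]

theorem colS_mon (j : ℕ) : IsMon j (colS j) := by
  have hm : ∀ t ∈ range j, (X - C (t : ℚ) : ℚ[X]).Monic := fun t _ => monic_X_sub_C _
  refine ⟨monic_prod_of_monic _ _ hm, ?_⟩
  unfold colS
  rw [natDegree_prod_of_monic _ _ hm]
  simp only [natDegree_X_sub_C, sum_const, card_range, smul_eq_mul, mul_one]

theorem rowS_int (l : ℕ) [Fact l.Prime] (i n : ℕ) : padicNorm l ((rowS i).coeff n) ≤ 1 := by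
  have h : rowS i = (∏ t ∈ range i, (X ^ 2 - C ((t : ℤ) ^ 2)) : ℤ[X]).map (Int.castRingHom ℚ) := by
    unfold rowS
    rw [Polynomial.map_prod]
    refine prod_congr rfl fun t _ => ?_
    simp
  rw [h, coeff_map]
  exact padicNorm.of_int _

theorem small_tl_prod {ι : Type} (s : Finset ι) (a : ℤ) (f : ι → ℚ[X]) :
    tl ℚ a (∏ i ∈ s, f i) = ∏ i ∈ s, tl ℚ a (f i) := by
  classical
  induction s using Finset.induction_on with
  | empty => simp [tl_one]
  | insert i s hi ih => rw [prod_insert hi, prod_insert hi, tl_mul, ih]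

theorem small_row_prod (a : ℤ) (i : ℕ) (hi : 1 ≤ i) :
    ∏ t ∈ range i, ((PowerSeries.X + PowerSeries.C ((a - t : ℤ) : ℚ)) *
      (PowerSeries.X + PowerSeries.C ((a + t : ℤ) : ℚ))) =
    (PowerSeries.X + PowerSeries.C ((a : ℤ) : ℚ)) *
      ∏ t ∈ range (2 * i - 1), (PowerSeries.X + PowerSeries.C (((a - i + 1) + t : ℤ) : ℚ)) := by
  induction i, hi using Nat.le_induction with
  | base => simp
  | succ i hi ih =>
    rw [prod_range_succ, ih]
    have e : 2 * (i + 1) - 1 = (2 * i - 1) + 1 + 1 := by omega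
    rw [e, prod_range_succ, prod_range_succ']
    have e1 : ∀ t : ℕ, ((a - ((i + 1 : ℕ) : ℤ) + 1) + ((t + 1 : ℕ) : ℤ) : ℤ) = (a - i + 1) + t := by
      intro t; push_cast; ring
    have e2 : ((a - ((i + 1 : ℕ) : ℤ) + 1) + ((0 : ℕ) : ℤ) : ℤ) = a - i := by push_cast; ring
    have e3 : ((a - i + 1) + ((2 * i - 1 : ℕ) : ℤ) : ℤ) = a + i := by omega
    simp only [e1, e2]
    rw [e3]
    ring

theorem rowS_fil (l : ℕ) [Fact l.Prime] (K : ℕ) (hK : 4 ≤ K) (i : ℕ) (hi : i < K + 5) (a : ℤ)
    (ha : a ∈ nd K) : Fil l (LL l K) (padicValNat l (2 * i - 1).factorial) (tl ℚ a (rowS i)) := by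
  have hN := ha
  unfold nd at hN
  rw [mem_Icc] at hN
  rcases Nat.eq_zero_or_pos i with rfl | hi0
  · have : rowS 0 = 1 := by simp [rowS]
    rw [this, tl_one]
    simpa using (Fil.one (l := l) (s := LL l K))
  · have h1 : tl ℚ a (rowS i) = ∏ t ∈ range i, ((PowerSeries.X + PowerSeries.C ((a - t : ℤ) : ℚ)) *
        (PowerSeries.X + PowerSeries.C ((a + t : ℤ) : ℚ))) := by
      unfold rowS
      rw [small_tl_prod]
      refine prod_congr rfl fun t _ => ?_
      have h2 : (X ^ 2 - C ((t : ℚ) ^ 2) : ℚ[X]) = (X + C (-(t : ℚ))) * (X + C (t : ℚ)) := by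
        rw [map_neg, map_pow]; ring
      rw [h2, tl_mul, tl_add, tl_add, tl_X, tl_C, tl_C, add_assoc, add_assoc, ← map_add,
        ← map_add]
      push_cast
      rw [← sub_eq_add_neg]
    rw [h1, small_row_prod a i hi0]
    have h3 := run l K (a - i + 1) (2 * i - 1) (by omega) (by omega) (by omega)
    have h4 := (small_X l K a (by omega)).mul h3
    refine h4.mono ?_
    omega

theorem small_div_ge (q : ℕ) (hq : 0 < q) (n : ℕ) : (n : ℝ) / q - 1 ≤ ((n / q : ℕ) : ℝ) := by
  have hq' : (0 : ℝ) < q := by exact_mod_cast hq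
  have h1 : n < q * (n / q + 1) := by
    have h2 := Nat.div_add_mod n q
    have h3 := Nat.mod_lt n hq
    have h4 : q * (n / q + 1) = q * (n / q) + q := by ring
    omega
  have h5 : (n : ℝ) < q * (((n / q : ℕ) : ℝ) + 1) := by exact_mod_cast h1
  rw [sub_le_iff_le_add, div_le_iff₀ hq']
  linarith

theorem small_gauss (K : ℕ) : ∑ j ∈ range K, (j : ℝ) = (K : ℝ) * (K - 1) / 2 := by
  induction K with
  | zero => simp
  | succ K ih => rw [sum_range_succ, ih]; push_cast; ring

theorem small_key (q : ℕ) (hq : 0 < q) (K : ℕ) :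
    3 / 2 * (K : ℝ) * ((K / q : ℕ) : ℝ) - 9 / 2 * K ≤
      ∑ i ∈ range K, (((2 * i - 1) / q : ℕ) : ℝ) + ∑ j ∈ range K, ((j / q : ℕ) : ℝ) := by
  have hq' : (0 : ℝ) < q := by exact_mod_cast hq
  have hq1 : (1 : ℝ) ≤ q := by exact_mod_cast hq
  have h1 : ∑ i ∈ range K, ((2 * (i : ℝ) - 1) / q - 1) ≤
      ∑ i ∈ range K, (((2 * i - 1) / q : ℕ) : ℝ) := by
    refine sum_le_sum fun i _ => ?_
    refine le_trans ?_ (small_div_ge q hq (2 * i - 1))
    have h2 : 2 * (i : ℝ) - 1 ≤ ((2 * i - 1 : ℕ) : ℝ) := by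
      rcases Nat.eq_zero_or_pos i with rfl | hi
      · norm_num
      · rw [Nat.cast_sub (by omega)]
        push_cast
        exact le_rfl
    have h3 := div_le_div_of_nonneg_right h2 hq'.le
    linarith
  have h2 : ∑ j ∈ range K, ((j : ℝ) / q - 1) ≤ ∑ j ∈ range K, ((j / q : ℕ) : ℝ) :=
    sum_le_sum fun j _ => small_div_ge q hq j
  have h3 : ∑ i ∈ range K, ((2 * (i : ℝ) - 1) / q - 1) = ((K : ℝ) * (K - 1) - K) / q - K := by
    rw [sum_sub_distrib, ← sum_div, sum_sub_distrib, ← mul_sum, small_gauss]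
    simp only [sum_const, card_range, nsmul_eq_mul, mul_one]
    ring
  have h4 : ∑ j ∈ range K, ((j : ℝ) / q - 1) = ((K : ℝ) * (K - 1) / 2) / q - K := by
    rw [sum_sub_distrib, ← sum_div, small_gauss]
    simp only [sum_const, card_range, nsmul_eq_mul, mul_one]
  rw [h3] at h1
  rw [h4] at h2
  have h5 : ((K / q : ℕ) : ℝ) ≤ (K : ℝ) / q := Nat.cast_div_le
  have h6 : 3 / 2 * (K : ℝ) * ((K / q : ℕ) : ℝ) ≤ 3 / 2 * (K : ℝ) * ((K : ℝ) / q) :=
    mul_le_mul_of_nonneg_left h5 (by positivity)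
  have h7 : (K : ℝ) / q ≤ K := by
    rw [div_le_iff₀ hq']
    nlinarith [(Nat.cast_nonneg K : (0 : ℝ) ≤ K)]
  have h8 : ((K : ℝ) * (K - 1) - K) / q - K + (((K : ℝ) * (K - 1) / 2) / q - K) =
      3 / 2 * (K : ℝ) * ((K : ℝ) / q) - 5 / 2 * ((K : ℝ) / q) - 2 * K := by
    field_simp
    ring
  linarith

/-- the factorial sums: the value of `R = (2 K)! ^ (3 K) / K! ^ (3 K / 2)` up to `20 K L` -/
theorem fac_sum (l : ℕ) [Fact l.Prime] (K : ℕ) (hK : 4 ≤ K) :
    3 / 2 * (K : ℝ) * padicValNat l K.factorial - 9 / 2 * K * LL l K ≤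
      ∑ i ∈ range K, (padicValNat l (2 * i - 1).factorial : ℝ)
        + ∑ j ∈ range K, (padicValNat l j.factorial : ℝ) := by
  have hL1 : 1 ≤ LL l K := by unfold LL; omega
  have e1 : ∑ i ∈ range K, (padicValNat l (2 * i - 1).factorial : ℝ) =
      ∑ s ∈ Ico 1 (LL l K), ∑ i ∈ range K, (((2 * i - 1) / l ^ s : ℕ) : ℝ) := by
    rw [sum_comm]
    refine sum_congr rfl fun i hi => ?_
    rw [mem_range] at hi
    rw [small_fac l K _ (by omega)]
    push_cast
    rfl
  have e2 : ∑ j ∈ range K, (padicValNat l j.factorial : ℝ) =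
      ∑ s ∈ Ico 1 (LL l K), ∑ j ∈ range K, ((j / l ^ s : ℕ) : ℝ) := by
    rw [sum_comm]
    refine sum_congr rfl fun i hi => ?_
    rw [mem_range] at hi
    rw [small_fac l K _ (by omega)]
    push_cast
    rfl
  have e3 : (padicValNat l K.factorial : ℝ) = ∑ s ∈ Ico 1 (LL l K), ((K / l ^ s : ℕ) : ℝ) := by
    rw [small_fac l K _ (by omega)]
    push_cast
    rfl
  rw [e1, e2, ← sum_add_distrib, e3, mul_sum]
  have key : ∀ s ∈ Ico 1 (LL l K), 3 / 2 * (K : ℝ) * ((K / l ^ s : ℕ) : ℝ) - 9 / 2 * K ≤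
      ∑ i ∈ range K, (((2 * i - 1) / l ^ s : ℕ) : ℝ) + ∑ j ∈ range K, ((j / l ^ s : ℕ) : ℝ) := by
    intro s _
    exact small_key (l ^ s) (pow_pos (Fact.out : l.Prime).pos s) K
  have h := sum_le_sum key
  rw [sum_sub_distrib, sum_const, Nat.card_Ico, nsmul_eq_mul] at h
  refine le_trans ?_ h
  have hc : ((LL l K - 1 : ℕ) : ℝ) ≤ (LL l K : ℝ) := by exact_mod_cast Nat.sub_le _ _
  have hK0 : (0 : ℝ) ≤ 9 / 2 * (K : ℝ) := by positivity
  nlinarith

theorem small_fac_steps (l : ℕ) [Fact l.Prime] (K n s : ℕ) (h : n + s ≤ 4 * K + 4) :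
    padicValNat l (n + s).factorial ≤ padicValNat l n.factorial + s * LL l K := by
  induction s with
  | zero => simp
  | succ s ih =>
    have h1 := ih (by omega)
    rw [← add_assoc, small_fac_succ]
    have h2 := small_lt l K (n + s + 1) (by omega)
    have h3 : (s + 1) * LL l K = s * LL l K + LL l K := by ring
    omega

/-- the last five rows against the unit columns -/
theorem fac_tail (l : ℕ) [Fact l.Prime] (K : ℕ) (hK : 4 ≤ K) (i : ℕ) (hi : K ≤ i) :
    padicValNat l (2 * K + 9).factorial ≤ padicValNat l (2 * i - 1).factorial + 10 * LL l K := by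
  have h1 := small_fac_steps l K (2 * K - 1) 10 (by omega)
  have h2 : 2 * K - 1 + 10 = 2 * K + 9 := by omega
  rw [h2] at h1
  have h3 := small_fac_mono l (show 2 * K - 1 ≤ 2 * i - 1 by omega)
  omega

theorem small_col_fil (l : ℕ) [Fact l.Prime] (K : ℕ) (j : ℕ) (hj : j < K) (a : ℤ)
    (ha : a ∈ nd K) : Fil l (LL l K) (padicValNat l j.factorial) (tl ℚ a (colS j)) := by
  unfold nd at ha
  rw [mem_Icc] at ha
  have h1 : tl ℚ a (colS j) =
      ∏ t ∈ range j, (PowerSeries.X + PowerSeries.C (((a - j + 1) + t : ℤ) : ℚ)) := by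
    unfold colS
    rw [small_tl_prod, ← prod_range_reflect]
    refine prod_congr rfl fun t ht => ?_
    rw [mem_range] at ht
    have h2 : (X - C (((j - 1 - t : ℕ) : ℚ)) : ℚ[X]) = X + C (-((j - 1 - t : ℕ) : ℚ)) := by
      rw [map_neg]; ring
    rw [h2, tl_add, tl_X, tl_C, add_assoc, ← map_add]
    congr 2
    have h3 : ((j - 1 - t : ℕ) : ℤ) = j - 1 - t := by omega
    have h4 : ((j - 1 - t : ℕ) : ℚ) = j - 1 - t := by exact_mod_cast h3
    rw [h4]
    push_cast
    ring
  rw [h1]
  exact run l K (a - j + 1) j (by omega) (by omega) (by omega)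

theorem small_entry (l : ℕ) [Fact l.Prime] (hl2 : l ≠ 2) (K : ℕ) (hK : 4 ≤ K) (i j : ℕ)
    (hi : i < K + 5) (hj : j < K) :
    padicNorm l (J ℚ K (rowS i * colS j)) ≤
      (l : ℚ) ^ (-(padicValNat l (2 * i - 1).factorial : ℤ) +
        (2 * (LL l K : ℤ) + 3 * (padicValNat l (2 * K).factorial : ℤ) -
          (padicValNat l j.factorial : ℤ))) := by
  have hl1 := small_one_le l
  unfold J
  refine padicNorm.sum_le' (fun a ha => ?_) (by positivity)
  unfold Jt
  rw [tl_mul]
  have h := ((jet_small l hl2 K a ha).mul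
    ((rowS_fil l K hK i hi a ha).mul (small_col_fil l K j hj a ha))).mul (Wa_small l K a ha)
  refine (h 2).trans (le_of_eq ?_)
  congr 1
  push_cast
  ring

theorem loc_small (l : ℕ) [Fact l.Prime] (hl2 : l ≠ 2) (K : ℕ) (hK : 4 ≤ K)
    (E : Fin 5 → Fin (K + 5)) :
    ∃ e : ℤ, padicNorm l (D0 K E) ≤ (l : ℚ) ^ e ∧
      (e : ℝ) ≤ 3 * K * padicValNat l (2 * K).factorial - 3 / 2 * K * padicValNat l K.factorial
        + 20 * K * LL l K := by
  refine ⟨∑ i ∈ range (K + 5), (-(padicValNat l (2 * i - 1).factorial : ℤ)) +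
    ∑ j ∈ range K, (2 * (LL l K : ℤ) + 3 * (padicValNat l (2 * K).factorial : ℤ) -
      (padicValNat l j.factorial : ℤ)) + 5 * (padicValNat l (2 * K + 9).factorial : ℤ), ?_, ?_⟩
  · rw [← D_change K E rowS_ev colS_mon]
    refine D_padic l K E rowS colS (fun i => -(padicValNat l (2 * i - 1).factorial : ℤ))
      (fun j => 2 * (LL l K : ℤ) + 3 * (padicValNat l (2 * K).factorial : ℤ) -
        (padicValNat l j.factorial : ℤ)) (padicValNat l (2 * K + 9).factorial : ℤ) ?_ ?_
    · intro i hi j hj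
      exact small_entry l hl2 K hK i j hi hj
    · intro i hi s _
      refine (rowS_int l i _).trans (one_le_zpow₀ (small_one_le l) ?_)
      have := small_fac_mono l (show 2 * i - 1 ≤ 2 * K + 9 by omega)
      omega
  · have h1 := fac_sum l K hK
    have h2 : ∀ s ∈ range 5, (padicValNat l (2 * K + 9).factorial : ℝ) ≤
        (padicValNat l (2 * (K + s) - 1).factorial : ℝ) + 10 * LL l K := by
      intro s _
      have := fac_tail l K hK (K + s) (by omega)
      exact_mod_cast this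
    have h3 := sum_le_sum h2
    rw [sum_add_distrib] at h3
    simp only [sum_const, card_range, nsmul_eq_mul] at h3
    simp only [Nat.cast_ofNat] at h3
    simp only [Int.cast_add, Int.cast_sum, Int.cast_neg, Int.cast_sub, Int.cast_mul,
      Int.cast_ofNat, Int.cast_natCast]
    rw [sum_neg_distrib, sum_range_add, sum_sub_distrib]
    simp only [sum_const, card_range, nsmul_eq_mul]
    have hK4 : (4 : ℝ) ≤ K := by exact_mod_cast hK
    have hL0 : (0 : ℝ) ≤ LL l K := by positivity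
    nlinarith

end Pool.Agent.H27.EV
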