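import Pool.Agent.H27.EV.Res
import Pool.Agent.H27.EV.Cas

/-!
# EV Zer: the zero estimate

`low_deg`: by induction: if `natDegree g ≤ 6 K + 2 - n`, `n < M`, then `g * X ^ n` has degree `≤ 6 K + 2`, `tl` is
multiplicative (`tl_mul`), so by `res_top` the coefficient of degree `6 K + 2 - n` of `g` is the sum for `n`, i.e. `0`.

`J_refl`: `jetm a (y) = jet (-a) (-y)`.  Apply the ring automorphism `rescale (-1)` (it does not change `coeff 2`) to the
term of the node `a`: `tl a h` becomes `tl (-a) (h.comp (-X))`, `Wa a` becomes `Wa (-a)` (`2 K` factors to the third power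
change sign, the set of nodes is symmetric), and the sum over `a` is the sum over `-a`.

`J_inj`: suppose all `J (X ^ (2 i) * Q) = 0`, `i < K + 5`.  Put `R = Q.comp (-X)`, `G a = tl a Q * jet a + tl a R * jetm a`.
For `n < 2 K + 10`: `∑_a coeff 2 (G a * tl a (X ^ n) * (Wa a)⁻¹) = J (Q X ^ n) + J ((R X ^ n).comp (-X))
= (1 + (-1) ^ n) J (X ^ n Q) = 0`.  Take `g` from `interp` (jets `G a`; the coefficient `2` of a product only depends on
the coefficients `0, 1, 2`), `low_deg` with `M = 2 K + 10` gives `coeff n g = 0` for `n ≥ 4 K - 7`; apply `cas` to `-g`.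
-/

set_option autoImplicit false

noncomputable section

namespace Pool.Agent.H27.EV

open Polynomial Finset

theorem low_deg (K M : ℕ) (hM : M ≤ 6 * K + 3) (g : ℚ[X]) (hg : g.natDegree ≤ 6 * K + 2)
    (h : ∀ n < M, ∑ a ∈ nd K, PowerSeries.coeff 2 (tl ℚ a g * tl ℚ a (X ^ n) * (Wa ℚ K a)⁻¹) = 0) :
    ∀ n, 6 * K + 3 - M ≤ n → g.coeff n = 0 := by
  have key : ∀ m, m ≤ M → ∀ n, 6 * K + 3 - m ≤ n → g.coeff n = 0 := by
    intro m
    induction m with
    | zero =>
      intro _ n hn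
      apply coeff_eq_zero_of_natDegree_lt
      omega
    | succ m ih =>
      intro hm n hn
      have ih' := ih (by omega)
      by_cases hn' : 6 * K + 3 - m ≤ n
      · exact ih' n hn'
      have hn2 : n = 6 * K + 2 - m := by omega
      have hm2 : m ≤ 6 * K + 2 := by omega
      have h1 := h m (by omega)
      have h2 : ∑ a ∈ nd K, PowerSeries.coeff 2 (tl ℚ a (g * X ^ m) * (Wa ℚ K a)⁻¹) = 0 := by
        rw [← h1]
        refine sum_congr rfl fun a _ => ?_
        rw [tl_mul]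
      have hdeg : (g * X ^ m).natDegree ≤ 6 * K + 2 := by
        rw [natDegree_le_iff_coeff_eq_zero]
        intro N hN
        rw [coeff_mul_X_pow']
        split_ifs with hmN
        · exact ih' _ (by omega)
        · rfl
      rw [res_top (by norm_num) K (fun n hn _ => by
        have : n ≠ 0 := by omega
        exact_mod_cast this) _ hdeg] at h2
      rw [coeff_mul_X_pow', if_pos hm2] at h2
      rw [hn2]; exact h2
  exact key M le_rfl

theorem zer_card (K : ℕ) (a : ℤ) (ha : a ∈ nd K) : ((nd K).erase a).card = 2 * K := by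
  rw [card_erase_of_mem ha]
  unfold nd
  rw [Int.card_Icc]
  omega

theorem zer_neg_mem (K : ℕ) (a : ℤ) : -a ∈ nd K ↔ a ∈ nd K := by
  unfold nd
  rw [mem_Icc, mem_Icc]
  constructor <;> intro h <;> constructor <;> linarith [h.1, h.2]

theorem zer_Wa_const (K : ℕ) (a : ℤ) : PowerSeries.constantCoeff (Wa ℚ K a) ≠ 0 := by
  unfold Wa
  rw [map_prod]
  rw [prod_ne_zero_iff]
  intro b hb
  rw [map_pow, map_add, PowerSeries.constantCoeff_X, PowerSeries.constantCoeff_C, zero_add]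
  apply pow_ne_zero
  have h : a ≠ b := (ne_of_mem_erase hb).symm
  have h' : a - b ≠ 0 := sub_ne_zero.2 h
  exact_mod_cast h'

theorem zer_rescale_X : PowerSeries.rescale (-1 : ℚ) (PowerSeries.X : PowerSeries ℚ)
    = -PowerSeries.X := by
  rw [PowerSeries.rescale_X]
  simp

theorem zer_rescale_C (c : ℚ) : PowerSeries.rescale (-1 : ℚ) (PowerSeries.C c : PowerSeries ℚ)
    = PowerSeries.C c := by
  ext n
  rw [PowerSeries.coeff_rescale, PowerSeries.coeff_C]
  split_ifs with h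
  · rw [h, pow_zero, one_mul]
  · rw [mul_zero]

theorem zer_rescale_Wa (K : ℕ) (a : ℤ) (ha : a ∈ nd K) :
    PowerSeries.rescale (-1 : ℚ) (Wa ℚ K (-a)) = Wa ℚ K a := by
  unfold Wa
  rw [map_prod]
  have e1 : ∀ b : ℤ, PowerSeries.rescale (-1 : ℚ)
      ((PowerSeries.X + PowerSeries.C ((-a - b : ℤ) : ℚ)) ^ 3)
      = (-1) * (PowerSeries.X + PowerSeries.C ((a - (-b) : ℤ) : ℚ)) ^ 3 := by
    intro b
    rw [map_pow, map_add, zer_rescale_X, zer_rescale_C]
    have : PowerSeries.C ((-a - b : ℤ) : ℚ) = -PowerSeries.C ((a - (-b) : ℤ) : ℚ) := by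
      rw [← map_neg]; congr 1; push_cast; ring
    rw [this]; ring
  rw [prod_congr rfl fun b _ => e1 b, prod_mul_distrib, prod_const,
    zer_card K (-a) ((zer_neg_mem K a).2 ha), pow_mul]
  rw [show ((-1 : PowerSeries ℚ) ^ 2) ^ K = 1 by norm_num, one_mul]
  refine prod_bij' (fun b _ => -b) (fun b _ => -b) ?_ ?_ ?_ ?_ ?_
  · intro b hb
    rw [mem_erase] at hb ⊢
    exact ⟨fun h => hb.1 (by rw [← h, neg_neg]), (zer_neg_mem K b).2 hb.2⟩
  · intro b hb
    rw [mem_erase] at hb ⊢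
    exact ⟨fun h => hb.1 (neg_injective h), (zer_neg_mem K b).2 hb.2⟩
  · intro b _; exact neg_neg b
  · intro b _; exact neg_neg b
  · intro b _; rfl

theorem zer_rescale_inv (f : PowerSeries ℚ) (hf : PowerSeries.constantCoeff f ≠ 0) :
    PowerSeries.rescale (-1 : ℚ) (f⁻¹) = (PowerSeries.rescale (-1 : ℚ) f)⁻¹ := by
  have h1 : PowerSeries.constantCoeff (PowerSeries.rescale (-1 : ℚ) f) ≠ 0 := by
    rw [← PowerSeries.coeff_zero_eq_constantCoeff_apply, PowerSeries.coeff_rescale, pow_zero,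
      one_mul, PowerSeries.coeff_zero_eq_constantCoeff_apply]
    exact hf
  rw [PowerSeries.eq_inv_iff_mul_eq_one h1, ← map_mul, mul_comm, PowerSeries.mul_inv_cancel _ hf,
    map_one]

/-- rescaling the series of a polynomial -/
theorem zer_rescale_poly (p : ℚ[X]) :
    PowerSeries.rescale (-1 : ℚ) ((p : ℚ[X]) : PowerSeries ℚ) = ((p.comp (-X) : ℚ[X]) : PowerSeries ℚ) := by
  ext n
  rw [PowerSeries.coeff_rescale, Polynomial.coeff_coe, Polynomial.coeff_coe]
  rw [show (-X : ℚ[X]) = C (-1 : ℚ) * X by simp, comp_C_mul_X_coeff, mul_comm]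

theorem zer_rescale_tl (a : ℤ) (h : ℚ[X]) :
    PowerSeries.rescale (-1 : ℚ) (tl ℚ (-a) (h.comp (-X))) = tl ℚ a h := by
  unfold tl
  rw [zer_rescale_poly]
  congr 1
  rw [taylor_apply, taylor_apply, comp_assoc, comp_assoc]
  congr 1
  simp [add_comm]

theorem J_refl (K : ℕ) (h : ℚ[X]) :
    ∑ a ∈ nd K, PowerSeries.coeff 2 (jetm a * tl ℚ a h * (Wa ℚ K a)⁻¹) = J ℚ K (h.comp (-X)) := by
  unfold J Jt
  refine sum_bij' (fun a _ => -a) (fun a _ => -a) ?_ ?_ ?_ ?_ ?_
  · intro a ha; exact (zer_neg_mem K a).2 ha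
  · intro a ha; exact (zer_neg_mem K a).2 ha
  · intro a _; exact neg_neg a
  · intro a _; exact neg_neg a
  · intro a ha
    have e : jetm a * tl ℚ a h * (Wa ℚ K a)⁻¹
        = PowerSeries.rescale (-1 : ℚ) (jet ℚ (-a) * tl ℚ (-a) (h.comp (-X)) * (Wa ℚ K (-a))⁻¹) := by
      rw [map_mul, map_mul, zer_rescale_inv _ (zer_Wa_const K (-a)), zer_rescale_Wa K a ha,
        zer_rescale_tl]
      rfl
    rw [e, PowerSeries.coeff_rescale]
    norm_num

/-- the coefficient `2` of a product depends only on the coefficients `0, 1, 2` -/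
theorem zer_coeff_two (A B C : PowerSeries ℚ)
    (h : ∀ n ≤ 2, PowerSeries.coeff n A = PowerSeries.coeff n B) :
    PowerSeries.coeff 2 (A * C) = PowerSeries.coeff 2 (B * C) := by
  rw [PowerSeries.coeff_mul, PowerSeries.coeff_mul]
  refine sum_congr rfl fun p hp => ?_
  have hp' : p.1 + p.2 = 2 := by simpa using hp
  rw [h p.1 (by omega)]

theorem J_inj (K : ℕ) (hK : 3 ≤ K) (Q : ℚ[X]) (hQ : Q ≠ 0) (hd : Q.natDegree < K) :
    ∃ i < K + 5, J ℚ K (X ^ (2 * i) * Q) ≠ 0 := by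
  by_contra hcon
  push Not at hcon
  have hG : ∀ n < 2 * K + 10, ∑ a ∈ nd K, PowerSeries.coeff 2 ((tl ℚ a Q * jet ℚ a
      + tl ℚ a (Q.comp (-X)) * jetm a) * tl ℚ a (X ^ n) * (Wa ℚ K a)⁻¹) = 0 := by
    intro n hn
    have e1 : ∀ a ∈ nd K, PowerSeries.coeff 2 ((tl ℚ a Q * jet ℚ a
      + tl ℚ a (Q.comp (-X)) * jetm a) * tl ℚ a (X ^ n) * (Wa ℚ K a)⁻¹)
      = Jt ℚ K a (X ^ n * Q)
        + PowerSeries.coeff 2 (jetm a * tl ℚ a (X ^ n * Q.comp (-X)) * (Wa ℚ K a)⁻¹) := by
      intro a _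
      unfold Jt
      rw [tl_mul, tl_mul, ← map_add]
      congr 1
      ring
    rw [sum_congr rfl e1, sum_add_distrib, J_refl]
    have e2 : (X ^ n * Q.comp (-X)).comp (-X) = C ((-1 : ℚ) ^ n) * (X ^ n * Q) := by
      rw [mul_comp, pow_comp, X_comp, comp_assoc]
      have : (-X : ℚ[X]).comp (-X) = X := by simp
      rw [this, comp_X, neg_pow, map_pow, map_neg, map_one]
      ring
    rw [e2, J_C_mul]
    change J ℚ K (X ^ n * Q) + _ = 0
    rcases Nat.even_or_odd' n with ⟨i, hi | hi⟩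
    · rw [hi, hcon i (by omega)]; ring
    · rw [hi, pow_succ (-1 : ℚ), pow_mul (-1 : ℚ)]
      norm_num
  obtain ⟨g, hg, hgc⟩ := interp K (fun a => tl ℚ a Q * jet ℚ a + tl ℚ a (Q.comp (-X)) * jetm a)
  have hl := low_deg K (2 * K + 10) (by omega) g hg (by
    intro n hn
    rw [← hG n hn]
    refine sum_congr rfl fun a ha => ?_
    rw [mul_assoc, mul_assoc]
    exact zer_coeff_two _ _ _ (hgc a ha))
  refine cas K hK (-g) Q hQ hd ?_ ?_
  · intro n hn
    rw [coeff_neg, hl n (by omega), neg_zero]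
  · intro a ha n hn
    have e3 : tl ℚ a (-g) = - tl ℚ a g := by
      unfold tl; rw [map_neg, Polynomial.coe_neg]
    rw [e3, add_assoc, map_add, map_neg, hgc a ha n hn]
    ring

end Pool.Agent.H27.EV
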